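import Pool.Agent.H31.CN.Defs

/-!
# Targets, part 1: the unfolded second moment
-/

set_option autoImplicit false

open MeasureTheory Set Filter
open scoped Real Matrix MatrixGroups

namespace Pool.Agent.H31.CN

/-- (PAR) every pair (form, nonzero vector) is the image of exactly one pair
(`(A, B, C)` with `0 ≤ B < 2A`, `(e, 0)`) under exactly one matrix. -/
def T_PAR : Prop :=
  ∀ (Δ : ℕ) (Q : QF) (v : ℤ × ℤ), 0 < Δ → Q ∈ FD Δ → v ≠ 0 →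
    ∃! x : (ℕ × ℕ × ℕ) × SL(2, ℤ), 1 ≤ x.1.1 ∧ 1 ≤ x.1.2.1 ∧ x.1.2.2 < 2 * x.1.2.1 ∧
      4 * x.1.2.1 ∣ x.1.2.2 ^ 2 + Δ ∧
      act ((x.1.2.1 : ℤ), (x.1.2.2 : ℤ), (((x.1.2.2 ^ 2 + Δ) / (4 * x.1.2.1) : ℕ) : ℤ)) x.2 = Q ∧
      gv x.2 v = ((x.1.1 : ℤ), 0)

/-- (ACT) the substitution action. -/
def T_ACT : Prop :=
  ∀ (Q : QF) (g h : SL(2, ℤ)) (v : ℤ × ℤ), val (act Q g) v = val Q (gv g v) ∧
    dsc (act Q g) = dsc Q ∧ act Q 1 = Q ∧ act (act Q g) h = act Q (g * h) ∧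
    gv (g * h) v = gv g (gv h v) ∧ (∀ Δ : ℕ, 0 < Δ → Q ∈ FD Δ → act Q g ∈ FD Δ ∧
      (v ≠ 0 → 0 < val Q v))

/-- (VGR) sums of exponentials over the vectors grow slowly. -/
def T_VGR : Prop :=
  ∀ (Δ : ℕ) (c : ℝ), 0 < Δ → 0 < c → ∃ K : ℝ, ∀ Q ∈ FD Δ,
    Summable (fun v : ℤ × ℤ => Real.exp (-(c * val Q v))) ∧
    ∑' v : ℤ × ℤ, Real.exp (-(c * val Q v)) ≤ K * (1 + Q.1)

/-- (ORB) unfolding over the classes of forms. -/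
def T_ORB : Prop :=
  ∀ (Δ : ℕ) (K c : ℝ) (w : QF → ℤ × ℤ → ℝ), 0 < Δ → 0 < c →
    (∀ Q ∈ FD Δ, w Q 0 = 0) →
    (∀ Q ∈ FD Δ, ∀ g v, w (act Q g) v = w Q (gv g v)) →
    (∀ Q ∈ FD Δ, ∀ v, v ≠ 0 → |w Q v| ≤ K * Real.exp (-(c * val Q v))) →
    ∀ (ι : Type) [Fintype ι] (Q : ι → QF), (∀ i, Q i ∈ FD Δ) →
      (∀ i j g, act (Q i) g = Q j → i = j ∧ (g = 1 ∨ g = -1)) →
      ∑ i, (∑' v, w (Q i) v) ^ 2 ≤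
        2 * US Δ (fun R e => w R ((e : ℤ), 0)) (fun R => ∑' v, w R v)

/-- (ADJ) the Hecke operator can be moved to the weight. -/
def T_ADJ : Prop :=
  ∀ (Δ p k : ℕ) (K c : ℝ) (ω : QF → ℕ → ℝ) (F : QF → ℝ), 0 < Δ → p.Prime → 0 < c →
    (∀ Q ∈ FD Δ, ω Q 0 = 0) →
    (∀ Q ∈ FD Δ, ∀ e, ω (Q.1, Q.2.1 + 2 * Q.1, Q.1 + Q.2.1 + Q.2.2) e = ω Q e) →
    (∀ Q ∈ FD Δ, F (Q.1, Q.2.1 + 2 * Q.1, Q.1 + Q.2.1 + Q.2.2) = F Q) →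
    (∀ Q ∈ FD Δ, ∀ e, |ω Q e| ≤ K * Real.exp (-(c * ((e : ℝ) ^ 2 * Q.1)))) →
    (∀ Q ∈ FD Δ, |F Q| ≤ K * (1 + (Q.1 : ℝ)) ^ k) →
    US Δ (Wp p ω) F = US Δ ω (Tp p F)

/-- (TPB) the Hecke operator preserves invariance and bounds. -/
def T_TPB : Prop :=
  ∀ (Δ p : ℕ), 0 < Δ → p.Prime →
    (∀ (K : ℝ) (k : ℕ) (F : QF → ℝ), (∀ Q ∈ FD Δ, |F Q| ≤ K * (1 + (Q.1 : ℝ)) ^ k) →
      ∀ Q ∈ FD Δ, |Tp p F Q| ≤ (K * (p + 1) ^ (k + 1)) * (1 + (Q.1 : ℝ)) ^ k) ∧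
    (∀ F : QF → ℝ, (∀ Q ∈ FD Δ, F (Q.1, Q.2.1 + 2 * Q.1, Q.1 + Q.2.1 + Q.2.2) = F Q) →
      ∀ Q ∈ FD Δ, Tp p F (Q.1, Q.2.1 + 2 * Q.1, Q.1 + Q.2.1 + Q.2.2) = Tp p F Q) ∧
    (∀ (K c : ℝ) (ω : QF → ℕ → ℝ), 0 < c → (∀ Q ∈ FD Δ, ∀ e, |ω Q e| ≤
        K * Real.exp (-(c * ((e : ℝ) ^ 2 * Q.1)))) →
      ∀ Q ∈ FD Δ, ∀ e, |Wp p ω Q e| ≤
        (K * (p + 1)) * Real.exp (-((c / p) * ((e : ℝ) ^ 2 * Q.1)))) ∧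
    (∀ ω : QF → ℕ → ℝ, (∀ Q ∈ FD Δ, ∀ e,
        ω (Q.1, Q.2.1 + 2 * Q.1, Q.1 + Q.2.1 + Q.2.2) e = ω Q e) →
      ∀ Q ∈ FD Δ, ∀ e, Wp p ω (Q.1, Q.2.1 + 2 * Q.1, Q.1 + Q.2.1 + Q.2.2) e = Wp p ω Q e)

/-- (NUI) the local numbers are invariant. -/
def T_NUI : Prop :=
  ∀ (p : ℕ) (Q : QF) (g : SL(2, ℤ)) (v : ℤ × ℤ), p.Prime →
    nul p (act Q g) v = nul p Q (gv g v)

/-- (HK1) one Hecke operator: the vectors of the sublattices of index `p`. -/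
def T_HK1 : Prop :=
  ∀ (Δ p : ℕ) (K c : ℝ) (H : QF → ℤ × ℤ → ℝ), 0 < Δ → p.Prime → 0 < c →
    (∀ Q ∈ FD Δ, ∀ v, |H Q v| ≤ K * Real.exp (-(c * val Q v))) → ∀ Q ∈ FD Δ,
    Tp p (fun R => ∑' v, H R v) Q = ∑' v : ℤ × ℤ,
      ((if (p : ℤ) ∣ Q.1 ∧ (p : ℤ) ∣ v.2 then
          H (Q.1 / p, Q.2.1, p * Q.2.2) (v.1, v.2 / p) else 0) +
        ∑ j ∈ (Finset.range p).filter (fun j : ℕ =>
          (p : ℤ) ∣ Q.1 * (j : ℤ) ^ 2 + Q.2.1 * (j : ℤ) + Q.2.2 ∧ (p : ℤ) ∣ v.1 - j * v.2),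
          H (p * Q.1, Q.2.1 + 2 * Q.1 * j,
            (Q.1 * (j : ℤ) ^ 2 + Q.2.1 * (j : ℤ) + Q.2.2) / p) ((v.1 - j * v.2) / p, v.2))

/-- (HK2) the local numbers at other primes do not change on sublattices of index `p`. -/
def T_HK2 : Prop :=
  ∀ (p l : ℕ) (Q : QF) (v : ℤ × ℤ), p.Prime → l.Prime → l ≠ p →
    ((p : ℤ) ∣ Q.1 → (p : ℤ) ∣ v.2 →
      nul l (Q.1 / p, Q.2.1, p * Q.2.2) (v.1, v.2 / p) = nul l Q v ∧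
      val (Q.1 / p, Q.2.1, p * Q.2.2) (v.1, v.2 / p) * p = val Q v) ∧
    (∀ j : ℤ, (p : ℤ) ∣ Q.1 * j ^ 2 + Q.2.1 * j + Q.2.2 → (p : ℤ) ∣ v.1 - j * v.2 →
      nul l (p * Q.1, Q.2.1 + 2 * Q.1 * j, (Q.1 * j ^ 2 + Q.2.1 * j + Q.2.2) / p)
        ((v.1 - j * v.2) / p, v.2) = nul l Q v ∧
      val (p * Q.1, Q.2.1 + 2 * Q.1 * j, (Q.1 * j ^ 2 + Q.2.1 * j + Q.2.2) / p)
        ((v.1 - j * v.2) / p, v.2) * p = val Q v)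

/-- (HK3) the number of sublattices of index `p` that contain `v`. -/
def T_HK3 : Prop :=
  ∀ (p : ℕ) (Q : QF) (v : ℤ × ℤ), p.Prime →
    (if (p : ℤ) ∣ Q.1 ∧ (p : ℤ) ∣ v.2 then 1 else 0) +
      ((Finset.range p).filter (fun j : ℕ =>
        (p : ℤ) ∣ Q.1 * (j : ℤ) ^ 2 + Q.2.1 * (j : ℤ) + Q.2.2 ∧
          (p : ℤ) ∣ v.1 - j * v.2)).card = nul p Q v

/-- (HK) the Hecke operators on sums over vectors. -/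
def T_HK : Prop :=
  ∀ (Δ : ℕ) (K c : ℝ) (h : ℝ → ℝ) (l : List ℕ), 0 < Δ → 0 < c →
    (∀ x, 0 < x → |h x| ≤ K * Real.exp (-(c * x))) → l.Nodup → (∀ p ∈ l, p.Prime) →
    ∀ Q ∈ FD Δ,
    ∑' v : ℤ × ℤ, (if v = 0 then 0 else h ((val Q v : ℝ) / (l.prod : ℝ)) *
        ((l.map (fun p => nul p Q v)).prod : ℕ)) =
      TL l (fun R => ∑' v : ℤ × ℤ, if v = 0 then 0 else h (val R v)) Q

/-- (WC1) the local weights under the Hecke operator at another prime. -/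
def T_WC1 : Prop :=
  ∀ (p l A : ℕ) (B C : ℤ) (e : ℕ), p.Prime → l.Prime → l ≠ p → 0 < A →
    (p ∣ A → N1 l (A / p) B (p * C) e = N1 l A B C e ∧ N2 l (A / p) B (p * C) e = N2 l A B C e) ∧
    (∀ j : ℤ, p ∣ e → (p : ℤ) ∣ A * j ^ 2 + B * j + C →
      N1 l (p * A) (B + 2 * A * j) ((A * j ^ 2 + B * j + C) / p) (e / p) = N1 l A B C e ∧
      N2 l (p * A) (B + 2 * A * j) ((A * j ^ 2 + B * j + C) / p) (e / p) = N2 l A B C e)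

/-- (WC2) the local weights under the Hecke operator at the same prime. -/
def T_WC2 : Prop :=
  ∀ (p A : ℕ) (B C : ℤ) (e : ℕ), p.Prime → 0 < A →
    (if p ∣ A then 1 else 0) + (if p ∣ e then nrt p A B C else 0) = N1 p A B C e ∧
    (if p ∣ A then N1 p (A / p) B (p * C) e else 0) +
      (if p ∣ e then ∑ j ∈ (Finset.range p).filter
        (fun j : ℕ => (p : ℤ) ∣ A * (j : ℤ) ^ 2 + B * (j : ℤ) + C),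
        N1 p (p * A) (B + 2 * A * j) ((A * (j : ℤ) ^ 2 + B * (j : ℤ) + C) / p) (e / p)
        else 0) = N2 p A B C e

/-- (WC) the weights of products of Hecke operators. -/
def T_WC : Prop :=
  ∀ (Δ m₁ m₂ : ℕ) (h : ℝ → ℝ), 0 < Δ → Squarefree m₁ → Squarefree m₂ →
    ∀ Q ∈ FD Δ, ∀ e : ℕ, 1 ≤ e →
    m₂.primeFactorsList.foldl (fun ω p => Wp p ω)
      (fun R e => if e = 0 then 0 else h ((e : ℝ) ^ 2 * R.1) *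
        ((∏ p ∈ m₁.primeFactors, N1 p R.1.toNat R.2.1 R.2.2 e : ℕ) : ℝ)) Q e =
      h ((e : ℝ) ^ 2 * Q.1 / m₂) * (Nw m₁ m₂ Q.1.toNat Q.2.1 Q.2.2 e : ℝ)

/-- (VK) the cut-off function. -/
def T_VK : Prop :=
  ∃ C : ℝ, 0 < C ∧ (∀ x : ℝ, 0 < x → |Vk x| ≤ C * Real.exp (-(6 * x))) ∧
    (∀ x : ℝ, 0 < x → |Vk x - 1| ≤ C * x) ∧
    (∀ x : ℝ, 0 < x → DifferentiableAt ℝ Vk x ∧ |deriv Vk x| ≤ C * Real.exp (-(6 * x))) ∧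
    ContinuousOn (deriv Vk) (Ioi 0)

/-- (UNF) the unfolded second moment. -/
def T_UNF : Prop :=
  ∀ (Δ : ℕ), 0 < Δ → ∀ (S : Finset ℕ) (c : ℕ → ℝ), (∀ m ∈ S, Squarefree m) →
    ∀ (ι : Type) [Fintype ι] (Q : ι → QF), (∀ i, Q i ∈ FD Δ) →
      (∀ i j g, act (Q i) g = Q j → i = j ∧ (g = 1 ∨ g = -1)) →
      ∑ i, (Zc S c (Q i)) ^ 2 ≤ 2 * ∑ m₁ ∈ S, ∑ m₂ ∈ S, c m₁ * c m₂ * Uf m₁ m₂ Δ

end Pool.Agent.H31.CN
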