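import Pool.Agent.H31.CN.T3
import Pool.Agent.H31.CN.T1

/-!
# Targets, part 4: the small primes, the first moment, the two moments over the family
-/

set_option autoImplicit false

open MeasureTheory Set Filter
open scoped Real

namespace Pool.Agent.H31.CN

/-- the quadratic character: `1`, `-1` or `0` according as `p` splits, is inert or ramified in
the field of discriminant `-Δ` (for `Δ % 4 = 3`) -/
def chi (p : ℕ) (Δ : ℤ) : ℤ :=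
  if p = 2 then (if Δ % 8 = 7 then 1 else -1) else (nrt p 1 0 Δ : ℤ) - 1

/-- the enlarged family: `Δ = 3` modulo `4` and no odd prime divisor of `N` divides `Δ` twice -/
def good (N : ℕ) (Δ : ℤ) : Prop :=
  Δ % 4 = 3 ∧ ∀ p ∈ N.primeFactors, p ≠ 2 → ¬ ((p : ℤ) ^ 2 ∣ Δ)

/-- the coefficients at the small primes -/
noncomputable def an (N n : ℕ) (Δ : ℤ) : ℝ :=
  ∏ p ∈ N.primeFactors, if p ∣ n then -1 else 1 + (chi p Δ : ℝ) / p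

open Classical in
/-- the weight at the small primes -/
noncomputable def wN (N n₁ n₂ : ℕ) (e A : ℕ) (B C : ℤ) : ℝ :=
  if good N (4 * A * C - B ^ 2) then
    an N n₁ (4 * A * C - B ^ 2) * an N n₂ (4 * A * C - B ^ 2) * Nw n₁ n₂ A B C e else 0

/-- (WDN) the weight at the small primes is admissible. -/
def T_WDN : Prop :=
  ∀ N : ℕ, 1 ≤ N → 2 ∣ N → Squarefree N → ∀ n₁ n₂ : ℕ, n₁ ∣ N → n₂ ∣ N →
    WD (8 * N ^ 2) ((4 * N : ℝ) ^ 8) (wN N n₁ n₂)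

/-- the local weight at one small prime, `t` = the number of `n₁`, `n₂` divisible by `p` -/
noncomputable def wl (p t : ℕ) (e A : ℕ) (B C : ℤ) : ℝ :=
  if (if p = 2 then (4 * A * C - B ^ 2) % 4 = 3 else ¬ ((p : ℤ) ^ 2 ∣ 4 * A * C - B ^ 2)) then
    (if t = 0 then (1 + (chi p (4 * A * C - B ^ 2) : ℝ) / p) ^ 2 else
      if t = 1 then -(1 + (chi p (4 * A * C - B ^ 2) : ℝ) / p) * N1 p A B C e else
        (N2 p A B C e : ℝ)) else 0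

/-- the local modulus -/
def ql (p : ℕ) : ℕ := if p = 2 then 32 else p ^ 2

/-- the local mean -/
noncomputable def ml (p t e A : ℕ) : ℝ :=
  (1 / (ql p : ℝ) ^ 2) * ∑ B ∈ Finset.range (ql p), ∑ C ∈ Finset.range (ql p), wl p t e A B C

/-- (LOC) the local means at a small prime. -/
def T_LOC : Prop :=
  ∀ p : ℕ, p.Prime → ∃ f : ℕ → ℕ × ℕ → ℝ,
    (∀ t, t ≤ 2 → ∀ e A, 1 ≤ e → 1 ≤ A → ml p t e A =
      ∑ x ∈ ({1, p, p ^ 2} : Finset ℕ) ×ˢ ({1, p, p ^ 2} : Finset ℕ),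
        if x.1 ∣ A ∧ x.2 ∣ e then f t x else 0) ∧
    ∑ x ∈ ({1, p, p ^ 2} : Finset ℕ) ×ˢ ({1, p, p ^ 2} : Finset ℕ),
      (f 0 x + 2 * f 1 x + f 2 x) / ((x.1 : ℝ) * x.2) =
        (1 - 1 / (p : ℝ)) ^ 3 * (if p = 2 then 1 / 2 else 1 - 1 / (p : ℝ) ^ 2)

/-- (LOP) the means at all small primes together. -/
def T_LOP : Prop :=
  ∀ N : ℕ, 1 ≤ N → 2 ∣ N → Squarefree N → ∀ n₁ n₂ : ℕ, n₁ ∣ N → n₂ ∣ N → ∀ e A, 1 ≤ e →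
    1 ≤ A → wbar (8 * N ^ 2) (wN N n₁ n₂) e A =
      ∏ p ∈ N.primeFactors, ml p ((if p ∣ n₁ then 1 else 0) + (if p ∣ n₂ then 1 else 0)) e A

/-- the density of the enlarged family -/
noncomputable def dR (N : ℕ) : ℝ :=
  1 / 4 * ∏ p ∈ N.primeFactors, if p = 2 then 1 else 1 - 1 / (p : ℝ) ^ 2

/-- (NEL) the element of the group ring at the small primes. -/
def T_NEL : Prop :=
  ∀ N : ℕ, 1 ≤ N → 2 ∣ N → Squarefree N → ∃ (T : Finset (ℕ × ℕ)) (f : ℕ → ℕ → ℕ × ℕ → ℝ),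
    (∀ x ∈ T, x.1 ∣ N ^ 2 ∧ x.2 ∣ N ^ 2) ∧
    (∀ n₁ n₂ e A, n₁ ∣ N → n₂ ∣ N → 1 ≤ e → 1 ≤ A →
      wbar (8 * N ^ 2) (wN N n₁ n₂) e A = ∑ x ∈ T, if x.1 ∣ A ∧ x.2 ∣ e then f n₁ n₂ x else 0) ∧
    ∑ n₁ ∈ N.divisors, ∑ n₂ ∈ N.divisors, ∑ x ∈ T, f n₁ n₂ x / ((x.1 : ℝ) * x.2) =
      (∏ p ∈ N.primeFactors, (1 - 1 / (p : ℝ)) ^ 3) * (2 * dR N)

/-- the mollifier coefficients with the exact inverse at the small primes -/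
noncomputable def CD (P : Polynomial ℝ) (M : ℝ) (N : ℕ) (Δ : ℤ) (m : ℕ) : ℝ :=
  an N (Nat.gcd m N) Δ * cm P M N (m / Nat.gcd m N)

/-- the support of the coefficients -/
noncomputable def SD (M : ℝ) (N : ℕ) : Finset ℕ :=
  (Finset.Icc 1 (N * ⌊M⌋₊)).filter
    (fun m => Squarefree m ∧ ((m / Nat.gcd m N : ℕ) : ℝ) ≤ M)

/-- (UFC) the unfolded second moment with the coefficients `CD`. -/
def T_UFC : Prop :=
  ∀ (P : Polynomial ℝ) (M : ℝ) (N Δ : ℕ), 1 ≤ N → 2 ∣ N → Squarefree N → 0 < Δ →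
    good N Δ →
    ∑ m₁ ∈ SD M N, ∑ m₂ ∈ SD M N, CD P M N Δ m₁ * CD P M N Δ m₂ * Uf m₁ m₂ Δ =
      ∑ n₁ ∈ N.divisors, ∑ n₂ ∈ N.divisors, ∑ m₁ ∈ Finset.Icc 1 ⌊M⌋₊,
        ∑ m₂ ∈ Finset.Icc 1 ⌊M⌋₊, cm P M N m₁ * cm P M N m₂ *
          US Δ (fun Q e => Vk ((e : ℝ) ^ 2 * Q.1 /
            (((n₁ * n₂ : ℕ) : ℝ) * m₁ * m₂ * Real.sqrt Δ)) / Real.sqrt ((e : ℝ) ^ 2 * Q.1) *
            wN N n₁ n₂ e Q.1.toNat Q.2.1 Q.2.2 * Nw m₁ m₂ Q.1.toNat Q.2.1 Q.2.2 e)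
            (fun Q => zf Q.1 Q.2.1 Δ)

open Classical in
/-- (SM2) the second moment over the enlarged family. -/
def T_SM2 : Prop :=
  ∀ (G : ℝ → ℝ) (η : ℝ), 0 < η → ContDiff ℝ (⊤ : ℕ∞) G → (∀ u, u ∉ Icc η 1 → G u = 0) →
  ∀ (P : Polynomial ℝ) (N : ℕ) (θ ε : ℝ), Polynomial.X ^ 5 ∣ P → 1 ≤ N → 2 ∣ N →
    Squarefree N → 0 < θ → θ < 1 / 4 → 0 < ε →
    ∃ X₀ : ℝ, ∀ X : ℝ, X₀ ≤ X →
      |(∑' Δ : ℕ, if good N Δ then G (Δ / X) * (2 * ∑ m₁ ∈ SD (X ^ θ) N, ∑ m₂ ∈ SD (X ^ θ) N,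
          CD P (X ^ θ) N Δ m₁ * CD P (X ^ θ) N Δ m₂ * Uf m₁ m₂ Δ) else 0) -
        X * (∫ u in Ioi (0 : ℝ), G u) * (dR N * ((∏ p ∈ N.primeFactors, (1 - 1 / (p : ℝ)) ^ 3) *
          Sg N) * Mt P (1 / (2 * θ)))| ≤ ε * X

/-- (CRR) the singular constant is close to one. -/
def T_CRR : Prop :=
  ∀ ε : ℝ, 0 < ε → ∃ R₀ : ℕ, ∀ R : ℕ, R₀ ≤ R →
    |(∏ p ∈ (primorial R).primeFactors, (1 - 1 / (p : ℝ)) ^ 3) * Sg (primorial R) - 1| ≤ ε ∧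
    |dR (primorial R) - 2 / π ^ 2| ≤ ε

/-! ### The first moment -/

/-- the odd fundamental discriminants `-D` with `3 < D ≤ X` -/
noncomputable def fam (X : ℝ) : Finset ℕ :=
  (Finset.Icc 1 ⌊X⌋₊).filter (fun D => 3 < D ∧ D % 4 = 3 ∧ Squarefree D)

/-- (PZ1) the mollified value of the principal form as a sum over roots. -/
def T_PZ1 : Prop :=
  ∀ (D m : ℕ), 3 < D → D % 4 = 3 → Squarefree m →
    ∑' v : ℤ × ℤ, Vk (val (1, 1, ((D : ℤ) + 1) / 4) v / (m * Real.sqrt D)) *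
        nu m (1, 1, ((D : ℤ) + 1) / 4) v / Real.sqrt (val (1, 1, ((D : ℤ) + 1) / 4) v) =
      (1 / Real.sqrt m) * ∑ j ∈ (Finset.range m).filter
        (fun j : ℕ => (m : ℤ) ∣ (j : ℤ) ^ 2 + j + ((D : ℤ) + 1) / 4),
          zf m (1 + 2 * j) D

/-- (PZ2) the mollified value of the principal form up to a negligible error. -/
def T_PZ2 : Prop :=
  ∀ (P : Polynomial ℝ) (N : ℕ) (θ : ℝ), 1 ≤ N → 2 ∣ N → Squarefree N → 0 < θ → θ < 1 / 4 →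
    ∀ η : ℝ, 0 < η → ∃ X₀ : ℝ, ∀ X : ℝ, X₀ ≤ X → ∀ D : ℕ, η * X ≤ D → (D : ℝ) ≤ X →
      D % 4 = 3 → Squarefree D →
      |Zc (SD (X ^ θ) N) (CD P (X ^ θ) N D) (1, 1, ((D : ℤ) + 1) / 4) -
        ∑ m ∈ Finset.Icc 1 ⌊X ^ θ⌋₊, ∑ n ∈ N.divisors, cm P (X ^ θ) N m / m *
          (∏ p ∈ m.primeFactors, (1 + (chi p D : ℝ))) *
          (∏ p ∈ N.primeFactors, if p ∣ n then -((1 + (chi p D : ℝ)) / p) else
            1 + (chi p D : ℝ) / p) *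
          (Real.log (Real.sqrt D / (n * m)) + c0)| ≤ X ^ (-1 : ℝ)

/-- (CHS) sums of characters over the fundamental discriminants. -/
def T_CHS : Prop :=
  (∃ C : ℝ, 0 < C ∧ ∀ (X : ℝ) (l : ℕ), 1 ≤ X → 1 < l → Squarefree l →
    |∑ D ∈ fam X, ∏ p ∈ l.primeFactors, (chi p D : ℝ)| ≤ C * l * X ^ (3 / 4 : ℝ)) ∧
  (∃ C : ℝ, 0 < C ∧ ∀ X : ℝ, 1 ≤ X → |((fam X).card : ℝ) - 2 / π ^ 2 * X| ≤
    C * X ^ (3 / 4 : ℝ))

/-- (SM1) the first moment over the fundamental discriminants. -/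
def T_SM1 : Prop :=
  ∀ (G : ℝ → ℝ) (η : ℝ), 0 < η → ContDiff ℝ (⊤ : ℕ∞) G → (∀ u, u ∉ Icc η 1 → G u = 0) →
  ∀ (P : Polynomial ℝ) (N : ℕ) (θ ε : ℝ), Polynomial.X ^ 5 ∣ P → 1 ≤ N → 2 ∣ N →
    Squarefree N → 0 < θ → θ < 1 / 4 → 0 < ε →
    ∃ X₀ : ℝ, ∀ X : ℝ, X₀ ≤ X →
      |(∑ D ∈ fam X, G (D / X) *
          Zc (SD (X ^ θ) N) (CD P (X ^ θ) N D) (1, 1, ((D : ℤ) + 1) / 4)) -
        X * (∫ u in Ioi (0 : ℝ), G u) * (2 / π ^ 2 *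
          (P.eval 1 + 1 / (2 * θ) * P.derivative.eval 1))| ≤ ε * X

/-- (MU3) the mollifier sum of the first moment. -/
def T_MU3 : Prop :=
  ∀ (P : Polynomial ℝ) (N : ℕ) (κ L₀ : ℝ), Polynomial.X ^ 5 ∣ P → 1 ≤ N → Squarefree N →
    ∃ C : ℝ, 0 < C ∧ ∀ M L : ℝ, 2 ≤ M → |L - κ * Real.log M| ≤ L₀ →
      |∑ m ∈ Finset.Icc 1 ⌊M⌋₊, cm P M N m / m| ≤ C / Real.log M ∧
      |∑ m ∈ Finset.Icc 1 ⌊M⌋₊, cm P M N m / m * (L - Real.log m) -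
        (∏ p ∈ N.primeFactors, (1 - 1 / (p : ℝ))⁻¹) *
          (P.eval 1 + κ * P.derivative.eval 1)| ≤ C / Real.log M

end Pool.Agent.H31.CN
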