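import Pool.Agent.H31.CN.UnfA

/-!
# (UNF) the unfolded second moment
-/

set_option autoImplicit false

open MeasureTheory Set Filter
open scoped Real Matrix MatrixGroups

namespace Pool.Agent.H31.CN

/-- the summand of the unfolded sum -/
noncomputable def UT (Δ : ℕ) (ω : QF → ℕ → ℝ) (F : QF → ℝ) (p : ℕ × ℕ) : ℝ :=
  ∑ B ∈ (Finset.range (2 * p.2)).filter (fun B => 4 * p.2 ∣ B ^ 2 + Δ),
    ω (qf3 Δ p.2 B) p.1 * F (qf3 Δ p.2 B)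

theorem US_tsum (Δ : ℕ) (ω : QF → ℕ → ℝ) (F : QF → ℝ) : US Δ ω F = ∑' p, UT Δ ω F p := rfl

theorem UT_bilin (Δ : ℕ) (s t : Finset ℕ) (a b : ℕ → ℝ) (ω : ℕ → QF → ℕ → ℝ)
    (F : ℕ → QF → ℝ) (p : ℕ × ℕ) :
    UT Δ (fun Q e => ∑ i ∈ s, a i * ω i Q e) (fun Q => ∑ j ∈ t, b j * F j Q) p =
      ∑ i ∈ s, ∑ j ∈ t, a i * b j * UT Δ (ω i) (F j) p := by
  unfold UT
  simp_rw [Finset.sum_mul_sum, Finset.mul_sum]
  rw [Finset.sum_comm]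
  refine Finset.sum_congr rfl fun i _ => ?_
  rw [Finset.sum_comm]
  refine Finset.sum_congr rfl fun j _ => ?_
  refine Finset.sum_congr rfl fun B _ => ?_
  ring

theorem US_bilin (Δ : ℕ) (s t : Finset ℕ) (a b : ℕ → ℝ) (ω : ℕ → QF → ℕ → ℝ)
    (F : ℕ → QF → ℝ) (hs : ∀ i ∈ s, ∀ j ∈ t, Summable (UT Δ (ω i) (F j))) :
    US Δ (fun Q e => ∑ i ∈ s, a i * ω i Q e) (fun Q => ∑ j ∈ t, b j * F j Q) =
      ∑ i ∈ s, ∑ j ∈ t, a i * b j * US Δ (ω i) (F j) := by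
  rw [US_tsum]
  simp_rw [UT_bilin]
  rw [Summable.tsum_finsetSum (fun i hi => summable_sum fun j hj => (hs i hi j hj).mul_left _)]
  refine Finset.sum_congr rfl fun i hi => ?_
  rw [Summable.tsum_finsetSum (fun j hj => (hs i hi j hj).mul_left _)]
  refine Finset.sum_congr rfl fun j hj => ?_
  rw [tsum_mul_left, US_tsum]

/-- the properties of weights that are used -/
structure WP (Δ : ℕ) (ω : QF → ℕ → ℝ) : Prop where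
  zero : ∀ Q ∈ FD Δ, ω Q 0 = 0
  inv : ∀ Q ∈ FD Δ, ∀ e, ω (Q.1, Q.2.1 + 2 * Q.1, Q.1 + Q.2.1 + Q.2.2) e = ω Q e
  dec : ∃ K c : ℝ, 0 < c ∧ ∀ Q ∈ FD Δ, ∀ e, |ω Q e| ≤ K * Real.exp (-(c * ((e : ℝ) ^ 2 * Q.1)))

/-- the properties of functions of forms that are used -/
structure FP (Δ : ℕ) (F : QF → ℝ) : Prop where
  inv : ∀ Q ∈ FD Δ, F (Q.1, Q.2.1 + 2 * Q.1, Q.1 + Q.2.1 + Q.2.2) = F Q
  gro : ∃ (K : ℝ) (k : ℕ), ∀ Q ∈ FD Δ, |F Q| ≤ K * (1 + (Q.1 : ℝ)) ^ k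

theorem WP.summable {Δ : ℕ} {ω : QF → ℕ → ℝ} {F : QF → ℝ} (hw : WP Δ ω) (hF : FP Δ F) :
    Summable (UT Δ ω F) := by
  obtain ⟨K, c, hc, h1⟩ := hw.dec
  obtain ⟨K', k, h2⟩ := hF.gro
  exact US_summable hc hw.zero h1 h2

theorem Wp_zero {Δ p : ℕ} (hΔ : 0 < Δ) {ω : QF → ℕ → ℝ} (hw : WP Δ ω) (hp : p.Prime) :
    ∀ Q ∈ FD Δ, Wp p ω Q 0 = 0 := by
  intro Q hQ
  have hp0 : (0 : ℤ) < p := by exact_mod_cast hp.pos
  have hA : 0 < Q.1 := hQ.1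
  have hd : dsc Q = Δ := hQ.2
  unfold dsc at hd
  unfold Wp
  have m1 : (p : ℤ) ∣ Q.1 → (Q.1 / p, Q.2.1, p * Q.2.2) ∈ FD Δ := by
    rintro ⟨a, ha⟩
    have ha' : Q.1 / (p : ℤ) = a := by rw [ha]; exact Int.mul_ediv_cancel_left a hp0.ne'
    refine ⟨?_, ?_⟩
    · simp only [ha']
      by_contra h
      rw [not_lt] at h
      nlinarith
    · simp only [dsc, ha']
      rw [ha] at hd
      linear_combination hd
  have m2 : ∀ j : ℕ, (p : ℤ) ∣ Q.1 * (j : ℤ) ^ 2 + Q.2.1 * (j : ℤ) + Q.2.2 →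
      ((p : ℤ) * Q.1, Q.2.1 + 2 * Q.1 * j, (Q.1 * (j : ℤ) ^ 2 + Q.2.1 * (j : ℤ) + Q.2.2) / p)
        ∈ FD Δ := by
    rintro j ⟨a, ha⟩
    have ha' : (Q.1 * (j : ℤ) ^ 2 + Q.2.1 * (j : ℤ) + Q.2.2) / (p : ℤ) = a := by
      rw [ha]; exact Int.mul_ediv_cancel_left a hp0.ne'
    refine ⟨mul_pos hp0 hA, ?_⟩
    simp only [dsc, ha']
    linear_combination hd - 4 * Q.1 * ha
  have t1 : (if (p : ℤ) ∣ Q.1 then ω (Q.1 / p, Q.2.1, p * Q.2.2) 0 else 0) = 0 := by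
    split_ifs with h
    · exact hw.zero _ (m1 h)
    · rfl
  have t2 : (if p ∣ 0 then ∑ j ∈ (Finset.range p).filter
      (fun j : ℕ => (p : ℤ) ∣ Q.1 * (j : ℤ) ^ 2 + Q.2.1 * (j : ℤ) + Q.2.2),
      ω (p * Q.1, Q.2.1 + 2 * Q.1 * j, (Q.1 * (j : ℤ) ^ 2 + Q.2.1 * (j : ℤ) + Q.2.2) / p)
        (0 / p) else 0) = 0 := by
    rw [if_pos (dvd_zero p), Nat.zero_div]
    refine Finset.sum_eq_zero fun j hj => ?_
    rw [Finset.mem_filter] at hj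
    exact hw.zero _ (m2 j hj.2)
  rw [t1, t2, add_zero]

theorem WP.wp {Δ p : ℕ} (hTPB : T_TPB) (hΔ : 0 < Δ) {ω : QF → ℕ → ℝ} (hw : WP Δ ω)
    (hp : p.Prime) : WP Δ (Wp p ω) := by
  obtain ⟨_, _, h3, h4⟩ := hTPB Δ p hΔ hp
  obtain ⟨K, c, hc, h1⟩ := hw.dec
  exact ⟨Wp_zero hΔ hw hp, h4 ω hw.inv,
    ⟨K * (p + 1), c / p, div_pos hc (by exact_mod_cast hp.pos), h3 K c ω hc h1⟩⟩

theorem FP.tp {Δ p : ℕ} (hTPB : T_TPB) (hΔ : 0 < Δ) {F : QF → ℝ} (hF : FP Δ F)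
    (hp : p.Prime) : FP Δ (Tp p F) := by
  obtain ⟨h1, h2, _, _⟩ := hTPB Δ p hΔ hp
  obtain ⟨K, k, h3⟩ := hF.gro
  exact ⟨h2 F hF.inv, ⟨_, k, h1 K k F h3⟩⟩

theorem FP.tl {Δ : ℕ} (hTPB : T_TPB) (hΔ : 0 < Δ) {F : QF → ℝ} (hF : FP Δ F) (l : List ℕ)
    (hl : ∀ p ∈ l, p.Prime) : FP Δ (TL l F) := by
  induction l with
  | nil => exact hF
  | cons p l ih =>
    exact FP.tp hTPB hΔ (ih fun q hq => hl q (List.mem_cons_of_mem _ hq))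
      (hl p List.mem_cons_self)

/-- moving a whole list of Hecke operators to the weight -/
theorem US_TL {Δ : ℕ} (hADJ : T_ADJ) (hTPB : T_TPB) (hΔ : 0 < Δ) {F : QF → ℝ} (hF : FP Δ F)
    (l : List ℕ) (hl : ∀ p ∈ l, p.Prime) : ∀ {ω : QF → ℕ → ℝ}, WP Δ ω →
    US Δ ω (TL l F) = US Δ (l.foldl (fun ω p => Wp p ω) ω) F ∧
      WP Δ (l.foldl (fun ω p => Wp p ω) ω) := by
  induction l with
  | nil => intro ω hw; exact ⟨rfl, hw⟩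
  | cons p l ih =>
    intro ω hw
    have hp := hl p List.mem_cons_self
    have hl' : ∀ q ∈ l, q.Prime := fun q hq => hl q (List.mem_cons_of_mem _ hq)
    have hF' := FP.tl hTPB hΔ hF l hl'
    obtain ⟨K, c, hc, h1⟩ := hw.dec
    obtain ⟨K', k, h2⟩ := hF'.gro
    have hm1 : ∀ Q ∈ FD Δ, ∀ e, |ω Q e| ≤ max K K' *
        Real.exp (-(c * ((e : ℝ) ^ 2 * Q.1))) := fun Q hQ e =>
      (h1 Q hQ e).trans (mul_le_mul_of_nonneg_right (le_max_left _ _) (Real.exp_pos _).le)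
    have hm2 : ∀ Q ∈ FD Δ, |TL l F Q| ≤ max K K' * (1 + (Q.1 : ℝ)) ^ k := fun Q hQ =>
      (h2 Q hQ).trans (mul_le_mul_of_nonneg_right (le_max_right _ _) (by
        have : (0 : ℝ) < Q.1 := by exact_mod_cast hQ.1
        positivity))
    have key := hADJ Δ p k (max K K') c ω (TL l F) hΔ hp hc hw.zero hw.inv hF'.inv hm1 hm2
    have := ih hl' (WP.wp hTPB hΔ hw hp)
    refine ⟨?_, this.2⟩
    show US Δ ω (Tp p (TL l F)) = _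
    rw [← key, this.1]
    rfl

end Pool.Agent.H31.CN
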