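import Pool.Agent.H31.CN.T3

/-!
# (MAI) the main term of the mollified second moment
-/

set_option autoImplicit false

open MeasureTheory Set Filter
open scoped Real

namespace Pool.Agent.H31.CN

theorem lin_add_fun (f g : ℝ × ℝ → ℝ) (r : GR) :
    lin (fun v => f v + g v) r = lin f r + lin g r := by
  have h := lin_ext (lin f + lin g) (fun v => f v + g v) (fun x y => by
    rw [LinearMap.add_apply, lin_E, lin_E]) r
  rw [← h, LinearMap.add_apply]

theorem cm_sq (P : Polynomial ℝ) (M : ℝ) (N m : ℕ) (h : ¬ Squarefree m) : cm P M N m = 0 := by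
  unfold cm mr
  rw [ArithmeticFunction.moebius_eq_zero_of_not_squarefree h]
  simp

theorem cm_big (P : Polynomial ℝ) (M : ℝ) (N m : ℕ) (h : ⌊M⌋₊ < m) : cm P M N m = 0 := by
  unfold cm
  rw [if_neg]
  rintro ⟨h1, -⟩
  exact absurd (Nat.le_floor h1) (not_le.2 h)

theorem cm_cop (P : Polynomial ℝ) (M : ℝ) (N m : ℕ) (h : ¬ Nat.Coprime m N) :
    cm P M N m = 0 := by
  unfold cm
  rw [if_neg]
  rintro ⟨-, h1⟩
  exact h h1

theorem Bd_cop (P : Polynomial ℝ) (M : ℝ) (N d : ℕ) (h : ¬ Nat.Coprime d N) :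
    Bd P M N d = 0 := by
  unfold Bd
  refine Finset.sum_eq_zero fun n _ => ?_
  rw [cm_cop _ _ _ _ (fun h' => h (Nat.Coprime.coprime_mul_right h')), zero_smul]

theorem one_le_Ef (q : ℕ) : 1 ≤ Ef q := by
  unfold Ef
  refine Finset.prod_induction _ (fun x : ℝ => 1 ≤ x)
    (fun a b ha hb => one_le_mul_of_one_le_of_one_le ha hb) le_rfl (fun p _ => ?_)
  have : (0 : ℝ) ≤ 30 / Real.sqrt p := by positivity
  linarith

theorem Ef_mul {a b : ℕ} (h : Nat.Coprime a b) : Ef (a * b) = Ef a * Ef b := by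
  unfold Ef
  rw [h.primeFactors_mul, Finset.prod_union h.disjoint_primeFactors]

theorem mr_sq {d : ℕ} (h : Squarefree d) : mr d ^ 2 = 1 := by
  unfold mr
  have := ArithmeticFunction.moebius_sq_eq_one_of_squarefree h
  exact_mod_cast this

theorem poly_bd (P : Polynomial ℝ) : ∃ K : ℝ, 0 < K ∧ ∀ t : ℝ, 0 ≤ t → t ≤ 1 → |P.eval t| ≤ K := by
  obtain ⟨C, hC⟩ := (isCompact_Icc (a := (0 : ℝ)) (b := 1)).exists_bound_of_continuousOn
    (f := fun t => P.eval t) P.continuous.continuousOn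
  refine ⟨|C| + 1, by positivity, fun t h0 h1 => ?_⟩
  have := hC t ⟨h0, h1⟩
  rw [Real.norm_eq_abs] at this
  linarith [le_abs_self C]

theorem mom_bd (r : GR) : ∃ K : ℝ, 0 < K ∧ ∀ i j : ℕ, i + j ≤ 3 → |mo i j r| ≤ K := by
  refine ⟨(∑ i ∈ Finset.range 4, ∑ j ∈ Finset.range 4, |mo i j r|) + 1, by positivity,
    fun i j h => ?_⟩
  have h1 : |mo i j r| ≤ ∑ j ∈ Finset.range 4, |mo i j r| :=
    Finset.single_le_sum (f := fun j => |mo i j r|) (fun _ _ => abs_nonneg _)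
      (Finset.mem_range.2 (by omega))
  have h2 : ∑ j ∈ Finset.range 4, |mo i j r| ≤
      ∑ i ∈ Finset.range 4, ∑ j ∈ Finset.range 4, |mo i j r| :=
    Finset.single_le_sum (f := fun i => ∑ j ∈ Finset.range 4, |mo i j r|)
      (fun _ _ => Finset.sum_nonneg fun _ _ => abs_nonneg _) (Finset.mem_range.2 (by omega))
  linarith

/-- the error function -/
noncomputable def errf (a₁ a₀ b₂ b₁ b₀ lam : ℝ) (v : ℝ × ℝ) : ℝ :=
  SS (lam - v.1) (lam - v.2) - PP a₁ a₀ b₂ b₁ b₀ (lam - v.1) (lam - v.2)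

theorem errf_bd (a₁ a₀ b₂ b₁ b₀ C : ℝ) (hC : 0 < C)
    (h : ∀ Y : ℝ, 0 ≤ Y →
    |S0 Y - (Y ^ 2 / 4 + a₁ * Y + a₀)| ≤ C * Real.exp (-(Y / 4)) ∧
    |S1 Y - (Y ^ 3 / 12 + b₂ * Y ^ 2 + b₁ * Y + b₀)| ≤ C * Real.exp (-(Y / 4)))
    (lam : ℝ) (v : ℝ × ℝ) (hv : v.2 ≤ lam) :
    |errf a₁ a₀ b₂ b₁ b₀ lam v| ≤ (C * (1 + |c0|)) * (1 + |lam| + |v.1| + |v.2|) ^ 2 *
      Real.exp (-((lam - v.2) / 4)) := by
  obtain ⟨h0, h1⟩ := h (lam - v.2) (by linarith)
  set Y := lam - v.2 with hY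
  set u := lam - v.1 with hu
  have e1 : errf a₁ a₀ b₂ b₁ b₀ lam v = (u + c0) * (S0 Y - (Y ^ 2 / 4 + a₁ * Y + a₀)) -
      (S1 Y - (Y ^ 3 / 12 + b₂ * Y ^ 2 + b₁ * Y + b₀)) := by
    unfold errf SS PP
    ring
  rw [e1]
  set W := 1 + |lam| + |v.1| + |v.2| with hW
  have hW1 : 1 ≤ W := by
    have := abs_nonneg lam
    have := abs_nonneg v.1
    have := abs_nonneg v.2
    linarith
  have hu1 : |u + c0| ≤ W - 1 + |c0| := by
    have a1 := abs_add_le u c0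
    have a2 : |u| ≤ |lam| + |v.1| := abs_sub _ _
    have := abs_nonneg v.2
    linarith
  have hE := Real.exp_pos (-(Y / 4))
  calc |(u + c0) * (S0 Y - (Y ^ 2 / 4 + a₁ * Y + a₀)) -
      (S1 Y - (Y ^ 3 / 12 + b₂ * Y ^ 2 + b₁ * Y + b₀))|
      ≤ |u + c0| * |S0 Y - (Y ^ 2 / 4 + a₁ * Y + a₀)| +
        |S1 Y - (Y ^ 3 / 12 + b₂ * Y ^ 2 + b₁ * Y + b₀)| := by
        rw [← abs_mul]
        exact abs_sub _ _
    _ ≤ (W - 1 + |c0|) * (C * Real.exp (-(Y / 4))) + C * Real.exp (-(Y / 4)) := by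
        have hn : 0 ≤ W - 1 + |c0| := by
          have := abs_nonneg c0
          linarith
        refine add_le_add (mul_le_mul hu1 h0 (abs_nonneg _) hn) h1
    _ = C * (W + |c0|) * Real.exp (-(Y / 4)) := by ring
    _ ≤ (C * (1 + |c0|)) * W ^ 2 * Real.exp (-(Y / 4)) := by
        refine mul_le_mul_of_nonneg_right ?_ hE.le
        rw [mul_assoc]
        refine mul_le_mul_of_nonneg_left ?_ hC.le
        have := abs_nonneg c0
        nlinarith [mul_nonneg this (show (0 : ℝ) ≤ W ^ 2 - 1 by nlinarith),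
          show (0 : ℝ) ≤ W * (W - 1) by nlinarith]

/-- the polynomial of the main term -/
noncomputable def FPol (P : Polynomial ℝ) (k : ℝ) : Polynomial ℝ :=
  Polynomial.C (k ^ 3 / 6) * P.derivative.derivative ^ 2 +
    Polynomial.C (k ^ 2) * (P.derivative * P.derivative.derivative) +
    Polynomial.C k * (P * P.derivative.derivative + P.derivative ^ 2) + P * P.derivative

theorem FPol_eval (P : Polynomial ℝ) (k t : ℝ) : (FPol P k).eval t =
    Fi k (P.eval t) (P.derivative.eval t) (P.derivative.derivative.eval t) := by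
  unfold FPol Fi
  simp only [Polynomial.eval_add, Polynomial.eval_mul, Polynomial.eval_pow, Polynomial.eval_C]
  ring

theorem poly_part (hCNV : T_CNV) (hQUA : T_QUA) (hBAS : T_BAS) (hETM : T_ETM) (hDSU : T_DSU)
    (hDSE : T_DSE) (hINT : T_INT) (hHQ : T_HQ) (a₁ a₀ b₂ b₁ b₀ : ℝ) (N₀ : GR)
    (P : Polynomial ℝ) (N : ℕ) (κ L₀ : ℝ) (hP : Polynomial.X ^ 5 ∣ P) (hN1 : 1 ≤ N)
    (hN2 : 2 ∣ N) (hN : Squarefree N) :
    ∃ C : ℝ, 0 < C ∧ ∀ M lam : ℝ, 2 ≤ M → |lam - κ * Real.log M| ≤ L₀ →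
      |lin (fun v => PP a₁ a₀ b₂ b₁ b₀ (lam - v.1) (lam - v.2))
        (N₀ * ∑ m₁ ∈ Finset.Icc 1 ⌊M⌋₊, ∑ m₂ ∈ Finset.Icc 1 ⌊M⌋₊,
          (cm P M N m₁ * cm P M N m₂) • ka m₁ m₂) -
        mo 0 0 N₀ * Sg N * (1 / 2) * Mt P κ| ≤ C / Real.log M := by
  obtain ⟨CB, hCB, hB⟩ := hBAS P N hP hN1 hN2 hN
  obtain ⟨CE, hCE, hE⟩ := hETM
  obtain ⟨CH, hCH, hH⟩ := hHQ
  obtain ⟨CD, hCD, hD⟩ := hDSU N (FPol P κ) hN1 hN2 hN
  obtain ⟨CS, hCS, hS⟩ := hDSE
  obtain ⟨K0, hK0, hk0⟩ := poly_bd P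
  obtain ⟨K1, hK1, hk1⟩ := poly_bd P.derivative
  obtain ⟨K2, hK2, hk2⟩ := poly_bd P.derivative.derivative
  obtain ⟨KN, hKN, hkN⟩ := mom_bd N₀
  set K : ℝ := K0 + K1 + K2 + KN + CB + CE + CH * Ef N + |L₀| + 1 with hK
  have hEN := one_le_Ef N
  have hCHE : 0 < CH * Ef N := by positivity
  have hL := abs_nonneg L₀
  have hKpos : 0 < K := by linarith
  obtain ⟨CQ, hCQ, hQ⟩ := hQUA a₁ a₀ b₂ b₁ b₀ κ K hKpos
  refine ⟨CQ * CS + |mo 0 0 N₀| * CD + 1, by positivity, fun M lam hM hlam => ?_⟩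
  have hM0 : 0 < M := by linarith
  have hlog : 1 / 2 ≤ Real.log M := by
    have h2 : Real.log 2 ≤ Real.log M := Real.log_le_log (by norm_num) hM
    linarith [Real.log_two_gt_d9]
  have hlpos : 0 < Real.log M := by linarith
  have hc := hCNV (cm P M N) ⌊M⌋₊ (fun m hm => cm_sq P M N m hm) (fun m hm => cm_big P M N m hm)
  rw [hc]
  -- restrict to `d` coprime to `N`
  have hsub : ∑ d ∈ (Finset.Icc 1 ⌊M⌋₊).filter (fun d => Squarefree d),
      (∏ p ∈ d.primeFactors, et p) *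
        (∑ n ∈ (Finset.Icc 1 ⌊M⌋₊).filter (fun n => Nat.Coprime n d),
          cm P M N (d * n) • ∏ p ∈ n.primeFactors, al p) ^ 2 =
      ∑ d ∈ (Finset.Icc 1 ⌊M⌋₊).filter (fun d => Squarefree d ∧ Nat.Coprime d N),
        (∏ p ∈ d.primeFactors, et p) * Bd P M N d ^ 2 := by
    symm
    refine Finset.sum_subset (fun d hd => ?_) (fun d hd hd' => ?_)
    · rw [Finset.mem_filter] at hd ⊢
      exact ⟨hd.1, hd.2.1⟩
    · rw [Finset.mem_filter] at hd hd'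
      have : ¬ Nat.Coprime d N := fun h => hd' ⟨hd.1, hd.2, h⟩
      rw [Bd_cop P M N d this]
      simp
  rw [hsub, Finset.mul_sum, map_sum]
  set s := (Finset.Icc 1 ⌊M⌋₊).filter (fun d => Squarefree d ∧ Nat.Coprime d N) with hs
  -- each term
  have hterm : ∀ d ∈ s, |lin (fun v => PP a₁ a₀ b₂ b₁ b₀ (lam - v.1) (lam - v.2))
        (N₀ * ((∏ p ∈ d.primeFactors, et p) * Bd P M N d ^ 2)) -
      mo 0 0 N₀ * gd d * Hq (d * N) ^ 2 * Real.log M ^ (-1 : ℤ) *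
        (FPol P κ).eval (Real.log (M / d) / Real.log M)| ≤
      CQ * (Ef d ^ 2) ^ 2 / d * Real.log M ^ (-2 : ℤ) := by
    intro d hd
    rw [hs, Finset.mem_filter, Finset.mem_Icc] at hd
    obtain ⟨⟨hd1, hdM⟩, hdsq, hdN⟩ := hd
    have hdM' : (d : ℝ) ≤ M := (Nat.cast_le.2 hdM).trans (Nat.floor_le hM0.le)
    have hd0 : (0 : ℝ) < d := by exact_mod_cast hd1
    have hEd := one_le_Ef d
    have ht0 : 0 ≤ Real.log (M / d) / Real.log M :=
      div_nonneg (Real.log_nonneg (by rw [le_div_iff₀ hd0]; linarith)) hlpos.le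
    have ht1 : Real.log (M / d) / Real.log M ≤ 1 := by
      rw [div_le_one hlpos]
      refine Real.log_le_log (by positivity) (div_le_self hM0.le (by exact_mod_cast hd1))
    rw [FPol_eval]
    have hq1 : 1 ≤ d * N := Nat.mul_pos hd1 hN1
    obtain ⟨hHp, hHb, -, -⟩ := hH (d * N) hq1 (hN2.mul_left d)
    refine hQ N₀ (∏ p ∈ d.primeFactors, et p) (Bd P M N d) (Real.log M) lam (gd d) d
      (Hq (d * N)) (Ef d ^ 2) (mr d) _ _ _ hlog ?_ (by exact_mod_cast hd1) ?_ (mr_sq hdsq) ?_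
      ?_ ?_ ?_ ?_ (hE d hdsq).1 ?_
    · exact hlam.trans ((le_abs_self L₀).trans (by linarith))
    · nlinarith
    · rw [abs_of_pos hHp]
      refine hHb.trans ?_
      rw [Ef_mul hdN]
      calc CH * (Ef d * Ef N) = (CH * Ef N) * Ef d := by ring
        _ ≤ K * Ef d ^ 2 := by
          refine mul_le_mul (by linarith) (by nlinarith) (by linarith) hKpos.le
    · exact (hk0 _ ht0 ht1).trans (by linarith)
    · exact (hk1 _ ht0 ht1).trans (by linarith)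
    · exact (hk2 _ ht0 ht1).trans (by linarith)
    · intro i j hij
      refine ⟨(hkN i j hij).trans (by linarith), ((hE d hdsq).2 i j hij).trans ?_⟩
      exact div_le_div_of_nonneg_right (by linarith) hd0.le
    · intro i j hij
      have h := hB M d i j hM hd1 hdM' hdsq hdN hij
      unfold Mf at h
      refine h.trans ?_
      refine mul_le_mul_of_nonneg_right ?_ (by positivity)
      exact mul_le_mul_of_nonneg_right (by linarith) (by positivity)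
  -- the sum of the errors
  have herr : |∑ d ∈ s, lin (fun v => PP a₁ a₀ b₂ b₁ b₀ (lam - v.1) (lam - v.2))
        (N₀ * ((∏ p ∈ d.primeFactors, et p) * Bd P M N d ^ 2)) -
      mo 0 0 N₀ * Real.log M ^ (-1 : ℤ) * ∑ d ∈ s, gd d * Hq (d * N) ^ 2 *
        (FPol P κ).eval (Real.log (M / d) / Real.log M)| ≤ CQ * CS / Real.log M := by
    rw [Finset.mul_sum, ← Finset.sum_sub_distrib]
    refine (Finset.abs_sum_le_sum_abs _ _).trans ?_
    calc ∑ d ∈ s, |lin (fun v => PP a₁ a₀ b₂ b₁ b₀ (lam - v.1) (lam - v.2))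
          (N₀ * ((∏ p ∈ d.primeFactors, et p) * Bd P M N d ^ 2)) -
          mo 0 0 N₀ * Real.log M ^ (-1 : ℤ) * (gd d * Hq (d * N) ^ 2 *
        (FPol P κ).eval (Real.log (M / d) / Real.log M))|
        ≤ ∑ d ∈ s, CQ * (Ef d ^ 2) ^ 2 / d * Real.log M ^ (-2 : ℤ) := by
          refine Finset.sum_le_sum fun d hd => ?_
          have h := hterm d hd
          refine (le_of_eq ?_).trans h
          congr 1
          ring
      _ ≤ ∑ d ∈ (Finset.Icc 1 ⌊M⌋₊).filter (fun d => Squarefree d),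
            CQ * Real.log M ^ (-2 : ℤ) * (Ef d ^ 8 / d) := by
          refine (Finset.sum_le_sum (g := fun d =>
            CQ * Real.log M ^ (-2 : ℤ) * (Ef d ^ 8 / (d : ℝ))) fun d _ => ?_).trans
            (Finset.sum_le_sum_of_subset_of_nonneg (fun d hd => ?_) fun d _ _ => ?_)
          · have hEd := one_le_Ef d
            have h48 : (Ef d ^ 2) ^ 2 ≤ Ef d ^ 8 := by
              rw [← pow_mul]
              exact pow_le_pow_right₀ hEd (by norm_num)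
            have : CQ * (Ef d ^ 2) ^ 2 / (d : ℝ) * Real.log M ^ (-2 : ℤ) =
                CQ * Real.log M ^ (-2 : ℤ) * ((Ef d ^ 2) ^ 2 / d) := by ring
            rw [this]
            refine mul_le_mul_of_nonneg_left ?_ (by positivity)
            exact div_le_div_of_nonneg_right h48 (by positivity)
          · rw [hs, Finset.mem_filter] at hd
            rw [Finset.mem_filter]
            exact ⟨hd.1, hd.2.1⟩
          · have hEd := one_le_Ef d
            positivity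
      _ = CQ * Real.log M ^ (-2 : ℤ) *
          ∑ d ∈ (Finset.Icc 1 ⌊M⌋₊).filter (fun d => Squarefree d), Ef d ^ 8 / d := by
          rw [Finset.mul_sum]
      _ ≤ CQ * Real.log M ^ (-2 : ℤ) * (CS * Real.log M) :=
          mul_le_mul_of_nonneg_left (hS M hM) (by positivity)
      _ = CQ * CS / Real.log M := by
          rw [zpow_neg, show ((2 : ℤ)) = ((2 : ℕ) : ℤ) from rfl, zpow_natCast]
          field_simp
  -- the main term
  have hmain := hD M hM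
  rw [← hs] at hmain
  have hX2 : Polynomial.X ^ 2 ∣ P := (pow_dvd_pow _ (by norm_num)).trans hP
  have hint : ∫ t in (0 : ℝ)..1, (FPol P κ).eval t = 1 / 2 * Mt P κ := by
    simp_rw [FPol_eval]
    rw [hINT P κ hX2]
    rfl
  rw [hint] at hmain
  set T1 := ∑ d ∈ s, lin (fun v => PP a₁ a₀ b₂ b₁ b₀ (lam - v.1) (lam - v.2))
        (N₀ * ((∏ p ∈ d.primeFactors, et p) * Bd P M N d ^ 2)) with hT1
  set T2 := ∑ d ∈ s, gd d * Hq (d * N) ^ 2 *
        (FPol P κ).eval (Real.log (M / d) / Real.log M) with hT2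
  have hl1 : Real.log M ^ (-1 : ℤ) = (Real.log M)⁻¹ := zpow_neg_one _
  rw [hl1] at herr
  have h5 : |mo 0 0 N₀ * (Real.log M)⁻¹ * T2 - mo 0 0 N₀ * Sg N * (1 / 2) * Mt P κ| ≤
      |mo 0 0 N₀| * CD / Real.log M := by
    have e : mo 0 0 N₀ * (Real.log M)⁻¹ * T2 - mo 0 0 N₀ * Sg N * (1 / 2) * Mt P κ =
        mo 0 0 N₀ * (Real.log M)⁻¹ * (T2 - Sg N * Real.log M * (1 / 2 * Mt P κ)) := by
      field_simp
    rw [e, abs_mul, abs_mul, abs_of_pos (inv_pos.2 hlpos), div_eq_mul_inv]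
    calc |mo 0 0 N₀| * (Real.log M)⁻¹ * |T2 - Sg N * Real.log M * (1 / 2 * Mt P κ)|
        ≤ |mo 0 0 N₀| * (Real.log M)⁻¹ * CD :=
          mul_le_mul_of_nonneg_left hmain (by positivity)
      _ = _ := by ring
  calc |T1 - mo 0 0 N₀ * Sg N * (1 / 2) * Mt P κ|
      ≤ |T1 - mo 0 0 N₀ * (Real.log M)⁻¹ * T2| +
        |mo 0 0 N₀ * (Real.log M)⁻¹ * T2 - mo 0 0 N₀ * Sg N * (1 / 2) * Mt P κ| :=
        abs_sub_le _ _ _
    _ ≤ CQ * CS / Real.log M + |mo 0 0 N₀| * CD / Real.log M := add_le_add herr h5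
    _ ≤ (CQ * CS + |mo 0 0 N₀| * CD + 1) / Real.log M := by
        rw [← add_div]
        exact div_le_div_of_nonneg_right (by linarith) hlpos.le

theorem pf_MAI (hSSA : T_SSA) (hCNV : T_CNV) (hQUA : T_QUA) (hBAS : T_BAS) (hETM : T_ETM)
    (hDSU : T_DSU) (hDSE : T_DSE) (hINT : T_INT) (hPER : T_PER) (hHQ : T_HQ) : T_MAI := by
  intro N₀ P N θ L₀ ε hP hN1 hN2 hN hθ hθ' hε
  obtain ⟨-, a₁, a₀, b₂, b₁, b₀, C, hC, hS⟩ := hSSA
  obtain ⟨X₁, hX₁⟩ := hPER N₀ P N θ L₀ (C * (1 + |c0|)) (ε / 2)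
    (fun lam v => errf a₁ a₀ b₂ b₁ b₀ lam v) hθ hθ' (by positivity)
    (fun lam v hv => errf_bd a₁ a₀ b₂ b₁ b₀ C hC hS lam v hv)
  obtain ⟨C', hC', hmain⟩ := poly_part hCNV hQUA hBAS hETM hDSU hDSE hINT hHQ a₁ a₀ b₂ b₁ b₀
    N₀ P N (1 / (2 * θ)) L₀ hP hN1 hN2 hN
  set Y : ℝ := max (Real.log 2) (2 * C' / ε) / θ with hY
  refine ⟨max X₁ (Real.exp Y), fun X lam hX hlam => ?_⟩
  have hX1 : X₁ ≤ X := (le_max_left _ _).trans hX
  have hX2 : Real.exp Y ≤ X := (le_max_right _ _).trans hX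
  have hX0 : 0 < X := (Real.exp_pos _).trans_le hX2
  have hlX : Y ≤ Real.log X := (Real.le_log_iff_exp_le hX0).2 hX2
  have hlM : Real.log (X ^ θ) = θ * Real.log X := Real.log_rpow hX0 θ
  have hlM' : max (Real.log 2) (2 * C' / ε) ≤ Real.log (X ^ θ) := by
    rw [hlM]
    rw [hY, div_le_iff₀ hθ] at hlX
    linarith
  have hM0 : 0 < X ^ θ := Real.rpow_pos_of_pos hX0 θ
  have hM2 : 2 ≤ X ^ θ := by
    have h := (le_max_left _ _).trans hlM'
    exact (Real.log_le_log_iff (by norm_num) hM0).1 h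
  have hM3 : 2 * C' / ε ≤ Real.log (X ^ θ) := (le_max_right _ _).trans hlM'
  have hlpos : 0 < Real.log (X ^ θ) := (Real.log_pos (by norm_num)).trans_le
    ((le_max_left _ _).trans hlM')
  have h1 := hX₁ X lam hX1 hlam
  have h2 := hmain (X ^ θ) lam hM2 (by
    rw [hlM]
    have : 1 / (2 * θ) * (θ * Real.log X) = 1 / 2 * Real.log X := by field_simp
    rw [this]
    exact hlam)
  have h3 : C' / Real.log (X ^ θ) ≤ ε / 2 := by
    rw [div_le_iff₀ hε] at hM3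
    rw [div_le_iff₀ hlpos]
    linarith
  have h4 : ∀ r : GR, Ph lam r = lin (fun v => PP a₁ a₀ b₂ b₁ b₀ (lam - v.1) (lam - v.2)) r +
      lin (fun v => errf a₁ a₀ b₂ b₁ b₀ lam v) r := by
    intro r
    rw [← lin_add_fun]
    unfold Ph
    congr 1
    congr 1
    funext v
    unfold errf
    ring
  rw [h4]
  set r := N₀ * ∑ m₁ ∈ Finset.Icc 1 ⌊X ^ θ⌋₊, ∑ m₂ ∈ Finset.Icc 1 ⌊X ^ θ⌋₊,
        (cm P (X ^ θ) N m₁ * cm P (X ^ θ) N m₂) • ka m₁ m₂ with hr
  have e : lin (fun v => PP a₁ a₀ b₂ b₁ b₀ (lam - v.1) (lam - v.2)) r +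
      lin (fun v => errf a₁ a₀ b₂ b₁ b₀ lam v) r -
      mo 0 0 N₀ * Sg N * (1 / 2) * Mt P (1 / (2 * θ)) =
      (lin (fun v => PP a₁ a₀ b₂ b₁ b₀ (lam - v.1) (lam - v.2)) r -
      mo 0 0 N₀ * Sg N * (1 / 2) * Mt P (1 / (2 * θ))) +
      lin (fun v => errf a₁ a₀ b₂ b₁ b₀ lam v) r := by ring
  rw [e]
  refine (abs_add_le _ _).trans ?_
  linarith

end Pool.Agent.H31.CN
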