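import Pool.Agent.H31.CN.Defs

/-!
# Targets, part 2: theta functions, the Epstein zeta function, sums over the middle coefficient
-/

set_option autoImplicit false

open MeasureTheory Set Filter
open scoped Real Matrix MatrixGroups

namespace Pool.Agent.H31.CN

/-- (THE) the functional equation of the binary theta function. -/
def T_THE : Prop :=
  ∀ A B Δ t : ℝ, 0 < A → 0 < Δ → 0 < t →
    Summable (fun v : ℤ × ℤ => Real.exp (-(2 * π * t * (qd A B Δ v / Real.sqrt Δ)))) ∧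
    Th A B Δ t⁻¹ = t * Th A B Δ t

/-- (QDV) the real form: elementary facts. -/
def T_QDV : Prop :=
  (∀ (A B Δ : ℝ) (v : ℤ × ℤ), 0 < A → 0 < Δ → 0 ≤ qd A B Δ v ∧ (v ≠ 0 → 0 < qd A B Δ v)) ∧
  (∀ (Q : QF) (v : ℤ × ℤ), 0 < Q.1 → qd Q.1 Q.2.1 (dsc Q) v = val Q v) ∧
  (∀ (A B Δ : ℝ) (v : ℤ × ℤ), 0 < A →
    qd A (B + 2 * A) Δ v = qd A B Δ (v.1 + v.2, v.2)) ∧
  (∀ A B Δ : ℝ, 0 < A → zf A (B + 2 * A) Δ = zf A B Δ) ∧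
  (∀ (Q : QF) (g : Matrix.SpecialLinearGroup (Fin 2) ℤ), 0 < Q.1 → 0 < dsc Q →
    zq (act Q g) = zq Q)

/-- (ZTH) the central value in terms of the theta function. -/
def T_ZTH : Prop :=
  ∀ A B Δ : ℝ, 0 < A → 0 < Δ →
    Summable (fun v : ℤ × ℤ => Vk (qd A B Δ v / Real.sqrt Δ) / Real.sqrt (qd A B Δ v)) ∧
    IntegrableOn (fun t : ℝ => (Th A B Δ t - 1) * t ^ (-(1 / 2) : ℝ)) (Ioi 1) ∧
    zf A B Δ = Real.sqrt 2 * Δ ^ (-(1 / 4) : ℝ) *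
      ((∫ t in Ioi (1 : ℝ), (Th A B Δ t - 1) * t ^ (-(1 / 2) : ℝ)) - 2)

/-- (EPS) the Epstein zeta function of a binary form. -/
def T_EPS : Prop :=
  ∀ A B Δ : ℝ, 0 < A → 0 < Δ → ∃ F : ℂ → ℂ, DifferentiableOn ℂ F {1}ᶜ ∧
    (∀ s : ℂ, 1 < s.re → HasSum (fun v : ℤ × ℤ => if v = 0 then 0 else
      ((qd A B Δ v : ℝ) : ℂ) ^ (-s)) (2 * F s)) ∧
    F (1 / 2) = ((zf A B Δ : ℝ) : ℂ)

/-- (THA) the average of the theta function over the middle coefficient. -/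
def T_THA : Prop :=
  ∀ (A Δ t β : ℝ) (D : ℕ), 0 < A → 0 < Δ → 0 < t → 1 ≤ D →
    Summable (fun x : ℕ × ℕ => if 1 ≤ x.1 ∧ 1 ≤ x.2 ∧ D ∣ x.1 * x.2 then
      Real.exp (-(π * ((x.1 : ℝ) ^ 2 * (Real.sqrt Δ / (2 * t * A)) +
        (x.2 : ℝ) ^ 2 * (t * Real.sqrt Δ / (2 * A))))) else 0) ∧
    |(1 / (D : ℝ)) * ∑ k ∈ Finset.range D, Th A (2 * A * (β + k / D)) Δ t -
      (th1 (2 * t * A / Real.sqrt Δ) + Real.sqrt (Real.sqrt Δ / (2 * t * A)) *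
        (th1 (t * Real.sqrt Δ / (2 * A)) - 1))| ≤
      Real.sqrt (Real.sqrt Δ / (2 * t * A)) * 4 *
        ∑' x : ℕ × ℕ, if 1 ≤ x.1 ∧ 1 ≤ x.2 ∧ D ∣ x.1 * x.2 then
          Real.exp (-(π * ((x.1 : ℝ) ^ 2 * (Real.sqrt Δ / (2 * t * A)) +
            (x.2 : ℝ) ^ 2 * (t * Real.sqrt Δ / (2 * A))))) else 0

/-- (TH1) the theta constant. -/
def T_TH1 : Prop :=
  (∀ u : ℝ, 0 < u → Summable (fun n : ℤ => Real.exp (-(π * (n : ℝ) ^ 2 * u))) ∧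
    th1 u⁻¹ = Real.sqrt u * th1 u) ∧
  ContinuousOn th1 (Ioi 0) ∧
  (∀ u : ℝ, 1 / 2 ≤ u → 0 ≤ th1 u - 1 ∧ th1 u - 1 ≤ 4 * Real.exp (-(π * u))) ∧
  (∀ u : ℝ, 0 < u → 0 ≤ th1 u - 1 ∧ th1 u - 1 ≤ 4 * (1 + 1 / Real.sqrt u) *
    Real.exp (-(π * u)))

/-- (CTI) the constant term. -/
def T_CTI : Prop :=
  ∀ A Δ : ℝ, 0 < A → 0 < Δ →
    IntegrableOn (fun t : ℝ => (th1 (2 * t * A / Real.sqrt Δ) +
      Real.sqrt (Real.sqrt Δ / (2 * t * A)) * (th1 (t * Real.sqrt Δ / (2 * A)) - 1) - 1) *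
        t ^ (-(1 / 2) : ℝ)) (Ioi 1) ∧
    Real.sqrt 2 * Δ ^ (-(1 / 4) : ℝ) *
      ((∫ t in Ioi (1 : ℝ), (th1 (2 * t * A / Real.sqrt Δ) +
        Real.sqrt (Real.sqrt Δ / (2 * t * A)) * (th1 (t * Real.sqrt Δ / (2 * A)) - 1) - 1) *
          t ^ (-(1 / 2) : ℝ)) - 2) = ct A Δ

/-- (BAV) the average of the central value over the middle coefficient. -/
def T_BAV : Prop :=
  ∃ C : ℝ, 0 < C ∧ ∀ (A Δ β : ℝ) (D : ℕ), 1 ≤ A → 1 ≤ Δ → 1 ≤ D →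
    |(1 / (D : ℝ)) * ∑ k ∈ Finset.range D, zf A (2 * A * (β + k / D)) Δ - ct A Δ| ≤
      C * (A + Δ) ^ 3 * Real.exp (-(Real.sqrt Δ * D / A))

/-- (BSU) sums over the middle coefficient with a periodic weight. -/
def T_BSU : Prop :=
  ∃ C : ℝ, 0 < C ∧ ∀ (A h : ℕ) (Δ M : ℝ) (f : ℤ → ℝ), 1 ≤ A → 1 ≤ h → 1 ≤ Δ →
    (∀ B, f (B + 2 * A) = f B) → (∀ B, f (B + h) = f B) → (∀ B, |f B| ≤ M) →
    |∑ B ∈ Finset.range (2 * A), f B * zf A B Δ - ct A Δ * ∑ B ∈ Finset.range (2 * A), f B| ≤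
      C * M * ((A : ℝ) + Δ) ^ 4 * Real.exp (-(Real.sqrt Δ / h))

/-- the sector in which everything is holomorphic -/
def Sec : Set ℂ := {w : ℂ | |w.im| < w.re}

/-- (HZ) the central value as a holomorphic function of the discriminant. -/
def T_HZ : Prop :=
  ∃ (C : ℝ) (k : ℕ), 0 < C ∧ ∀ A B X : ℝ, 1 ≤ A → 1 ≤ X → ∃ f : ℂ → ℂ,
    DifferentiableOn ℂ f Sec ∧ (∀ u : ℝ, 0 < u → f u = ((zf A B (X * u) : ℝ) : ℂ)) ∧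
    ∀ w ∈ Sec, ‖f w‖ ≤ C * (A + X) ^ k * (‖w‖ + ‖w‖⁻¹) ^ k

/-- (HV) the cut-off function as a holomorphic function of the discriminant. -/
def T_HV : Prop :=
  ∃ C : ℝ, 0 < C ∧ ∀ x : ℝ, 0 < x → ∃ f : ℂ → ℂ,
    DifferentiableOn ℂ f Sec ∧ (∀ u : ℝ, 0 < u → f u = ((Vk (x / Real.sqrt u) : ℝ) : ℂ)) ∧
    ∀ w ∈ Sec, ‖f w‖ ≤ C * Real.exp (-(5 * x / Real.sqrt ‖w‖))

/-- (DER) derivatives with respect to the discriminant. -/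
def T_DER : Prop :=
  ∀ (G : ℝ → ℝ) (η : ℝ), 0 < η → ContDiff ℝ (⊤ : ℕ∞) G → (∀ u, u ∉ Icc η 1 → G u = 0) →
    ∃ b : ℕ, ∀ k : ℕ, ∃ C : ℝ, 0 < C ∧ ∀ A B X x : ℝ, 1 ≤ A → 1 ≤ X → 0 < x →
      ContDiff ℝ k (fun u : ℝ => G u * Vk (x / Real.sqrt (X * u)) * zf A B (X * u)) ∧
      ∀ u : ℝ, |iteratedDeriv k (fun u : ℝ => G u * Vk (x / Real.sqrt (X * u)) *
        zf A B (X * u)) u| ≤ C * (A + X) ^ b * Real.exp (-(4 * x / Real.sqrt X))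

/-- (EMC) sums of smooth functions over arithmetic progressions. -/
def T_EMC : Prop :=
  ∀ k : ℕ, 2 ≤ k → ∃ C : ℝ, 0 < C ∧ ∀ (φ : ℝ → ℝ) (a b L h β : ℝ), a ≤ b → 0 < h → 0 ≤ L →
    ContDiff ℝ k φ → (∀ x, x ∉ Icc a b → φ x = 0) → (∀ x, |iteratedDeriv k φ x| ≤ L) →
    |∑' j : ℤ, φ (h * j + β) - (1 / h) * ∫ x, φ x| ≤ C * h ^ (k - 1 : ℕ) * (b - a) * L

/-- (LC) the average of the local weights over the last coefficient: for `w` periodic in the last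
coefficient modulo `q`, `m₁`, `m₂` squarefree and prime to `q`. -/
def T_LC : Prop :=
  ∀ (q m₁ m₂ A e : ℕ) (B : ℤ) (w : ℤ → ℝ), 1 ≤ q → 1 ≤ A → 1 ≤ e → Squarefree m₁ →
    Squarefree m₂ → Nat.Coprime q m₁ → Nat.Coprime q m₂ → (∀ C, w (C + q) = w C) →
    (∀ C, w (C + q * e) * Nw m₁ m₂ A B (C + q * e) e = w C * Nw m₁ m₂ A B C e) ∧
    (1 / ((q : ℝ) * e)) * ∑ C ∈ Finset.range (q * e), w C * Nw m₁ m₂ A B C e =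
      (1 / (q : ℝ)) * (∑ C ∈ Finset.range q, w C) *
      ∏ p ∈ (m₁ * m₂).primeFactors,
        (if p ∣ m₁ ∧ p ∣ m₂ then
          ((if p ^ 2 ∣ A then 1 else 0) +
            (if p ∣ A ∧ p ∣ e then (nrt p ((A / p : ℕ) : ℤ) B 0 : ℝ) else 0) +
            (if p ∣ e then 1 else 0) + (if p ^ 2 ∣ e then 1 else 0) : ℝ)
        else ((if p ∣ A then 1 else 0) + (if p ∣ e then 1 else 0) : ℝ))

/-- the averaged local weight of a pair of squarefree numbers -/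
noncomputable def Nb (m₁ m₂ A e : ℕ) : ℝ :=
  ∏ p ∈ (m₁ * m₂).primeFactors,
    (if p ∣ m₁ ∧ p ∣ m₂ then
      ((if p ^ 2 ∣ A then 1 else 0) +
        (if p ∣ A ∧ p ∣ e then 2 - 1 / (p : ℝ) else 0) +
        (if p ∣ e then 1 else 0) + (if p ^ 2 ∣ e then 1 else 0) : ℝ)
    else ((if p ∣ A then 1 else 0) + (if p ∣ e then 1 else 0) : ℝ))

/-- (LB) the average of the local weights over the middle coefficient. -/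
def T_LB : Prop :=
  ∀ (q m₁ m₂ A e : ℕ) (w : ℤ → ℝ), 1 ≤ q → 1 ≤ A → 1 ≤ e → Squarefree m₁ →
    Squarefree m₂ → Nat.Coprime q m₁ → Nat.Coprime q m₂ → (∀ B, w (B + q) = w B) →
    (∀ B, w (B + 2 * A) = w B) →
    ∀ f : ℤ → ℝ, (∀ B, f B = w B * ∏ p ∈ (m₁ * m₂).primeFactors,
        (if p ∣ m₁ ∧ p ∣ m₂ then
          ((if p ^ 2 ∣ A then 1 else 0) +
            (if p ∣ A ∧ p ∣ e then (nrt p ((A / p : ℕ) : ℤ) B 0 : ℝ) else 0) +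
            (if p ∣ e then 1 else 0) + (if p ^ 2 ∣ e then 1 else 0) : ℝ)
        else ((if p ∣ A then 1 else 0) + (if p ∣ e then 1 else 0) : ℝ))) →
    (∀ B, f (B + 2 * A) = f B) ∧ (∀ B, f (B + (q * Nat.gcd m₁ m₂ : ℕ)) = f B) ∧
    (1 / (2 * (A : ℝ))) * ∑ B ∈ Finset.range (2 * A), f B =
      (1 / (q : ℝ)) * (∑ B ∈ Finset.range q, w B) * Nb m₁ m₂ A e

/-- the data of a weight: periodic modulo `q` in the last two coefficients, invariant under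
the translation, bounded -/
structure WD (q : ℕ) (K : ℝ) (w : ℕ → ℕ → ℤ → ℤ → ℝ) : Prop where
  perB : ∀ e A B C, w e A (B + q) C = w e A B C
  perC : ∀ e A B C, w e A B (C + q) = w e A B C
  inv : ∀ e A B C, w e A (B + 2 * A) (A + B + C) = w e A B C
  bd : ∀ e A B C, |w e A B C| ≤ K

/-- the mean of the weight -/
noncomputable def wbar (q : ℕ) (w : ℕ → ℕ → ℤ → ℤ → ℝ) (e A : ℕ) : ℝ :=
  (1 / (q : ℝ) ^ 2) * ∑ B ∈ Finset.range q, ∑ C ∈ Finset.range q, w e A B C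

/-- the term for fixed `e`, `A` of the sum over all discriminants -/
noncomputable def Inn (G : ℝ → ℝ) (X : ℝ) (n m₁ m₂ : ℕ) (w : ℕ → ℕ → ℤ → ℤ → ℝ) (e A : ℕ) : ℝ :=
  ∑' Δ : ℕ, G (Δ / X) * ∑ B ∈ (Finset.range (2 * A)).filter (fun B => 4 * A ∣ B ^ 2 + Δ),
    Vk ((e : ℝ) ^ 2 * A / ((n : ℝ) * m₁ * m₂ * Real.sqrt Δ)) / Real.sqrt ((e : ℝ) ^ 2 * A) *
      w e A B (((B ^ 2 + Δ) / (4 * A) : ℕ) : ℤ) *
      Nw m₁ m₂ A B (((B ^ 2 + Δ) / (4 * A) : ℕ) : ℤ) e * zf A B Δ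

/-- the main term for fixed `e`, `A` -/
noncomputable def Mai (G : ℝ → ℝ) (X : ℝ) (q n m₁ m₂ : ℕ) (w : ℕ → ℕ → ℤ → ℤ → ℝ)
    (e A : ℕ) : ℝ :=
  (1 / 2) * wbar q w e A * Nb m₁ m₂ A e *
    ∫ Δ in Ioi (0 : ℝ), G (Δ / X) *
      (Vk ((e : ℝ) ^ 2 * A / ((n : ℝ) * m₁ * m₂ * Real.sqrt Δ)) / Real.sqrt ((e : ℝ) ^ 2 * A)) *
        ct A Δ

/-- (INN) the sum over the discriminants for fixed `e`, `A` in the main range. -/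
def T_INN : Prop :=
  ∀ (G : ℝ → ℝ) (η : ℝ), 0 < η → ContDiff ℝ (⊤ : ℕ∞) G → (∀ u, u ∉ Icc η 1 → G u = 0) →
  ∀ (q n : ℕ) (K δ : ℝ), 1 ≤ q → 1 ≤ n → 0 < δ → δ ≤ 1 / 100 →
    ∃ X₀ : ℝ, ∀ X, X₀ ≤ X → ∀ (m₁ m₂ : ℕ) (w : ℕ → ℕ → ℤ → ℤ → ℝ) (e A : ℕ), WD q K w →
      Squarefree m₁ → Squarefree m₂ → Nat.Coprime q m₁ → Nat.Coprime q m₂ →
      (m₁ : ℝ) ≤ X ^ (1 / 4 - δ) → (m₂ : ℝ) ≤ X ^ (1 / 4 - δ) → 1 ≤ e → 1 ≤ A →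
      (e : ℝ) ^ 2 * A ≤ n * m₁ * m₂ * X ^ (1 / 2 + δ / 2) →
      |Inn G X n m₁ m₂ w e A - Mai G X q n m₁ m₂ w e A| ≤ X ^ (-10 : ℝ)

/-- (TAI) the terms outside the main range. -/
def T_TAI : Prop :=
  ∀ (G : ℝ → ℝ) (η : ℝ), 0 < η → ContDiff ℝ (⊤ : ℕ∞) G → (∀ u, u ∉ Icc η 1 → G u = 0) →
  ∀ (q n : ℕ) (K : ℝ), 1 ≤ q → 1 ≤ n →
    ∃ (C : ℝ) (b : ℕ), 0 < C ∧ ∀ X, 1 ≤ X → ∀ (m₁ m₂ : ℕ) (w : ℕ → ℕ → ℤ → ℤ → ℝ) (e A : ℕ),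
      WD q K w → Squarefree m₁ → Squarefree m₂ → 1 ≤ e → 1 ≤ A →
      (m₁ : ℝ) ≤ X → (m₂ : ℝ) ≤ X →
      |Inn G X n m₁ m₂ w e A| + |Mai G X q n m₁ m₂ w e A| ≤
        C * (X + e + A) ^ b * Real.exp (-((e : ℝ) ^ 2 * A / (n * m₁ * m₂ * Real.sqrt X)))

/-- the main term for fixed discriminant -/
noncomputable def Mn (q n m₁ m₂ : ℕ) (w : ℕ → ℕ → ℤ → ℤ → ℝ) (Δ : ℝ) : ℝ :=
  ∑' x : ℕ × ℕ, Vk ((x.1 : ℝ) ^ 2 * x.2 / ((n : ℝ) * m₁ * m₂ * Real.sqrt Δ)) /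
    Real.sqrt ((x.1 : ℝ) ^ 2 * x.2) * wbar q w x.1 x.2 * Nb m₁ m₂ x.2 x.1 * ct x.2 Δ

/-- (AVG) the average of the unfolded second moment over the discriminant. -/
def T_AVG : Prop :=
  ∀ (G : ℝ → ℝ) (η : ℝ), 0 < η → ContDiff ℝ (⊤ : ℕ∞) G → (∀ u, u ∉ Icc η 1 → G u = 0) →
  ∀ (q n : ℕ) (K δ : ℝ), 1 ≤ q → 1 ≤ n → 0 < δ → δ ≤ 1 / 100 →
    ∃ X₀ : ℝ, ∀ X, X₀ ≤ X → ∀ (m₁ m₂ : ℕ) (w : ℕ → ℕ → ℤ → ℤ → ℝ), WD q K w →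
      Squarefree m₁ → Squarefree m₂ → Nat.Coprime q m₁ → Nat.Coprime q m₂ →
      (m₁ : ℝ) ≤ X ^ (1 / 4 - δ) → (m₂ : ℝ) ≤ X ^ (1 / 4 - δ) →
      |(∑' Δ : ℕ, G (Δ / X) * US Δ (fun Q e => Vk ((e : ℝ) ^ 2 * Q.1 /
          ((n : ℝ) * m₁ * m₂ * Real.sqrt Δ)) / Real.sqrt ((e : ℝ) ^ 2 * Q.1) *
          w e Q.1.toNat Q.2.1 Q.2.2 * Nw m₁ m₂ Q.1.toNat Q.2.1 Q.2.2 e)
          (fun Q => zf Q.1 Q.2.1 Δ)) -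
        (1 / 2) * ∫ Δ in Ioi (0 : ℝ), G (Δ / X) * Mn q n m₁ m₂ w Δ| ≤ X ^ (-1 : ℝ)

end Pool.Agent.H31.CN
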