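import Pool.Agent.H31.CN.GRing
import Pool.Agent.H31.CN.T2

/-!
# Targets, part 3: the arithmetic of the main term
-/

set_option autoImplicit false

open MeasureTheory Set Filter
open scoped Real

namespace Pool.Agent.H31.CN

/-- (SSA) asymptotic expansion of the basic sums. -/
def T_SSA : Prop :=
  (∀ Y : ℝ, Summable (fun x : ℕ × ℕ =>
      |Vk ((x.1 : ℝ) ^ 2 * x.2 * Real.exp (-Y)) * (1 + Real.log x.2) / ((x.1 : ℝ) * x.2)|)) ∧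
  ∃ a₁ a₀ b₂ b₁ b₀ C : ℝ, 0 < C ∧ ∀ Y : ℝ, 0 ≤ Y →
    |S0 Y - (Y ^ 2 / 4 + a₁ * Y + a₀)| ≤ C * Real.exp (-(Y / 4)) ∧
    |S1 Y - (Y ^ 3 / 12 + b₂ * Y ^ 2 + b₁ * Y + b₀)| ≤ C * Real.exp (-(Y / 4))

/-- (MNR) the main term for fixed discriminant as a value of the functional `Ph`. -/
def T_MNR : Prop :=
  ∀ (q n m₁ m₂ : ℕ) (w : ℕ → ℕ → ℤ → ℤ → ℝ) (T : Finset (ℕ × ℕ)) (f : ℕ × ℕ → ℝ) (Δ : ℝ),
    1 ≤ n → Squarefree m₁ → Squarefree m₂ → (∀ x ∈ T, 1 ≤ x.1 ∧ 1 ≤ x.2) →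
    (∀ x ∈ T, Nat.Coprime x.1 (m₁ * m₂) ∧ Nat.Coprime x.2 (m₁ * m₂)) → 0 < Δ →
    (∀ e A, 1 ≤ e → 1 ≤ A → wbar q w e A = ∑ x ∈ T, if x.1 ∣ A ∧ x.2 ∣ e then f x else 0) →
    Mn q n m₁ m₂ w Δ = Ph (Real.log (Real.sqrt Δ))
      ((∑ x ∈ T, (f x / ((x.1 : ℝ) * x.2)) •
        E (Real.log x.1) (Real.log (x.1 * (x.2 : ℝ) ^ 2 / n))) * ka m₁ m₂)

/-- (CNV) the quadratic form is diagonal up to coprimality. -/
def T_CNV : Prop :=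
  ∀ (c : ℕ → ℝ) (n₀ : ℕ), (∀ m, ¬ Squarefree m → c m = 0) → (∀ m, n₀ < m → c m = 0) →
    ∑ m₁ ∈ Finset.Icc 1 n₀, ∑ m₂ ∈ Finset.Icc 1 n₀, (c m₁ * c m₂) • ka m₁ m₂ =
      ∑ d ∈ (Finset.Icc 1 n₀).filter (fun d => Squarefree d), (∏ p ∈ d.primeFactors, et p) *
        (∑ n ∈ (Finset.Icc 1 n₀).filter (fun n => Nat.Coprime n d),
          c (d * n) • ∏ p ∈ n.primeFactors, al p) ^ 2

/-- (MOM) the moments of a product. -/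
def T_MOM : Prop :=
  ∀ (i j : ℕ) (r s : GR), mo i j (r * s) = ∑ a ∈ Finset.range (i + 1),
    ∑ b ∈ Finset.range (j + 1), (i.choose a : ℝ) * (j.choose b) * mo a b r * mo (i - a) (j - b) s

/-- the sum of the squares of the logarithms of the prime divisors -/
noncomputable def ve (n : ℕ) : ℝ := ∑ p ∈ n.primeFactors, Real.log p ^ 2

/-- (BDM) the moments of the mollifier sums. -/
def T_BDM : Prop :=
  ∀ (c : ℕ → ℝ) (n₀ d : ℕ), 1 ≤ d → (∀ m, ¬ Squarefree m → c m = 0) →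
    ∀ (B : GR) (b : ℕ → ℝ) (s : Finset ℕ),
    s = (Finset.Icc 1 n₀).filter (fun n => Nat.Coprime n d) →
    B = ∑ n ∈ s, c (d * n) • ∏ p ∈ n.primeFactors, al p →
    b = (fun n => c (d * n) * 2 ^ n.primeFactors.card / n) →
    mo 0 0 B = ∑ n ∈ s, b n ∧
    mo 1 0 B = 1 / 2 * ∑ n ∈ s, b n * Real.log n ∧
    mo 0 1 B = 1 / 2 * ∑ n ∈ s, b n * Real.log n ∧
    mo 1 1 B = 1 / 4 * ∑ n ∈ s, b n * (Real.log n ^ 2 - ve n) ∧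
    mo 2 0 B = 1 / 4 * ∑ n ∈ s, b n * (Real.log n ^ 2 + ve n) ∧
    mo 0 2 B = 1 / 4 * ∑ n ∈ s, b n * (Real.log n ^ 2 + ve n) ∧
    mo 3 0 B = 1 / 8 * ∑ n ∈ s, b n * (Real.log n ^ 3 + 3 * ve n * Real.log n) ∧
    mo 0 3 B = 1 / 8 * ∑ n ∈ s, b n * (Real.log n ^ 3 + 3 * ve n * Real.log n) ∧
    mo 2 1 B = 1 / 8 * ∑ n ∈ s, b n * (Real.log n ^ 3 - ve n * Real.log n) ∧
    mo 1 2 B = 1 / 8 * ∑ n ∈ s, b n * (Real.log n ^ 3 - ve n * Real.log n)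

/-- the real Möbius function -/
noncomputable def mr (n : ℕ) : ℝ := ((ArithmeticFunction.moebius n : ℤ) : ℝ)

/-- the convolution square of the Möbius function -/
noncomputable def m2 (n : ℕ) : ℝ := ∑ x ∈ n.divisorsAntidiagonal, mr x.1 * mr x.2

/-- (MU1) smoothed sums of the Möbius function. -/
def T_MU1 : Prop :=
  ∀ k : ℕ, 2 ≤ k → ∃ C : ℝ, 0 < C ∧ ∀ y : ℝ, 1 ≤ y →
    |∑ n ∈ Finset.Icc 1 ⌊y⌋₊, mr n / n * Real.log (y / n) ^ k - k * Real.log y ^ (k - 1)| ≤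
      C * (1 + Real.log y) ^ (k - 2)

/-- (MU2) smoothed sums of the convolution square. -/
def T_MU2 : Prop :=
  ∀ k : ℕ, 5 ≤ k → ∃ C : ℝ, 0 < C ∧ ∀ y : ℝ, 1 ≤ y →
    |∑ n ∈ Finset.Icc 1 ⌊y⌋₊, m2 n / n * Real.log (y / n) ^ k -
      k * (k - 1) * Real.log y ^ (k - 2)| ≤ C * (1 + Real.log y) ^ (k - 3)

/-- the singular factor of an even number -/
noncomputable def Hq (q : ℕ) : ℝ :=
  ∏' p : Nat.Primes, if (p : ℕ) ∣ q then (1 - 1 / ((p : ℕ) : ℝ))⁻¹ ^ 2 else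
    (1 - 2 / ((p : ℕ) : ℝ)) * (1 - 1 / ((p : ℕ) : ℝ))⁻¹ ^ 2

/-- the error factor -/
noncomputable def Ef (q : ℕ) : ℝ := ∏ p ∈ q.primeFactors, (1 + 30 / Real.sqrt p)

/-- (HQ) the singular factor. -/
def T_HQ : Prop :=
  ∃ C : ℝ, 0 < C ∧ ∀ q : ℕ, 1 ≤ q → 2 ∣ q →
    0 < Hq q ∧ Hq q ≤ C * Ef q ∧
    (∀ p : ℕ, p.Prime → ¬ p ∣ q → Hq (q * p) * (1 - 2 / p) = Hq q) ∧
    ∃ h : ℕ → ℝ, (∀ n : ℕ, 1 ≤ n →
        (if Nat.Coprime n q then mr n * 2 ^ n.primeFactors.card else 0) =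
          ∑ x ∈ n.divisorsAntidiagonal, m2 x.1 * h x.2) ∧
      Summable (fun b : ℕ => |h b| * (b : ℝ) ^ (-(3 / 4) : ℝ)) ∧
      ∑' b : ℕ, |h b| * (b : ℝ) ^ (-(3 / 4) : ℝ) ≤ C * Ef q ∧ h 0 = 0 ∧
      ∑' b : ℕ, h b / b = Hq q

/-- the smoothed sum -/
noncomputable def Bk (k q : ℕ) (y : ℝ) : ℝ :=
  ∑ n ∈ (Finset.Icc 1 ⌊y⌋₊).filter (fun n => Nat.Coprime n q),
    mr n * 2 ^ n.primeFactors.card / n * Real.log (y / n) ^ k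

/-- (BK) the smoothed sum with coprimality. -/
def T_BK : Prop :=
  ∀ k : ℕ, 5 ≤ k → ∃ C : ℝ, 0 < C ∧ ∀ (q : ℕ) (y : ℝ), 1 ≤ q → 2 ∣ q → 1 ≤ y →
    |Bk k q y - Hq q * (k * (k - 1)) * Real.log y ^ (k - 2)| ≤
      C * Ef q * (1 + Real.log y) ^ (k - 3)

/-- (MER) Mertens sums. -/
def T_MER : Prop :=
  ∀ j : ℕ, ∃ C : ℝ, 0 < C ∧ ∀ y : ℝ, 1 ≤ y →
    |∑ p ∈ (Finset.Icc 1 ⌊y⌋₊).filter Nat.Prime, Real.log p ^ 2 / p * Real.log (y / p) ^ j -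
      Real.log y ^ (j + 2) / ((j + 1) * (j + 2))| ≤ C * (1 + Real.log y) ^ (j + 1)

/-- (VS) the smoothed sum with the sum of squares of logarithms. -/
def T_VS : Prop :=
  ∀ k : ℕ, 5 ≤ k → ∃ C : ℝ, 0 < C ∧ ∀ (q : ℕ) (y : ℝ), 1 ≤ q → 2 ∣ q → 1 ≤ y →
    |∑ n ∈ (Finset.Icc 1 ⌊y⌋₊).filter (fun n => Nat.Coprime n q),
        mr n * 2 ^ n.primeFactors.card / n * ve n * Real.log (y / n) ^ k +
      2 * Hq q * Real.log y ^ k| ≤ C * Ef q ^ 2 * (1 + Real.log y) ^ (k - 1)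

/-- the mollifier coefficients -/
noncomputable def cm (P : Polynomial ℝ) (M : ℝ) (N m : ℕ) : ℝ :=
  if (m : ℝ) ≤ M ∧ Nat.Coprime m N then mr m * P.eval (Real.log (M / m) / Real.log M) else 0

/-- the mollifier sum in the group ring -/
noncomputable def Bd (P : Polynomial ℝ) (M : ℝ) (N d : ℕ) : GR :=
  ∑ n ∈ (Finset.Icc 1 ⌊M⌋₊).filter (fun n => Nat.Coprime n d),
    cm P M N (d * n) • ∏ p ∈ n.primeFactors, al p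

/-- the leading values of the moments -/
noncomputable def Mf (P : Polynomial ℝ) (i j : ℕ) (t : ℝ) : ℝ :=
  if i = 0 ∧ j = 0 then P.derivative.derivative.eval t else
    if i + j = 1 then -P.derivative.eval t else if i = 1 ∧ j = 1 then P.eval t else 0

/-- (BAS) the moments of the mollifier sums, asymptotically. -/
def T_BAS : Prop :=
  ∀ (P : Polynomial ℝ) (N : ℕ), Polynomial.X ^ 5 ∣ P → 1 ≤ N → 2 ∣ N → Squarefree N →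
    ∃ C : ℝ, 0 < C ∧ ∀ (M : ℝ) (d i j : ℕ), 2 ≤ M → 1 ≤ d → (d : ℝ) ≤ M → Squarefree d →
      Nat.Coprime d N → i + j ≤ 3 →
      |mo i j (Bd P M N d) - mr d * Hq (d * N) * Real.log M ^ ((i : ℤ) + j - 2) *
        Mf P i j (Real.log (M / d) / Real.log M)| ≤
        C * Ef d ^ 2 * Real.log M ^ ((i : ℤ) + j - 3)

/-- the local density of the diagonal -/
noncomputable def gd (d : ℕ) : ℝ := ∏ p ∈ d.primeFactors, (1 / (p : ℝ) - 1 / (p : ℝ) ^ 3)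

/-- the singular constant -/
noncomputable def Sg (N : ℕ) : ℝ :=
  Hq N ^ 2 * ∏' p : Nat.Primes, if (p : ℕ) ∣ N then 1 - 1 / ((p : ℕ) : ℝ) else
    (1 - 1 / ((p : ℕ) : ℝ)) * (1 + 1 / ((p : ℕ) : ℝ) * (1 - 1 / ((p : ℕ) : ℝ) ^ 2) /
      (1 - 2 / ((p : ℕ) : ℝ)) ^ 2)

/-- (DSU) the sum over the diagonal. -/
def T_DSU : Prop :=
  ∀ (N : ℕ) (F : Polynomial ℝ), 1 ≤ N → 2 ∣ N → Squarefree N →
    ∃ C : ℝ, 0 < C ∧ ∀ M : ℝ, 2 ≤ M →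
      |∑ d ∈ (Finset.Icc 1 ⌊M⌋₊).filter (fun d => Squarefree d ∧ Nat.Coprime d N),
          gd d * Hq (d * N) ^ 2 * F.eval (Real.log (M / d) / Real.log M) -
        Sg N * Real.log M * ∫ t in (0 : ℝ)..1, F.eval t| ≤ C

/-- (DSE) the sum of the error factors. -/
def T_DSE : Prop :=
  ∃ C : ℝ, 0 < C ∧ ∀ M : ℝ, 2 ≤ M →
    ∑ d ∈ (Finset.Icc 1 ⌊M⌋₊).filter (fun d => Squarefree d), Ef d ^ 8 / d ≤ C * Real.log M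

/-- the polynomial in the two logarithmic variables -/
noncomputable def PP (a₁ a₀ b₂ b₁ b₀ u v : ℝ) : ℝ :=
  (u + c0) * (v ^ 2 / 4 + a₁ * v + a₀) - (v ^ 3 / 12 + b₂ * v ^ 2 + b₁ * v + b₀)

/-- the integrand of the main term -/
noncomputable def Fi (k p₀ p₁ p₂ : ℝ) : ℝ :=
  k ^ 3 * p₂ ^ 2 / 6 + k ^ 2 * p₁ * p₂ + k * (p₀ * p₂ + p₁ ^ 2) + p₀ * p₁

/-- (QUA) the polynomial functional on a square. -/
def T_QUA : Prop :=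
  ∀ (a₁ a₀ b₂ b₁ b₀ κ K : ℝ), 0 < K → ∃ C : ℝ, 0 < C ∧
    ∀ (N₀ Et B : GR) (l lam g d H Eb s p₀ p₁ p₂ : ℝ), 1 / 2 ≤ l → |lam - κ * l| ≤ K →
      1 ≤ d → 1 ≤ Eb → s ^ 2 = 1 → |H| ≤ K * Eb → |p₀| ≤ K → |p₁| ≤ K → |p₂| ≤ K →
      (∀ i j, i + j ≤ 3 → |mo i j N₀| ≤ K ∧ |mo i j Et| ≤ K / d) → mo 0 0 Et = g →
      (∀ i j, i + j ≤ 3 → |mo i j B - s * H * l ^ ((i : ℤ) + j - 2) *
        (if i = 0 ∧ j = 0 then p₂ else if i + j = 1 then -p₁ else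
          if i = 1 ∧ j = 1 then p₀ else 0)| ≤ K * Eb * l ^ ((i : ℤ) + j - 3)) →
      |lin (fun v => PP a₁ a₀ b₂ b₁ b₀ (lam - v.1) (lam - v.2)) (N₀ * (Et * B ^ 2)) -
        mo 0 0 N₀ * g * H ^ 2 * l ^ (-1 : ℤ) * Fi κ p₀ p₁ p₂| ≤
        C * Eb ^ 2 / d * l ^ (-2 : ℤ)

/-- (ETM) the moments of the diagonal element. -/
def T_ETM : Prop :=
  ∃ C : ℝ, 0 < C ∧ ∀ d : ℕ, Squarefree d → mo 0 0 (∏ p ∈ d.primeFactors, et p) = gd d ∧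
    ∀ i j, i + j ≤ 3 → |mo i j (∏ p ∈ d.primeFactors, et p)| ≤ C / d

/-- (INT) the integral of the main term. -/
def T_INT : Prop :=
  ∀ (P : Polynomial ℝ) (k : ℝ), Polynomial.X ^ 2 ∣ P →
    ∫ t in (0 : ℝ)..1, Fi k (P.eval t) (P.derivative.eval t)
        (P.derivative.derivative.eval t) =
      1 / 2 * ((P.eval 1 + k * P.derivative.eval 1) ^ 2 +
        k ^ 3 / 3 * ∫ t in (0 : ℝ)..1, P.derivative.derivative.eval t ^ 2)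

/-- (PER) the error functional is negligible. -/
def T_PER : Prop :=
  ∀ (N₀ : GR) (P : Polynomial ℝ) (N : ℕ) (θ L₀ C₀ ε : ℝ) (f : ℝ → ℝ × ℝ → ℝ), 0 < θ →
    θ < 1 / 4 → 0 < ε →
    (∀ lam v, v.2 ≤ lam → |f lam v| ≤ C₀ * (1 + |lam| + |v.1| + |v.2|) ^ 2 *
      Real.exp (-((lam - v.2) / 4))) →
    ∃ X₀ : ℝ, ∀ X lam : ℝ, X₀ ≤ X → |lam - 1 / 2 * Real.log X| ≤ L₀ →
      |lin (f lam) (N₀ * ∑ m₁ ∈ Finset.Icc 1 ⌊X ^ θ⌋₊, ∑ m₂ ∈ Finset.Icc 1 ⌊X ^ θ⌋₊,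
        (cm P (X ^ θ) N m₁ * cm P (X ^ θ) N m₂) • ka m₁ m₂)| ≤ ε

/-- the main term -/
noncomputable def Mt (P : Polynomial ℝ) (k : ℝ) : ℝ :=
  (P.eval 1 + k * P.derivative.eval 1) ^ 2 +
    k ^ 3 / 3 * ∫ t in (0 : ℝ)..1, P.derivative.derivative.eval t ^ 2

/-- (MAI) the main term of the mollified second moment. -/
def T_MAI : Prop :=
  ∀ (N₀ : GR) (P : Polynomial ℝ) (N : ℕ) (θ L₀ ε : ℝ), Polynomial.X ^ 5 ∣ P → 1 ≤ N → 2 ∣ N →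
    Squarefree N → 0 < θ → θ < 1 / 4 → 0 < ε →
    ∃ X₀ : ℝ, ∀ X lam : ℝ, X₀ ≤ X → |lam - 1 / 2 * Real.log X| ≤ L₀ →
      |Ph lam (N₀ * ∑ m₁ ∈ Finset.Icc 1 ⌊X ^ θ⌋₊, ∑ m₂ ∈ Finset.Icc 1 ⌊X ^ θ⌋₊,
        (cm P (X ^ θ) N m₁ * cm P (X ^ θ) N m₂) • ka m₁ m₂) -
        mo 0 0 N₀ * Sg N * (1 / 2) * Mt P (1 / (2 * θ))| ≤ ε

end Pool.Agent.H31.CN
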