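import Pool.Agent.H31.CN.T5
import Pool.Agent.H37.CA.Targets2

/-!
# Targets, part 6: the irreducible characters of the Galois group of the Hilbert class field
-/

set_option autoImplicit false

open MeasureTheory Set Filter NumberField
open scoped Real nonZeroDivisors

namespace Pool.Agent.H31.CN

open Pool.Agent.H28.RC Pool.Agent.H37.CA

/-- the number of the real class group characters -/
noncomputable def rc (K : Type) [Field K] [NumberField K] : ℕ :=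
  Nat.card {ψ : ClassGroup (𝓞 K) →* ℂˣ // ψ * ψ = 1}

/-- the proportion of the irreducible characters of the Galois group of `L/ℚ` which are orthogonal
of degree two with an entire Artin `L`-function that does not vanish at `1/2` -/
noncomputable def prI {L : Type} [Field L] [NumberField L] [IsGalois ℚ L] (F : Frb L) : ℝ :=
  ({f | f ∈ Irr (L ≃ₐ[ℚ] L) ∧ f 1 = 2 ∧ Pool.Agent.H37.CA.nu f = 1 ∧ Pool.Agent.H37.CA.NV F f}.ncard : ℝ) /
    (Irr (L ≃ₐ[ℚ] L)).ncard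

/-- `β` is the correspondence of the class group characters and the characters of the Galois
group of the Hilbert class field -/
def CoH (K L : Type) [Field K] [NumberField K] [Field L] [NumberField L] [Algebra K L]
    (β : (ClassGroup (𝓞 K) →* ℂˣ) ≃* (HF K L →* ℂˣ)) : Prop :=
  ∀ (ψ : ClassGroup (𝓞 K) →* ℂˣ) (P : (Ideal (𝓞 K))⁰) (g : L ≃ₐ[K] L) (h : HF K L),
    Fro (P : Ideal (𝓞 K)) g → (h : L ≃ₐ[ℚ] L) = g.restrictScalars ℚ →
    ψ (ClassGroup.mk0 P) = β ψ h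

/-- (QGA) quadratic fields are Galois extensions of `ℚ`. -/
def T_QGA : Prop :=
  ∀ (K : Type) [Field K] [NumberField K], Module.finrank ℚ K = 2 → IsGalois ℚ K

/-- (ICP) the sign of the discriminant. -/
def T_ICP : Prop :=
  ∀ (D : ℕ) (K : Type) [Field K] [NumberField K], 0 < D → Module.finrank ℚ K = 2 →
    discr K = -(D : ℤ) → IsTotallyComplex K

/-- (RCH) class group characters are ray class characters. -/
def T_RCH : Prop :=
  ∀ (K : Type) [Field K] [NumberField K] (ψ : ClassGroup (𝓞 K) →* ℂˣ), ∃ χ : RCC K,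
    ∀ I : (Ideal (𝓞 K))⁰, χ.ψ (I : Ideal (𝓞 K)) = ((ψ (ClassGroup.mk0 I) : ℂˣ) : ℂ)

/-- (ENT) the `L`-functions of the non-trivial class group characters are entire. -/
def T_ENT : Prop :=
  ∀ (K : Type) [Field K] [NumberField K], 2 ≤ Module.finrank ℚ K →
    ∀ ψ : ClassGroup (𝓞 K) →* ℂˣ, ψ ≠ 1 → ∀ F : ℂ → ℂ, IsLf K ψ F →
    ∃ Λ : ℂ → ℂ, Differentiable ℂ Λ ∧ (∀ s : ℂ, 1 < s.re → Λ s = F s) ∧
      Λ (1 / 2) = F (1 / 2)

/-- (COT) the correspondence of the characters. -/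
def T_COT : Prop :=
  ∀ (K L : Type) [Field K] [NumberField K] [Field L] [NumberField L] [Algebra K L]
    [IsGalois ℚ K] [IsGalois ℚ L], IsRCF K L ⊤ → ∃ β, CoH K L β

/-- (INV) the structure of the Galois group of the Hilbert class field. -/
def T_INV : Prop :=
  ∀ (K L : Type) [Field K] [NumberField K] [Field L] [NumberField L] [Algebra K L]
    [IsTotallyComplex K] [IsGalois ℚ K] [IsGalois ℚ L], Module.finrank ℚ K = 2 →
    IsRCF K L ⊤ → ∀ g : L ≃ₐ[ℚ] L, g ∉ HF K L → g * g = 1 ∧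
      ∀ a ∈ HF K L, g⁻¹ * a * g = a⁻¹

/-- (GNC) the characters which are equal to a conjugate. -/
def T_GNC : Prop :=
  ∀ (G : Type) [Group G] [Finite G] (A : Subgroup G) [A.Normal], A.index = 2 →
    (∀ g : G, g ∉ A → ∀ a ∈ A, g⁻¹ * a * g = a⁻¹) →
    ∀ φ : A →* ℂˣ, φ ∈ Gen A ↔ φ * φ ≠ 1

/-- (NUO) the Frobenius-Schur indicator of an induced character. -/
def T_NUO : Prop :=
  ∀ (G : Type) [Group G] [Finite G] (A : Subgroup G) [A.Normal], A.index = 2 →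
    (∀ a ∈ A, ∀ b ∈ A, a * b = b * a) →
    (∀ g : G, g ∉ A → g * g = 1 ∧ ∀ a ∈ A, g⁻¹ * a * g = a⁻¹) →
    ∀ φ : A →* ℂˣ, φ * φ ≠ 1 → Pool.Agent.H37.CA.nu (fun g => indc A φ g) = 1

/-- (ART) the Artin `L`-function of the induced character. -/
def T_ART : Prop :=
  ∀ (K L : Type) [Field K] [NumberField K] [Field L] [NumberField L] [Algebra K L]
    [IsTotallyComplex K] [IsGalois ℚ K] [IsGalois ℚ L], Module.finrank ℚ K = 2 →
    ∀ β, CoH K L β → ∀ ψ : ClassGroup (𝓞 K) →* ℂˣ, ψ ≠ 1 → NV K ψ → ∀ F : Frb L,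
      Pool.Agent.H37.CA.NV F (fun g => indc (HF K L) (β ψ) g)

/-- (RAT) the proportion for one field. -/
def T_RAT : Prop :=
  ∀ (D : ℕ) (K L : Type) [Field K] [NumberField K] [Field L] [NumberField L] [Algebra K L]
    [IsGalois ℚ L], 0 < D → Module.finrank ℚ K = 2 → discr K = -(D : ℤ) → IsRCF K L ⊤ →
    ∀ F : Frb L, (Irr (L ≃ₐ[ℚ] L)).Finite ∧
      prp K - 4 * ((rc K : ℝ) / classNumber K) ≤ prI F

/-- (SPI) the prime ideals above a prime number that splits. -/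
def T_SPI : Prop :=
  ∀ (D : ℕ) (K : Type) [Field K] [NumberField K], 3 < D → D % 4 = 3 →
    Module.finrank ℚ K = 2 → discr K = -(D : ℤ) → ∀ p : ℕ, p.Prime → chi p D = 1 →
    ∃ P P' : Ideal (𝓞 K), P.IsPrime ∧ P'.IsPrime ∧ P ≠ P' ∧ Ideal.absNorm P = p ∧
      Ideal.absNorm P' = p ∧ P * P' = Ideal.span {(p : 𝓞 K)}

/-- (PRN) elements of small norm are rational. -/
def T_PRN : Prop :=
  ∀ (D : ℕ) (K : Type) [Field K] [NumberField K], 3 < D → D % 4 = 3 →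
    Module.finrank ℚ K = 2 → discr K = -(D : ℤ) → ∀ α : 𝓞 K,
    4 * Ideal.absNorm (Ideal.span {α}) < D → ∃ n : ℤ, α = n

/-- (ORD) the order of the class of a prime ideal of small norm. -/
def T_ORD : Prop :=
  ∀ (D : ℕ) (K : Type) [Field K] [NumberField K], 3 < D → D % 4 = 3 →
    Module.finrank ℚ K = 2 → discr K = -(D : ℤ) → ∀ p : ℕ, p.Prime → chi p D = 1 →
    ∃ x : ClassGroup (𝓞 K), ∀ j : ℕ, 1 ≤ j → 4 * p ^ (2 * j) < D → x ^ (2 * j) ≠ 1

/-- (CH2) the number of real characters of a finite abelian group. -/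
def T_CH2 : Prop :=
  ∀ (G : Type) [CommGroup G] [Finite G] (x : G) (J : ℕ),
    (∀ j : ℕ, 1 ≤ j → j ≤ J → x ^ (2 * j) ≠ 1) →
    (J + 1) * Nat.card {ψ : G →* ℂˣ // ψ * ψ = 1} ≤ Nat.card G ∧
      Nat.card (G →* ℂˣ) = Nat.card G

open Classical in
/-- (NSP) few discriminants without small primes that split. -/
def T_NSP : Prop :=
  ∀ ε : ℝ, 0 < ε → ∃ (Y : ℕ) (X₀ : ℝ), ∀ X : ℝ, X₀ ≤ X →
    (((fam X).filter (fun D : ℕ => ∀ p : ℕ, p.Prime → p ≤ Y → chi p D ≠ 1)).card : ℝ) ≤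
      ε * (fam X).card

/-- (TAU) few class group characters are real, on average. -/
def T_TAU : Prop :=
  ∀ ε : ℝ, 0 < ε → ∃ X₀ : ℝ, ∀ X : ℝ, X₀ ≤ X →
    ∀ (K : ℕ → Type) [∀ D, Field (K D)] [∀ D, NumberField (K D)],
      (∀ D ∈ fam X, Module.finrank ℚ (K D) = 2 ∧ discr (K D) = -(D : ℤ)) →
      ∑ D ∈ fam X, (rc (K D) : ℝ) / classNumber (K D) ≤ ε * (fam X).card

/-- (FAR) the final theorem for Artin `L`-functions. -/
def T_FAR : Prop :=
  ∀ ε : ℝ, 0 < ε → ∃ X₀ : ℝ, ∀ X : ℝ, X₀ ≤ X →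
    ∀ (K L : ℕ → Type) [∀ D, Field (K D)] [∀ D, NumberField (K D)] [∀ D, Field (L D)]
      [∀ D, NumberField (L D)] [∀ D, Algebra (K D) (L D)] [∀ D, IsGalois ℚ (L D)],
      (∀ D ∈ fam X, Module.finrank ℚ (K D) = 2 ∧ discr (K D) = -(D : ℤ) ∧
        IsRCF (K D) (L D) ⊤) → ∀ F : ∀ D, Frb (L D),
      (∀ D ∈ fam X, (Irr (L D ≃ₐ[ℚ] L D)).Finite) ∧
      (19 / 27 - ε) * (fam X).card ≤ ∑ D ∈ fam X, prI (F D)

end Pool.Agent.H31.CN
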