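import Pool.Agent.H31.CN.UnfC

/-!
# (UNF) the unfolded second moment: the proof
-/

set_option autoImplicit false

open MeasureTheory Set Filter
open scoped Real Matrix MatrixGroups

namespace Pool.Agent.H31.CN

theorem nu_list {m : ℕ} (hm : Squarefree m) (R : QF) (v : ℤ × ℤ) :
    (m.primeFactorsList.map (fun p => nul p R v)).prod = nu m R v := by
  unfold nu
  rw [← List.prod_toFinset _ ((Nat.squarefree_iff_nodup_primeFactorsList hm.ne_zero).1 hm)]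
  rfl

theorem zq_qf3 {Δ A B : ℕ} (hA : 1 ≤ A) (hd : 4 * A ∣ B ^ 2 + Δ) :
    zq (qf3 Δ A B) = zf A B Δ := by
  have h := (qf3_mem hA hd).2
  unfold zq
  rw [h]
  simp [qf3]

section
variable {Δ : ℕ}

theorem wv_summable {m : ℕ} (hΔ : 0 < Δ) (hm : 1 ≤ m) (hVK : T_VK) (hVGR : T_VGR)
    (hACT : T_ACT) {R : QF} (hR : R ∈ FD Δ) : Summable (wv m R) := by
  obtain ⟨C, hC, hV, -, -, -⟩ := hVK
  have hsD : 0 < Real.sqrt Δ := Real.sqrt_pos.2 (by exact_mod_cast hΔ)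
  have hm0 : (0 : ℝ) < m := by exact_mod_cast hm
  obtain ⟨K, hK⟩ := hVGR Δ (6 / (m * Real.sqrt Δ)) hΔ (by positivity)
  refine Summable.of_norm_bounded ((hK R hR).1.mul_left
    (C * ((∏ p ∈ m.primeFactors, (p + 1) : ℕ) : ℝ))) fun v => ?_
  rw [Real.norm_eq_abs]
  by_cases hv : v = 0
  · rw [hv, wv_zero, abs_zero]; positivity
  · exact wv_bound hC hΔ hm hACT hV hR hv

theorem Zc_eq (hΔ : 0 < Δ) (hVK : T_VK) (hVGR : T_VGR) (hACT : T_ACT) (S : Finset ℕ)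
    (c : ℕ → ℝ) (hS : ∀ m ∈ S, Squarefree m) {R : QF} (hR : R ∈ FD Δ) :
    Zc S c R = ∑ m ∈ S, c m * ∑' v, wv m R v := by
  unfold Zc
  have h1 : ∀ v : ℤ × ℤ, (∑ m ∈ S, c m * Vk (val R v / (m * Real.sqrt (dsc R))) * nu m R v) /
      Real.sqrt (val R v) = ∑ m ∈ S, c m * wv m R v := by
    intro v
    rw [Finset.sum_div]
    refine Finset.sum_congr rfl fun m _ => ?_
    unfold wv
    ring
  simp_rw [h1]
  rw [Summable.tsum_finsetSum (fun m hm => (wv_summable hΔ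
    (Nat.one_le_iff_ne_zero.2 (hS m hm).ne_zero) hVK hVGR hACT hR).mul_left _)]
  refine Finset.sum_congr rfl fun m _ => ?_
  rw [tsum_mul_left]

/-- the truncated kernel -/
noncomputable def hh (Δ M₀ : ℕ) (x : ℝ) : ℝ :=
  if x < 1 / (M₀ : ℝ) then 0 else Vk (x / Real.sqrt Δ) / Real.sqrt x

/-- the sum of the truncated kernel -/
noncomputable def zh (Δ M₀ : ℕ) (R : QF) : ℝ :=
  ∑' v : ℤ × ℤ, if v = 0 then 0 else hh Δ M₀ (val R v)

theorem hh_bound {M₀ : ℕ} (hM : 1 ≤ M₀) (hΔ : 0 < Δ) {C : ℝ} (hC : 0 < C)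
    (hV : ∀ x : ℝ, 0 < x → |Vk x| ≤ C * Real.exp (-(6 * x))) (x : ℝ) (hx : 0 < x) :
    |hh Δ M₀ x| ≤ (C * Real.sqrt M₀) * Real.exp (-(6 / Real.sqrt Δ * x)) := by
  have hsD : 0 < Real.sqrt Δ := Real.sqrt_pos.2 (by exact_mod_cast hΔ)
  have hM0 : (0 : ℝ) < M₀ := by exact_mod_cast hM
  unfold hh
  split_ifs with h
  · rw [abs_zero]; positivity
  · rw [not_lt] at h
    rw [abs_div, abs_of_nonneg (Real.sqrt_nonneg x)]
    have h1 : |Vk (x / Real.sqrt Δ)| ≤ C * Real.exp (-(6 / Real.sqrt Δ * x)) := by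
      refine (hV _ (by positivity)).trans (le_of_eq ?_)
      congr 2
      ring
    have h2 : 1 ≤ Real.sqrt M₀ * Real.sqrt x := by
      rw [← Real.sqrt_mul hM0.le, Real.one_le_sqrt]
      rw [div_le_iff₀ hM0] at h
      linarith
    refine div_le_of_le_mul₀ (Real.sqrt_nonneg _) (by positivity) ?_
    calc |Vk (x / Real.sqrt Δ)| ≤ C * Real.exp (-(6 / Real.sqrt Δ * x)) * 1 := by
          rw [mul_one]; exact h1
      _ ≤ C * Real.exp (-(6 / Real.sqrt Δ * x)) * (Real.sqrt M₀ * Real.sqrt x) :=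
          mul_le_mul_of_nonneg_left h2 (by positivity)
      _ = _ := by ring

theorem val_pos' (hΔ : 0 < Δ) (hACT : T_ACT) {R : QF} (hR : R ∈ FD Δ) {v : ℤ × ℤ}
    (hv : v ≠ 0) : (1 : ℝ) ≤ val R v := by
  obtain ⟨_, _, _, _, _, h6⟩ := hACT R 1 1 v
  exact_mod_cast (h6 Δ hΔ hR).2 hv

theorem wv_sum {m M₀ : ℕ} (hΔ : 0 < Δ) (hm : Squarefree m) (hmM : m ≤ M₀) (hVK : T_VK)
    (hACT : T_ACT) (hHK : T_HK) {R : QF} (hR : R ∈ FD Δ) :
    ∑' v, wv m R v = 1 / Real.sqrt m * TL m.primeFactorsList (zh Δ M₀) R := by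
  obtain ⟨C, hC, hV, -, -, -⟩ := hVK
  have hsD : 0 < Real.sqrt Δ := Real.sqrt_pos.2 (by exact_mod_cast hΔ)
  have hm1 : 1 ≤ m := Nat.one_le_iff_ne_zero.2 hm.ne_zero
  have hm0 : (0 : ℝ) < m := by exact_mod_cast hm1
  have hM1 : 1 ≤ M₀ := hm1.trans hmM
  have hM0 : (0 : ℝ) < M₀ := by exact_mod_cast hM1
  have key := hHK Δ (C * Real.sqrt M₀) (6 / Real.sqrt Δ) (hh Δ M₀) m.primeFactorsList hΔ
    (by positivity) (hh_bound hM1 hΔ hC hV)
    ((Nat.squarefree_iff_nodup_primeFactorsList hm.ne_zero).1 hm)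
    (fun p hp => Nat.prime_of_mem_primeFactorsList hp) R hR
  have e1 : (fun R => ∑' v : ℤ × ℤ, if v = 0 then 0 else hh Δ M₀ (val R v)) = zh Δ M₀ := rfl
  rw [e1] at key
  rw [← key, ← tsum_mul_left]
  refine tsum_congr fun v => ?_
  rw [nu_list hm, Nat.prod_primeFactorsList hm.ne_zero]
  by_cases hv : v = 0
  · rw [if_pos hv, hv, wv_zero, mul_zero]
  · rw [if_neg hv]
    have hval := val_pos' hΔ hACT hR hv
    have hD : ((dsc R : ℤ) : ℝ) = Δ := by rw [hR.2]; simp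
    unfold hh wv
    rw [if_neg (by
      rw [not_lt, div_le_div_iff₀ hM0 hm0]
      have : (m : ℝ) ≤ M₀ := by exact_mod_cast hmM
      nlinarith), hD]
    have h3 : (val R v : ℝ) / m / Real.sqrt Δ = val R v / (m * Real.sqrt Δ) := by
      rw [div_div]
    rw [h3, Real.sqrt_div (by linarith)]
    have h4 : Real.sqrt m ≠ 0 := (Real.sqrt_pos.2 hm0).ne'
    have h5 : Real.sqrt (val R v) ≠ 0 := (Real.sqrt_pos.2 (by linarith)).ne'
    field_simp

theorem zh_eq {M₀ : ℕ} (hΔ : 0 < Δ) (hM : 1 ≤ M₀) (hACT : T_ACT) (hQDV : T_QDV) {R : QF}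
    (hR : R ∈ FD Δ) : zh Δ M₀ R = zq R := by
  obtain ⟨_, h2, _⟩ := hQDV
  have hM0 : (0 : ℝ) < M₀ := by exact_mod_cast hM
  have hD : ((dsc R : ℤ) : ℝ) = Δ := by rw [hR.2]; simp
  unfold zh zq zf
  refine tsum_congr fun v => ?_
  have e := h2 R v hR.1
  rw [e, hD]
  by_cases hv : v = 0
  · have : val R 0 = 0 := by simp [val]
    rw [if_pos hv, hv, this]
    simp
  · rw [if_neg hv]
    have hval := val_pos' hΔ hACT hR hv
    unfold hh
    rw [if_neg]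
    rw [not_lt]
    have : 1 / (M₀ : ℝ) ≤ 1 := by
      rw [div_le_one hM0]; exact_mod_cast hM
    linarith

theorem fp_zh {M₀ : ℕ} (hΔ : 0 < Δ) (hM : 1 ≤ M₀) (hVK : T_VK) (hVGR : T_VGR) (hACT : T_ACT)
    (hQDV : T_QDV) : FP Δ (zh Δ M₀) := by
  constructor
  · intro R hR
    have h6 := ((hACT R tr1 1 0).2.2.2.2.2 Δ hΔ hR).1
    rw [act_tr1] at h6
    rw [zh_eq hΔ hM hACT hQDV h6, zh_eq hΔ hM hACT hQDV hR, ← act_tr1]
    exact hQDV.2.2.2.2 R tr1 hR.1 (by rw [hR.2]; exact_mod_cast hΔ)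
  · obtain ⟨C, hC, hV, -, -, -⟩ := hVK
    have hsD : 0 < Real.sqrt Δ := Real.sqrt_pos.2 (by exact_mod_cast hΔ)
    obtain ⟨K, hK⟩ := hVGR Δ (6 / Real.sqrt Δ) hΔ (by positivity)
    refine ⟨(C * Real.sqrt M₀) * K, 1, fun R hR => ?_⟩
    obtain ⟨h1, h2⟩ := hK R hR
    have hb : ∀ v : ℤ × ℤ, ‖if v = 0 then 0 else hh Δ M₀ (val R v)‖ ≤
        (C * Real.sqrt M₀) * Real.exp (-(6 / Real.sqrt Δ * val R v)) := by
      intro v
      rw [Real.norm_eq_abs]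
      by_cases hv : v = 0
      · rw [if_pos hv, abs_zero]; positivity
      · rw [if_neg hv]
        exact hh_bound hM hΔ hC hV _ (by linarith [val_pos' hΔ hACT hR hv])
    have h3 := tsum_of_norm_bounded (h1.mul_left (C * Real.sqrt M₀)).hasSum hb
    rw [Real.norm_eq_abs, tsum_mul_left] at h3
    unfold zh
    refine h3.trans ?_
    have h4 := mul_le_mul_of_nonneg_left h2 (show (0 : ℝ) ≤ C * Real.sqrt M₀ by positivity)
    rw [pow_one]
    linarith [h4, mul_assoc (C * Real.sqrt M₀) K (1 + (R.1 : ℝ))]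

theorem wp_wv {m : ℕ} (hΔ : 0 < Δ) (hm : 1 ≤ m) (hVK : T_VK) (hNUI : T_NUI) (hACT : T_ACT) :
    WP Δ (fun R e => wv m R ((e : ℤ), 0)) := by
  refine ⟨fun R _ => ?_, fun R hR e => ?_, ?_⟩
  · have : (((0 : ℕ) : ℤ), (0 : ℤ)) = (0 : ℤ × ℤ) := rfl
    rw [this, wv_zero]
  · rw [← act_tr1]
    rw [wv_act hNUI hACT, gv_tr1]
  · obtain ⟨C, hC, hV, -, -, -⟩ := hVK
    have hsD : 0 < Real.sqrt Δ := Real.sqrt_pos.2 (by exact_mod_cast hΔ)
    have hm0 : (0 : ℝ) < m := by exact_mod_cast hm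
    refine ⟨C * ((∏ p ∈ m.primeFactors, (p + 1) : ℕ) : ℝ), 6 / (m * Real.sqrt Δ),
      by positivity, fun R hR e => ?_⟩
    rcases Nat.eq_zero_or_pos e with rfl | he
    · have : (((0 : ℕ) : ℤ), (0 : ℤ)) = (0 : ℤ × ℤ) := rfl
      rw [this, wv_zero, abs_zero]; positivity
    · have hne : (((e : ℕ) : ℤ), (0 : ℤ)) ≠ (0 : ℤ × ℤ) := by
        intro h
        have := congrArg Prod.fst h
        simp at this
        omega
      refine (wv_bound hC hΔ hm hACT hV hR hne).trans (le_of_eq ?_)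
      rw [val_e0]
      push_cast
      congr 2
      ring

theorem US_pair {m₁ m₂ M₀ : ℕ} (hΔ : 0 < Δ) (h1 : Squarefree m₁) (h2 : Squarefree m₂)
    (hM : 1 ≤ M₀) (hADJ : T_ADJ) (hTPB : T_TPB) (hNUI : T_NUI) (hWC : T_WC) (hVK : T_VK)
    (hVGR : T_VGR) (hACT : T_ACT) (hQDV : T_QDV) :
    US Δ (fun R e => wv m₁ R ((e : ℤ), 0)) (TL m₂.primeFactorsList (zh Δ M₀)) =
      Real.sqrt m₂ * Uf m₁ m₂ Δ := by
  have hsD : 0 < Real.sqrt Δ := Real.sqrt_pos.2 (by exact_mod_cast hΔ)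
  have hm1 : 1 ≤ m₁ := Nat.one_le_iff_ne_zero.2 h1.ne_zero
  have hm2 : 1 ≤ m₂ := Nat.one_le_iff_ne_zero.2 h2.ne_zero
  have hm10 : (0 : ℝ) < m₁ := by exact_mod_cast hm1
  have hm20 : (0 : ℝ) < m₂ := by exact_mod_cast hm2
  have hl : ∀ p ∈ m₂.primeFactorsList, p.Prime := fun p hp =>
    Nat.prime_of_mem_primeFactorsList hp
  obtain ⟨k1, k2⟩ := US_TL hADJ hTPB hΔ (fp_zh hΔ hM hVK hVGR hACT hQDV) m₂.primeFactorsList hl
    (wp_wv hΔ hm1 hVK hNUI hACT)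
  rw [k1, US_tsum]
  unfold Uf
  rw [← tsum_mul_left]
  refine tsum_congr fun p => ?_
  obtain ⟨e, A⟩ := p
  unfold UT Ut
  rw [Finset.mul_sum]
  refine Finset.sum_congr rfl fun B hB => ?_
  obtain ⟨hA, hd⟩ := mem_rng hB
  have hA' : 1 ≤ A := hA
  have hd' : 4 * A ∣ B ^ 2 + Δ := hd
  have hQ := qf3_mem hA' hd'
  rw [zh_eq hΔ hM hACT hQDV hQ, zq_qf3 hA' hd']
  rcases Nat.eq_zero_or_pos e with rfl | he
  · rw [k2.zero _ hQ]
    have h0 : Real.sqrt (((0 : ℕ) : ℝ) ^ 2 * (A : ℝ)) = 0 := by simp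
    simp only
    rw [h0]
    simp
  · have hw := hWC Δ m₁ m₂ (fun x => Vk (x / (m₁ * Real.sqrt Δ)) / Real.sqrt x) hΔ h1 h2
      (qf3 Δ A B) hQ e he
    have hcg := WL_congr (Δ := Δ) m₂.primeFactorsList hl
      (ω := fun R e => wv m₁ R ((e : ℤ), 0))
      (ω' := fun R e => if e = 0 then 0 else
        (fun x => Vk (x / (m₁ * Real.sqrt Δ)) / Real.sqrt x) ((e : ℝ) ^ 2 * R.1) *
        ((∏ p ∈ m₁.primeFactors, N1 p R.1.toNat R.2.1 R.2.2 e : ℕ) : ℝ)) (by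
        intro R hR e
        simp only
        rcases Nat.eq_zero_or_pos e with rfl | he
        · rw [if_pos rfl]
          have : (((0 : ℕ) : ℤ), (0 : ℤ)) = (0 : ℤ × ℤ) := rfl
          rw [this, wv_zero]
        · rw [if_neg (by omega)]
          unfold wv
          have hD : ((dsc R : ℤ) : ℝ) = Δ := by rw [hR.2]; simp
          have hnu : nu m₁ R ((e : ℤ), 0) =
              ∏ p ∈ m₁.primeFactors, N1 p R.1.toNat R.2.1 R.2.2 e :=
            Finset.prod_congr rfl fun p hp =>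
              nul_e0 (Nat.prime_of_mem_primeFactors hp) hR e
          rw [hnu, hD, val_e0]
          have : (((R.1 * (e : ℤ) ^ 2 : ℤ)) : ℝ) = (e : ℝ) ^ 2 * R.1 := by push_cast; ring
          rw [this]
          ring) (qf3 Δ A B) hQ e
    rw [hcg, hw]
    have e1 : ((qf3 Δ A B).1 : ℝ) = (A : ℝ) := by simp [qf3]
    have e2 : (qf3 Δ A B).1.toNat = A := by simp [qf3]
    have e3 : (qf3 Δ A B).2.1 = (B : ℤ) := rfl
    have e4 : (qf3 Δ A B).2.2 = (((B ^ 2 + Δ) / (4 * A) : ℕ) : ℤ) := rfl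
    rw [e1, e2, e3, e4]
    simp only
    have hx : (0 : ℝ) < (e : ℝ) ^ 2 * A := by
      have : (0 : ℝ) < e := by exact_mod_cast he
      have : (0 : ℝ) < A := by exact_mod_cast hA'
      positivity
    have e5 : (e : ℝ) ^ 2 * A / m₂ / (m₁ * Real.sqrt Δ) =
        (e : ℝ) ^ 2 * A / ((m₁ : ℝ) * m₂ * Real.sqrt Δ) := by
      rw [div_div]; congr 1; ring
    rw [e5, Real.sqrt_div hx.le]
    have h4 : Real.sqrt m₂ ≠ 0 := (Real.sqrt_pos.2 hm20).ne'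
    have h5 : Real.sqrt ((e : ℝ) ^ 2 * A) ≠ 0 := (Real.sqrt_pos.2 hx).ne'
    field_simp

end

theorem pf_UNF (hORB : T_ORB) (hADJ : T_ADJ) (hTPB : T_TPB) (hNUI : T_NUI) (hHK : T_HK)
    (hWC : T_WC) (hVK : T_VK) (hVGR : T_VGR) (hACT : T_ACT) (hQDV : T_QDV) : T_UNF := by
  intro Δ hΔ S c hS ι _ Q hQ hE
  have hVK' := hVK
  obtain ⟨C, hC, hV, -, -, -⟩ := hVK'
  have hsD : 0 < Real.sqrt Δ := Real.sqrt_pos.2 (by exact_mod_cast hΔ)
  set M₀ : ℕ := ∑ m ∈ S, m + 1 with hM₀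
  have hM1 : 1 ≤ M₀ := by omega
  have hM0 : (0 : ℝ) < M₀ := by exact_mod_cast hM1
  have hmM : ∀ m ∈ S, m ≤ M₀ := fun m hm => by
    have : m ≤ ∑ x ∈ S, x :=
      Finset.single_le_sum (f := fun m : ℕ => m) (fun _ _ => Nat.zero_le _) hm
    omega
  have hm1 : ∀ m ∈ S, 1 ≤ m := fun m hm => Nat.one_le_iff_ne_zero.2 (hS m hm).ne_zero
  -- the weight
  set w : QF → ℤ × ℤ → ℝ := fun R v => ∑ m ∈ S, c m * wv m R v with hw
  have hZ : ∀ R : QF, Zc S c R = ∑' v, w R v := by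
    intro R
    unfold Zc
    refine tsum_congr fun v => ?_
    rw [Finset.sum_div]
    refine Finset.sum_congr rfl fun m _ => ?_
    unfold wv
    ring
  have hb : ∀ R ∈ FD Δ, ∀ v, v ≠ 0 → |w R v| ≤
      (∑ m ∈ S, |c m| * (C * ((∏ p ∈ m.primeFactors, (p + 1) : ℕ) : ℝ))) *
        Real.exp (-(6 / (M₀ * Real.sqrt Δ) * val R v)) := by
    intro R hR v hv
    rw [Finset.sum_mul]
    refine (Finset.abs_sum_le_sum_abs _ _).trans (Finset.sum_le_sum fun m hm => ?_)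
    rw [abs_mul, mul_assoc]
    refine mul_le_mul_of_nonneg_left ?_ (abs_nonneg _)
    refine (wv_bound hC hΔ (hm1 m hm) hACT hV hR hv).trans ?_
    refine mul_le_mul_of_nonneg_left (Real.exp_le_exp.2 ?_) (by positivity)
    have hval := val_pos' hΔ hACT hR hv
    have hm0 : (0 : ℝ) < m := by exact_mod_cast hm1 m hm
    have hmm : (m : ℝ) ≤ M₀ := by exact_mod_cast hmM m hm
    apply neg_le_neg
    refine mul_le_mul_of_nonneg_right ?_ (by linarith)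
    exact div_le_div_of_nonneg_left (by norm_num) (by positivity)
      (mul_le_mul_of_nonneg_right hmm hsD.le)
  have h1 := hORB Δ _ (6 / (M₀ * Real.sqrt Δ)) w hΔ (by positivity)
    (fun R _ => by simp [hw, wv_zero])
    (fun R _ g v => by
      simp only [hw]
      exact Finset.sum_congr rfl fun m _ => by rw [wv_act hNUI hACT])
    hb ι Q hQ hE
  have h2 : ∑ i, Zc S c (Q i) ^ 2 = ∑ i, (∑' v, w (Q i) v) ^ 2 :=
    Finset.sum_congr rfl fun i _ => by rw [hZ]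
  rw [h2]
  refine h1.trans (le_of_eq ?_)
  congr 1
  -- evaluate
  have h3 : US Δ (fun R e => w R ((e : ℤ), 0)) (fun R => ∑' v, w R v) =
      US Δ (fun R e => ∑ m ∈ S, c m * (fun R (e : ℕ) => wv m R ((e : ℤ), 0)) R e)
        (fun R => ∑ m ∈ S, (c m * (1 / Real.sqrt m)) *
          TL m.primeFactorsList (zh Δ M₀) R) := by
    refine US_congr (fun R _ e => rfl) fun R hR => ?_
    rw [← hZ, Zc_eq hΔ hVK hVGR hACT S c hS hR]
    refine Finset.sum_congr rfl fun m hm => ?_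
    rw [wv_sum hΔ (hS m hm) (hmM m hm) hVK hACT hHK hR, mul_assoc]
  rw [h3, US_bilin Δ S S c (fun m => c m * (1 / Real.sqrt m))
    (fun m R (e : ℕ) => wv m R ((e : ℤ), 0)) (fun m => TL m.primeFactorsList (zh Δ M₀))
    (fun i hi j hj => (wp_wv hΔ (hm1 i hi) hVK hNUI hACT).summable
      (FP.tl hTPB hΔ (fp_zh hΔ hM1 hVK hVGR hACT hQDV) _
        (fun p hp => Nat.prime_of_mem_primeFactorsList hp)))]
  refine Finset.sum_congr rfl fun m₁ hm₁ => Finset.sum_congr rfl fun m₂ hm₂ => ?_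
  rw [US_pair hΔ (hS m₁ hm₁) (hS m₂ hm₂) hM1 hADJ hTPB hNUI hWC hVK hVGR hACT hQDV]
  have h5 : Real.sqrt m₂ ≠ 0 := (Real.sqrt_pos.2 (by exact_mod_cast hm1 m₂ hm₂)).ne'
  field_simp

end Pool.Agent.H31.CN
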