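import Pool.Agent.H31.CN.T4
import Pool.Agent.H31.CN.MAI

/-!
# (SM2) the second moment over the enlarged family
-/

set_option autoImplicit false

open MeasureTheory Set Filter
open scoped Real

namespace Pool.Agent.H31.CN

theorem exp_sum {c : ℝ} (hc : 0 < c) : Summable (fun x : ℕ × ℕ =>
    Real.exp (-(6 * ((x.1 : ℝ) ^ 2 * x.2 * c))) * (1 + Real.log x.2) / ((x.1 : ℝ) * x.2)) := by
  have hg : Summable (fun n : ℕ => Real.exp (-(3 * c)) ^ n) :=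
    summable_geometric_of_lt_one (Real.exp_pos _).le (by
      rw [Real.exp_lt_one_iff]; linarith)
  refine Summable.of_nonneg_of_le (fun x => ?_) (fun x => ?_)
    (Summable.mul_of_nonneg hg hg (fun n => by positivity) (fun n => by positivity))
  · have := Real.log_natCast_nonneg x.2
    positivity
  · rcases Nat.eq_zero_or_pos x.1 with h1 | h1
    · rw [h1]; simp; positivity
    rcases Nat.eq_zero_or_pos x.2 with h2 | h2
    · rw [h2]; simp; positivity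
    have h1' : (1 : ℝ) ≤ x.1 := by exact_mod_cast h1
    have h2' : (1 : ℝ) ≤ x.2 := by exact_mod_cast h2
    have hl : 1 + Real.log x.2 ≤ x.2 := by
      have := Real.log_le_sub_one_of_pos (show (0 : ℝ) < x.2 by linarith)
      linarith
    have hq : (1 + Real.log x.2) / ((x.1 : ℝ) * x.2) ≤ 1 := by
      rw [div_le_one (by positivity)]
      nlinarith
    have hq0 : 0 ≤ (1 + Real.log x.2) / ((x.1 : ℝ) * x.2) := by
      have := Real.log_natCast_nonneg x.2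
      positivity
    rw [← Real.exp_nat_mul, ← Real.exp_nat_mul, ← Real.exp_add, mul_div_assoc]
    calc Real.exp (-(6 * ((x.1 : ℝ) ^ 2 * x.2 * c))) * ((1 + Real.log x.2) / ((x.1 : ℝ) * x.2))
        ≤ Real.exp (-(6 * ((x.1 : ℝ) ^ 2 * x.2 * c))) * 1 :=
          mul_le_mul_of_nonneg_left hq (Real.exp_pos _).le
      _ ≤ Real.exp ((x.1 : ℝ) * -(3 * c) + (x.2 : ℝ) * -(3 * c)) := by
          rw [mul_one]
          apply Real.exp_le_exp.2
          have : (x.1 : ℝ) + x.2 ≤ 2 * ((x.1 : ℝ) ^ 2 * x.2) := by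
            nlinarith [mul_nonneg (show (0 : ℝ) ≤ (x.1 : ℝ) ^ 2 - 1 by nlinarith)
              (show (0 : ℝ) ≤ (x.2 : ℝ) by linarith),
              mul_nonneg (show (0 : ℝ) ≤ (x.1 : ℝ) - 1 by linarith)
              (show (0 : ℝ) ≤ (x.2 : ℝ) - 1 by linarith),
              mul_nonneg (show (0 : ℝ) ≤ (x.1 : ℝ) ^ 2 - x.1 by nlinarith)
              (show (0 : ℝ) ≤ (x.2 : ℝ) by linarith)]
          nlinarith

theorem cont_aux (hVK : T_VK) (g : ℕ → ℝ) (hg : ∀ n : ℕ, |g n| ≤ 1 + Real.log n) :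
    Continuous (fun Y : ℝ => ∑' x : ℕ × ℕ,
      Vk ((x.1 : ℝ) ^ 2 * x.2 * Real.exp (-Y)) * g x.2 / ((x.1 : ℝ) * x.2)) := by
  obtain ⟨C, hC, hV, -, hd, -⟩ := hVK
  rw [continuous_iff_continuousAt]
  intro Y₀
  have hc : 0 < Real.exp (-(Y₀ + 1)) := Real.exp_pos _
  have h : ContinuousOn (fun Y : ℝ => ∑' x : ℕ × ℕ,
      Vk ((x.1 : ℝ) ^ 2 * x.2 * Real.exp (-Y)) * g x.2 / ((x.1 : ℝ) * x.2)) (Iio (Y₀ + 1)) := by
    refine continuousOn_tsum (u := fun x : ℕ × ℕ => C * (Real.exp (-(6 * ((x.1 : ℝ) ^ 2 * x.2 *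
      Real.exp (-(Y₀ + 1))))) * (1 + Real.log x.2) / ((x.1 : ℝ) * x.2))) (fun x => ?_)
      ((exp_sum hc).mul_left C) (fun x Y hY => ?_)
    · rcases Nat.eq_zero_or_pos x.1 with h1 | h1
      · rw [h1]; simp; exact continuousOn_const
      rcases Nat.eq_zero_or_pos x.2 with h2 | h2
      · rw [h2]; simp; exact continuousOn_const
      refine ContinuousOn.div_const (ContinuousOn.mul ?_ continuousOn_const) _
      intro Y _
      refine ContinuousAt.continuousWithinAt ?_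
      have hpos : 0 < (x.1 : ℝ) ^ 2 * x.2 * Real.exp (-Y) := by positivity
      exact ContinuousAt.comp (f := fun Y : ℝ => (x.1 : ℝ) ^ 2 * x.2 * Real.exp (-Y))
        (hd _ hpos).1.continuousAt (by fun_prop)
    · rcases Nat.eq_zero_or_pos x.1 with h1 | h1
      · rw [h1]; simp
      rcases Nat.eq_zero_or_pos x.2 with h2 | h2
      · rw [h2]; simp
      have hpos : 0 < (x.1 : ℝ) ^ 2 * x.2 * Real.exp (-Y) := by positivity
      have hY' : Y < Y₀ + 1 := hY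
      rw [norm_div, norm_mul, Real.norm_eq_abs, Real.norm_eq_abs, Real.norm_eq_abs,
        abs_of_pos (show (0 : ℝ) < (x.1 : ℝ) * x.2 by positivity), ← mul_div_assoc, ← mul_assoc]
      refine div_le_div_of_nonneg_right ?_ (by positivity)
      refine mul_le_mul ((hV _ hpos).trans ?_) (hg _) (abs_nonneg _) (by positivity)
      refine mul_le_mul_of_nonneg_left (Real.exp_le_exp.2 ?_) hC.le
      have : Real.exp (-(Y₀ + 1)) ≤ Real.exp (-Y) := Real.exp_le_exp.2 (by linarith)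
      have h3 : (x.1 : ℝ) ^ 2 * x.2 * Real.exp (-(Y₀ + 1)) ≤
          (x.1 : ℝ) ^ 2 * x.2 * Real.exp (-Y) := mul_le_mul_of_nonneg_left this (by positivity)
      linarith
  exact h.continuousAt (Iio_mem_nhds (by linarith))

theorem S0_cont (hVK : T_VK) : Continuous S0 := by
  have h := cont_aux hVK (fun _ => 1) (fun n => by
    rw [abs_one]
    linarith [Real.log_natCast_nonneg n])
  simp only [mul_one] at h
  exact h

theorem S1_cont (hVK : T_VK) : Continuous S1 :=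
  cont_aux hVK (fun n => Real.log n) (fun n => by
    rw [abs_of_nonneg (Real.log_natCast_nonneg n)]
    linarith)

theorem Ph_E (lam x y : ℝ) : Ph lam (E x y) = SS (lam - x) (lam - y) := lin_E _ x y

theorem Ph_cont (hVK : T_VK) (r : GR) : Continuous (fun lam => Ph lam r) := by
  induction r using GR_induction with
  | h0 => simp only [map_zero]; exact continuous_const
  | hadd r s hr hs => simp only [map_add]; exact hr.add hs
  | hE a x y =>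
    simp only [map_smul, Ph_E, smul_eq_mul]
    refine continuous_const.mul ?_
    unfold SS
    have h0 : Continuous (fun lam => S0 (lam - y)) := (S0_cont hVK).comp (by fun_prop)
    have h1 : Continuous (fun lam => S1 (lam - y)) := (S1_cont hVK).comp (by fun_prop)
    exact (((continuous_id.sub continuous_const).add continuous_const).mul h0).sub h1

section
variable {G : ℝ → ℝ} {η : ℝ}

theorem G_supp (h : ∀ u, u ∉ Icc η 1 → G u = 0) {X D : ℝ} (hX : 0 < X)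
    (hD : G (D / X) ≠ 0) : η * X ≤ D ∧ D ≤ X := by
  have : D / X ∈ Icc η 1 := by
    by_contra hh
    exact hD (h _ hh)
  rw [mem_Icc, le_div_iff₀ hX, div_le_one hX] at this
  exact this

theorem GPh_int (hη : 0 < η) (hG : ContDiff ℝ (⊤ : ℕ∞) G) (h : ∀ u, u ∉ Icc η 1 → G u = 0)
    {X : ℝ} (hX : 0 < X) (hVK : T_VK) (r : GR) :
    IntegrableOn (fun D : ℝ => G (D / X) * Ph (Real.log (Real.sqrt D)) r) (Ioi 0) := by
  have hc : ContinuousOn (fun D : ℝ => G (D / X) * Ph (Real.log (Real.sqrt D)) r)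
      (Icc (η * X) X) := by
    refine ContinuousOn.mul ?_ ?_
    · exact (hG.continuous.comp (continuous_id.div_const X)).continuousOn
    · refine (Ph_cont hVK r).comp_continuousOn ?_
      refine ContinuousOn.log Real.continuous_sqrt.continuousOn fun D hD => ?_
      exact (Real.sqrt_pos.2 (lt_of_lt_of_le (by positivity) hD.1)).ne'
  have h1 : IntegrableOn (fun D : ℝ => G (D / X) * Ph (Real.log (Real.sqrt D)) r)
      (Icc (η * X) X) := hc.integrableOn_compact isCompact_Icc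
  have h2 : Integrable (fun D : ℝ => G (D / X) * Ph (Real.log (Real.sqrt D)) r) := by
    refine h1.integrable_of_forall_notMem_eq_zero fun D hD => ?_
    have : G (D / X) = 0 := by
      by_contra hh
      exact hD (G_supp h hX hh)
    rw [this, zero_mul]
  exact h2.integrableOn

theorem G_int (hG : ContDiff ℝ (⊤ : ℕ∞) G) (h : ∀ u, u ∉ Icc η 1 → G u = 0) :
    Integrable G :=
  (hG.continuous.continuousOn.integrableOn_compact isCompact_Icc).integrable_of_forall_notMem_eq_zero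
    (fun u hu => h u hu)

theorem G_scale (F : ℝ → ℝ) {X : ℝ} (hX : 0 < X) :
    ∫ D in Ioi (0 : ℝ), F (D / X) = X * ∫ u in Ioi (0 : ℝ), F u := by
  have h := integral_comp_mul_left_Ioi F 0 (inv_pos.2 hX)
  rw [mul_zero, inv_inv, smul_eq_mul] at h
  rw [← h]
  refine setIntegral_congr_fun measurableSet_Ioi fun D _ => ?_
  show F (D / X) = F (X⁻¹ * D)
  rw [div_eq_inv_mul]

/-- the integral against the main term as a linear functional -/
noncomputable def IL (hη : 0 < η) (hG : ContDiff ℝ (⊤ : ℕ∞) G)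
    (h : ∀ u, u ∉ Icc η 1 → G u = 0) {X : ℝ} (hX : 0 < X) (hVK : T_VK) : GR →ₗ[ℝ] ℝ where
  toFun r := ∫ D in Ioi (0 : ℝ), G (D / X) * Ph (Real.log (Real.sqrt D)) r
  map_add' r s := by
    simp only [map_add, mul_add]
    exact integral_add (GPh_int hη hG h hX hVK r) (GPh_int hη hG h hX hVK s)
  map_smul' a r := by
    simp only [map_smul, smul_eq_mul, RingHom.id_apply]
    rw [← integral_const_mul]
    refine integral_congr_ae (Filter.Eventually.of_forall fun D => ?_)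
    show G (D / X) * (a * Ph (Real.log (Real.sqrt D)) r) =
      a * (G (D / X) * Ph (Real.log (Real.sqrt D)) r)
    ring

end

theorem US_bad {N Δ : ℕ} (h : ¬ good N Δ) (n₁ n₂ : ℕ) (u v : QF → ℕ → ℝ) (F : QF → ℝ) :
    US Δ (fun Q e => u Q e * wN N n₁ n₂ e Q.1.toNat Q.2.1 Q.2.2 * v Q e) F = 0 := by
  unfold US
  refine (tsum_congr (fun p => ?_)).trans tsum_zero
  refine Finset.sum_eq_zero fun B hB => ?_
  rw [Finset.mem_filter, Finset.mem_range] at hB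
  obtain ⟨hB1, hB2⟩ := hB
  have h4 : (4 * (p.2 : ℤ) * (((B ^ 2 + Δ) / (4 * p.2) : ℕ) : ℤ) - (B : ℤ) ^ 2) = Δ := by
    have := Nat.mul_div_cancel' hB2
    have h5 : ((4 * p.2 * ((B ^ 2 + Δ) / (4 * p.2)) : ℕ) : ℤ) = ((B ^ 2 + Δ : ℕ) : ℤ) := by
      rw [this]
    push_cast at h5 ⊢
    linarith
  have : wN N n₁ n₂ p.1 ((p.2 : ℤ)).toNat (B : ℤ) (((B ^ 2 + Δ) / (4 * p.2) : ℕ) : ℤ) = 0 := by
    unfold wN
    rw [Int.toNat_natCast, h4, if_neg h]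
  simp only [this]
  ring

theorem cm_bd (P : Polynomial ℝ) : ∃ K : ℝ, 0 < K ∧ ∀ (M : ℝ) (N m : ℕ), 1 ≤ M → 1 ≤ m →
    |cm P M N m| ≤ K := by
  obtain ⟨K, hK, hk⟩ := poly_bd P
  refine ⟨K, hK, fun M N m hM hm => ?_⟩
  unfold cm
  split_ifs with h
  · rw [abs_mul]
    have h1 : |mr m| ≤ 1 := by
      unfold mr
      have := ArithmeticFunction.abs_moebius_le_one (n := m)
      exact_mod_cast this
    have hm0 : (0 : ℝ) < m := by exact_mod_cast hm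
    have hm1 : (1 : ℝ) ≤ m := by exact_mod_cast hm
    have h2 : |P.eval (Real.log (M / m) / Real.log M)| ≤ K := by
      rcases eq_or_lt_of_le hM with h0 | h0
      · rw [← h0]; simp
        exact hk 0 le_rfl zero_le_one |>.trans' (by simp)
      · have hlM : 0 < Real.log M := Real.log_pos h0
        refine hk _ (div_nonneg (Real.log_nonneg ?_) hlM.le) ?_
        · rw [le_div_iff₀ hm0]; linarith [h.1]
        · rw [div_le_one hlM]
          exact Real.log_le_log (by positivity) (div_le_self (by linarith) hm1)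
    calc |mr m| * |P.eval (Real.log (M / m) / Real.log M)| ≤ 1 * K :=
          mul_le_mul h1 h2 (abs_nonneg _) zero_le_one
      _ = K := one_mul K
  · rw [abs_zero]; exact hK.le


/-- the unfolded sum of the average formula -/
noncomputable def Au (N : ℕ) (Δ n₁ n₂ m₁ m₂ : ℕ) : ℝ :=
  US Δ (fun Q e => Vk ((e : ℝ) ^ 2 * Q.1 /
    (((n₁ * n₂ : ℕ) : ℝ) * m₁ * m₂ * Real.sqrt Δ)) / Real.sqrt ((e : ℝ) ^ 2 * Q.1) *
    wN N n₁ n₂ e Q.1.toNat Q.2.1 Q.2.2 * Nw m₁ m₂ Q.1.toNat Q.2.1 Q.2.2 e)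
    (fun Q => zf Q.1 Q.2.1 Δ)

open Classical in
theorem fsum {G : ℝ → ℝ} {η : ℝ} (hη : 0 < η) (h : ∀ u, u ∉ Icc η 1 → G u = 0) {X : ℝ}
    (hX : 0 < X) (hUFC : T_UFC) (P : Polynomial ℝ) (M : ℝ) (N : ℕ) (hN1 : 1 ≤ N) (hN2 : 2 ∣ N)
    (hN : Squarefree N) :
    (∑' Δ : ℕ, if good N Δ then G (Δ / X) * (2 * ∑ m₁ ∈ SD M N, ∑ m₂ ∈ SD M N,
          CD P M N Δ m₁ * CD P M N Δ m₂ * Uf m₁ m₂ Δ) else 0) =
      2 * ∑ n₁ ∈ N.divisors, ∑ n₂ ∈ N.divisors, ∑ m₁ ∈ Finset.Icc 1 ⌊M⌋₊,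
        ∑ m₂ ∈ Finset.Icc 1 ⌊M⌋₊, cm P M N m₁ * cm P M N m₂ *
          ∑' Δ : ℕ, G (Δ / X) * Au N Δ n₁ n₂ m₁ m₂ := by
  have hG0 : ∀ Δ : ℕ, Δ ∉ Finset.range (⌊X⌋₊ + 1) → G (Δ / X) = 0 := by
    intro Δ hΔ
    by_contra hh
    have := (G_supp h hX hh).2
    rw [Finset.mem_range, not_lt] at hΔ
    have h2 : Δ ≤ ⌊X⌋₊ := Nat.le_floor this
    omega
  rw [tsum_eq_sum (s := Finset.range (⌊X⌋₊ + 1)) (fun Δ hΔ => by
    rw [hG0 Δ hΔ, zero_mul, ite_self])]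
  have h1 : ∀ n₁ n₂ m₁ m₂ : ℕ, ∑' Δ : ℕ, G (Δ / X) * Au N Δ n₁ n₂ m₁ m₂ =
      ∑ Δ ∈ Finset.range (⌊X⌋₊ + 1), G (Δ / X) * Au N Δ n₁ n₂ m₁ m₂ := by
    intro n₁ n₂ m₁ m₂
    exact tsum_eq_sum (fun Δ hΔ => by rw [hG0 Δ hΔ, zero_mul])
  have h2 : ∀ Δ : ℕ, (if good N Δ then G (Δ / X) * (2 * ∑ m₁ ∈ SD M N, ∑ m₂ ∈ SD M N,
          CD P M N Δ m₁ * CD P M N Δ m₂ * Uf m₁ m₂ Δ) else 0) =
      2 * ∑ n₁ ∈ N.divisors, ∑ n₂ ∈ N.divisors, ∑ m₁ ∈ Finset.Icc 1 ⌊M⌋₊,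
        ∑ m₂ ∈ Finset.Icc 1 ⌊M⌋₊, cm P M N m₁ * cm P M N m₂ *
          (G (Δ / X) * Au N Δ n₁ n₂ m₁ m₂) := by
    intro Δ
    by_cases hg : good N Δ
    · rw [if_pos hg]
      rcases Nat.eq_zero_or_pos Δ with h0 | h0
      · have : G ((Δ : ℕ) / X) = 0 := by
          apply h
          rw [h0]
          simp only [Nat.cast_zero, zero_div, mem_Icc, not_and, not_le]
          intro h3
          linarith
        simp only [this, zero_mul, mul_zero, Finset.sum_const_zero]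
      · rw [hUFC P M N Δ hN1 hN2 hN h0 hg]
        simp only [Finset.mul_sum]
        refine Finset.sum_congr rfl fun n₁ _ => Finset.sum_congr rfl fun n₂ _ =>
          Finset.sum_congr rfl fun m₁ _ => Finset.sum_congr rfl fun m₂ _ => ?_
        unfold Au
        ring
    · rw [if_neg hg]
      have : ∀ n₁ n₂ m₁ m₂ : ℕ, Au N Δ n₁ n₂ m₁ m₂ = 0 := by
        intro n₁ n₂ m₁ m₂
        exact US_bad hg n₁ n₂ (fun Q e => Vk ((e : ℝ) ^ 2 * Q.1 /
          (((n₁ * n₂ : ℕ) : ℝ) * m₁ * m₂ * Real.sqrt Δ)) / Real.sqrt ((e : ℝ) ^ 2 * Q.1))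
          (fun Q e => (Nw m₁ m₂ Q.1.toNat Q.2.1 Q.2.2 e : ℝ)) _
      simp only [this, mul_zero, Finset.sum_const_zero]
  rw [Finset.sum_congr rfl (fun Δ _ => h2 Δ), ← Finset.mul_sum]
  congr 1
  simp only [h1]
  rw [Finset.sum_comm]
  refine Finset.sum_congr rfl fun n₁ _ => ?_
  rw [Finset.sum_comm]
  refine Finset.sum_congr rfl fun n₂ _ => ?_
  rw [Finset.sum_comm]
  refine Finset.sum_congr rfl fun m₁ _ => ?_
  rw [Finset.sum_comm]
  refine Finset.sum_congr rfl fun m₂ _ => ?_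
  rw [Finset.mul_sum]

/-- the element at the small primes -/
noncomputable def Nn (T : Finset (ℕ × ℕ)) (f : ℕ → ℕ → ℕ × ℕ → ℝ) (n₁ n₂ : ℕ) : GR :=
  ∑ x ∈ T, (f n₁ n₂ x / ((x.1 : ℝ) * x.2)) •
    E (Real.log x.1) (Real.log (x.1 * (x.2 : ℝ) ^ 2 / ((n₁ * n₂ : ℕ) : ℝ)))

theorem sum_main {G : ℝ → ℝ} {η : ℝ} (hη : 0 < η) (hG : ContDiff ℝ (⊤ : ℕ∞) G)
    (h : ∀ u, u ∉ Icc η 1 → G u = 0) {X : ℝ} (hX : 0 < X) (hVK : T_VK) (hMNR : T_MNR)
    (P : Polynomial ℝ) (M : ℝ) (N : ℕ) (hN1 : 1 ≤ N) (T : Finset (ℕ × ℕ))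
    (f : ℕ → ℕ → ℕ × ℕ → ℝ) (hT : ∀ x ∈ T, x.1 ∣ N ^ 2 ∧ x.2 ∣ N ^ 2)
    (hf : ∀ n₁ n₂ e A, n₁ ∣ N → n₂ ∣ N → 1 ≤ e → 1 ≤ A →
      wbar (8 * N ^ 2) (wN N n₁ n₂) e A = ∑ x ∈ T, if x.1 ∣ A ∧ x.2 ∣ e then f n₁ n₂ x else 0) :
    ∑ n₁ ∈ N.divisors, ∑ n₂ ∈ N.divisors, ∑ m₁ ∈ Finset.Icc 1 ⌊M⌋₊,
        ∑ m₂ ∈ Finset.Icc 1 ⌊M⌋₊, cm P M N m₁ * cm P M N m₂ *
          ∫ D in Ioi (0 : ℝ), G (D / X) * Mn (8 * N ^ 2) (n₁ * n₂) m₁ m₂ (wN N n₁ n₂) D =
      ∫ D in Ioi (0 : ℝ), G (D / X) * Ph (Real.log (Real.sqrt D))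
        ((∑ n₁ ∈ N.divisors, ∑ n₂ ∈ N.divisors, Nn T f n₁ n₂) *
          ∑ m₁ ∈ Finset.Icc 1 ⌊M⌋₊, ∑ m₂ ∈ Finset.Icc 1 ⌊M⌋₊,
            (cm P M N m₁ * cm P M N m₂) • ka m₁ m₂) := by
  have h1 : ∀ n₁ ∈ N.divisors, ∀ n₂ ∈ N.divisors, ∀ m₁ ∈ Finset.Icc 1 ⌊M⌋₊,
      ∀ m₂ ∈ Finset.Icc 1 ⌊M⌋₊, cm P M N m₁ * cm P M N m₂ *
          ∫ D in Ioi (0 : ℝ), G (D / X) * Mn (8 * N ^ 2) (n₁ * n₂) m₁ m₂ (wN N n₁ n₂) D =
      IL hη hG h hX hVK (Nn T f n₁ n₂ * ((cm P M N m₁ * cm P M N m₂) • ka m₁ m₂)) := by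
    intro n₁ hn₁ n₂ hn₂ m₁ hm₁ m₂ hm₂
    rw [mul_smul_comm, map_smul, smul_eq_mul]
    by_cases hc : cm P M N m₁ * cm P M N m₂ = 0
    · rw [hc, zero_mul, zero_mul]
    · congr 1
      have hc1 : cm P M N m₁ ≠ 0 := fun h0 => hc (by rw [h0, zero_mul])
      have hc2 : cm P M N m₂ ≠ 0 := fun h0 => hc (by rw [h0, mul_zero])
      have hs1 : Squarefree m₁ := by_contra fun hh => hc1 (cm_sq P M N m₁ hh)
      have hs2 : Squarefree m₂ := by_contra fun hh => hc2 (cm_sq P M N m₂ hh)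
      have hp1 : Nat.Coprime m₁ N := by_contra fun hh => hc1 (cm_cop P M N m₁ hh)
      have hp2 : Nat.Coprime m₂ N := by_contra fun hh => hc2 (cm_cop P M N m₂ hh)
      have hn1 : n₁ ∣ N := Nat.dvd_of_mem_divisors hn₁
      have hn2 : n₂ ∣ N := Nat.dvd_of_mem_divisors hn₂
      have hn : 1 ≤ n₁ * n₂ := Nat.mul_pos (Nat.pos_of_dvd_of_pos hn1 hN1)
        (Nat.pos_of_dvd_of_pos hn2 hN1)
      have hcop : Nat.Coprime (N ^ 2) (m₁ * m₂) :=
        Nat.Coprime.pow_left 2 (Nat.Coprime.mul_right hp1.symm hp2.symm)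
      show _ = ∫ D in Ioi (0 : ℝ), G (D / X) * Ph (Real.log (Real.sqrt D))
        (Nn T f n₁ n₂ * ka m₁ m₂)
      refine setIntegral_congr_fun measurableSet_Ioi fun D hD => ?_
      have hM := hMNR (8 * N ^ 2) (n₁ * n₂) m₁ m₂ (wN N n₁ n₂) T (f n₁ n₂) D hn hs1 hs2
        (fun x hx => ⟨Nat.pos_of_dvd_of_pos (hT x hx).1 (by positivity),
          Nat.pos_of_dvd_of_pos (hT x hx).2 (by positivity)⟩)
        (fun x hx => ⟨Nat.Coprime.coprime_dvd_left (hT x hx).1 hcop,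
          Nat.Coprime.coprime_dvd_left (hT x hx).2 hcop⟩) hD
        (fun e A he hA => hf n₁ n₂ e A hn1 hn2 he hA)
      show G (D / X) * Mn (8 * N ^ 2) (n₁ * n₂) m₁ m₂ (wN N n₁ n₂) D = _
      rw [hM]
      rfl
  have h2 : IL hη hG h hX hVK ((∑ n₁ ∈ N.divisors, ∑ n₂ ∈ N.divisors, Nn T f n₁ n₂) *
          ∑ m₁ ∈ Finset.Icc 1 ⌊M⌋₊, ∑ m₂ ∈ Finset.Icc 1 ⌊M⌋₊,
            (cm P M N m₁ * cm P M N m₂) • ka m₁ m₂) =
      ∑ n₁ ∈ N.divisors, ∑ n₂ ∈ N.divisors, ∑ m₁ ∈ Finset.Icc 1 ⌊M⌋₊,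
        ∑ m₂ ∈ Finset.Icc 1 ⌊M⌋₊, IL hη hG h hX hVK
          (Nn T f n₁ n₂ * ((cm P M N m₁ * cm P M N m₂) • ka m₁ m₂)) := by
    rw [Finset.sum_mul, map_sum]
    refine Finset.sum_congr rfl fun n₁ _ => ?_
    rw [Finset.sum_mul, map_sum]
    refine Finset.sum_congr rfl fun n₂ _ => ?_
    rw [Finset.mul_sum, map_sum]
    refine Finset.sum_congr rfl fun m₁ _ => ?_
    rw [Finset.mul_sum, map_sum]
  show _ = IL hη hG h hX hVK _
  rw [h2]
  exact Finset.sum_congr rfl fun n₁ hn₁ => Finset.sum_congr rfl fun n₂ hn₂ =>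
    Finset.sum_congr rfl fun m₁ hm₁ => Finset.sum_congr rfl fun m₂ hm₂ =>
      h1 n₁ hn₁ n₂ hn₂ m₁ hm₁ m₂ hm₂

theorem log_near {η X D : ℝ} (hη : 0 < η) (hX : 0 < X) (h1 : η * X ≤ D) (h2 : D ≤ X) :
    |Real.log (Real.sqrt D) - 1 / 2 * Real.log X| ≤ |Real.log η| := by
  have hD : 0 < D := lt_of_lt_of_le (by positivity) h1
  rw [Real.log_sqrt hD.le]
  have h3 : Real.log D ≤ Real.log X := Real.log_le_log hD h2
  have h4 : Real.log η + Real.log X ≤ Real.log D := by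
    rw [← Real.log_mul hη.ne' hX.ne']
    exact Real.log_le_log (by positivity) h1
  have h5 := neg_abs_le (Real.log η)
  have h6 := abs_nonneg (Real.log η)
  rw [abs_le]
  constructor <;> linarith

theorem pf_SM2 (hAVG : T_AVG) (hMNR : T_MNR) (hMAI : T_MAI) (hNEL : T_NEL) (hWDN : T_WDN)
    (hUFC : T_UFC) (hVK : T_VK) : T_SM2 := by
  intro G η hη hG h P N θ ε hP hN1 hN2 hN hθ hθ' hε
  obtain ⟨T, f, hT, hf, hmass⟩ := hNEL N hN1 hN2 hN
  obtain ⟨K, hK, hk⟩ := cm_bd P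
  set N₀ : GR := ∑ n₁ ∈ N.divisors, ∑ n₂ ∈ N.divisors, Nn T f n₁ n₂ with hN₀
  set Gi : ℝ := ∫ u in Ioi (0 : ℝ), |G u| with hGi
  have hGi0 : 0 ≤ Gi := integral_nonneg fun u => abs_nonneg _
  set δ : ℝ := min (1 / 100) (1 / 4 - θ) with hδ
  have hδ0 : 0 < δ := lt_min (by norm_num) (by linarith)
  have hδ1 : δ ≤ 1 / 100 := min_le_left _ _
  have hδ2 : θ ≤ 1 / 4 - δ := by
    have := min_le_right (1 / 100 : ℝ) (1 / 4 - θ)
    linarith
  have hq : 1 ≤ 8 * N ^ 2 := by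
    have : 0 < N ^ 2 := by positivity
    omega
  -- the thresholds
  have hA : ∀ n : ℕ × ℕ, ∃ X₀ : ℝ, n.1 ∣ N → n.2 ∣ N → ∀ X, X₀ ≤ X → ∀ (m₁ m₂ : ℕ),
      Squarefree m₁ → Squarefree m₂ → Nat.Coprime (8 * N ^ 2) m₁ →
      Nat.Coprime (8 * N ^ 2) m₂ → (m₁ : ℝ) ≤ X ^ (1 / 4 - δ) → (m₂ : ℝ) ≤ X ^ (1 / 4 - δ) →
      |(∑' Δ : ℕ, G (Δ / X) * Au N Δ n.1 n.2 m₁ m₂) -
        (1 / 2) * ∫ D in Ioi (0 : ℝ), G (D / X) *
          Mn (8 * N ^ 2) (n.1 * n.2) m₁ m₂ (wN N n.1 n.2) D| ≤ X ^ (-1 : ℝ) := by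
    intro n
    by_cases hn : n.1 ∣ N ∧ n.2 ∣ N
    · obtain ⟨hn1, hn2⟩ := hn
      have hn' : 1 ≤ n.1 * n.2 := Nat.mul_pos (Nat.pos_of_dvd_of_pos hn1 hN1)
        (Nat.pos_of_dvd_of_pos hn2 hN1)
      obtain ⟨X₀, hX₀⟩ := hAVG G η hη hG h (8 * N ^ 2) (n.1 * n.2) ((4 * N : ℝ) ^ 8) δ hq hn'
        hδ0 hδ1
      exact ⟨X₀, fun _ _ X hX m₁ m₂ hs1 hs2 hc1 hc2 hm1 hm2 => hX₀ X hX m₁ m₂ (wN N n.1 n.2)
        (hWDN N hN1 hN2 hN n.1 n.2 hn1 hn2) hs1 hs2 hc1 hc2 hm1 hm2⟩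
    · exact ⟨0, fun h1 h2 => absurd ⟨h1, h2⟩ hn⟩
  choose X₁ hX₁ using hA
  obtain ⟨X₂, hX₂⟩ := hMAI N₀ P N θ |Real.log η| (ε / (2 * (Gi + 1))) hP hN1 hN2 hN hθ hθ'
    (by positivity)
  set c : ℝ := (N.divisors.card : ℝ) with hc
  set X₃ : ℝ := 4 * (c * (c * K ^ 2)) / ε with hX₃
  refine ⟨max (max 1 X₂) (max X₃ (∑ n ∈ N.divisors ×ˢ N.divisors, |X₁ n|)), fun X hX => ?_⟩
  have hXa : 1 ≤ X := ((le_max_left _ _).trans (le_max_left _ _)).trans hX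
  have hXb : X₂ ≤ X := ((le_max_right _ _).trans (le_max_left _ _)).trans hX
  have hXc : X₃ ≤ X := ((le_max_left _ _).trans (le_max_right _ _)).trans hX
  have hXd : ∑ n ∈ N.divisors ×ˢ N.divisors, |X₁ n| ≤ X :=
    ((le_max_right _ _).trans (le_max_right _ _)).trans hX
  have hX0 : 0 < X := by linarith
  have hM1 : 1 ≤ X ^ θ := Real.one_le_rpow hXa hθ.le
  rw [fsum hη h hX0 hUFC P (X ^ θ) N hN1 hN2 hN]
  set M := X ^ θ with hM
  -- the error of the average formula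
  have herr : |2 * (∑ n₁ ∈ N.divisors, ∑ n₂ ∈ N.divisors, ∑ m₁ ∈ Finset.Icc 1 ⌊M⌋₊,
        ∑ m₂ ∈ Finset.Icc 1 ⌊M⌋₊, cm P M N m₁ * cm P M N m₂ *
          ∑' Δ : ℕ, G (Δ / X) * Au N Δ n₁ n₂ m₁ m₂) -
      ∑ n₁ ∈ N.divisors, ∑ n₂ ∈ N.divisors, ∑ m₁ ∈ Finset.Icc 1 ⌊M⌋₊,
        ∑ m₂ ∈ Finset.Icc 1 ⌊M⌋₊, cm P M N m₁ * cm P M N m₂ *
          ∫ D in Ioi (0 : ℝ), G (D / X) *
            Mn (8 * N ^ 2) (n₁ * n₂) m₁ m₂ (wN N n₁ n₂) D| ≤ ε / 2 * X := by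
    have hterm : ∀ n₁ ∈ N.divisors, ∀ n₂ ∈ N.divisors, ∀ m₁ ∈ Finset.Icc 1 ⌊M⌋₊,
        ∀ m₂ ∈ Finset.Icc 1 ⌊M⌋₊, |2 * (cm P M N m₁ * cm P M N m₂ *
          ∑' Δ : ℕ, G (Δ / X) * Au N Δ n₁ n₂ m₁ m₂) - cm P M N m₁ * cm P M N m₂ *
          ∫ D in Ioi (0 : ℝ), G (D / X) *
            Mn (8 * N ^ 2) (n₁ * n₂) m₁ m₂ (wN N n₁ n₂) D| ≤ 2 * K ^ 2 * X⁻¹ := by
      intro n₁ hn₁ n₂ hn₂ m₁ hm₁ m₂ hm₂
      rw [Finset.mem_Icc] at hm₁ hm₂
      by_cases hcc : cm P M N m₁ * cm P M N m₂ = 0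
      · rw [hcc]; simp; positivity
      · have hc1 : cm P M N m₁ ≠ 0 := fun h0 => hcc (by rw [h0, zero_mul])
        have hc2 : cm P M N m₂ ≠ 0 := fun h0 => hcc (by rw [h0, mul_zero])
        have hs1 : Squarefree m₁ := by_contra fun hh => hc1 (cm_sq P M N m₁ hh)
        have hs2 : Squarefree m₂ := by_contra fun hh => hc2 (cm_sq P M N m₂ hh)
        have hp1 : Nat.Coprime m₁ N := by_contra fun hh => hc1 (cm_cop P M N m₁ hh)
        have hp2 : Nat.Coprime m₂ N := by_contra fun hh => hc2 (cm_cop P M N m₂ hh)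
        have hcop : ∀ m, Nat.Coprime m N → Nat.Coprime (8 * N ^ 2) m := by
          intro m hm
          refine Nat.Coprime.mul_left ?_ (Nat.Coprime.pow_left 2 hm.symm)
          have : Nat.Coprime 2 m := Nat.Coprime.coprime_dvd_left hN2 hm.symm
          exact Nat.Coprime.pow_left 3 this
        have hle : ∀ m : ℕ, m ≤ ⌊M⌋₊ → (m : ℝ) ≤ X ^ (1 / 4 - δ) := by
          intro m hm
          calc (m : ℝ) ≤ M := (Nat.cast_le.2 hm).trans (Nat.floor_le (by linarith))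
            _ ≤ X ^ (1 / 4 - δ) := Real.rpow_le_rpow_of_exponent_le hXa hδ2
        have hXn : X₁ (n₁, n₂) ≤ X := by
          refine (le_abs_self _).trans ((Finset.single_le_sum (f := fun n => |X₁ n|)
            (fun _ _ => abs_nonneg _) ?_).trans hXd)
          exact Finset.mem_product.2 ⟨hn₁, hn₂⟩
        have hav := hX₁ (n₁, n₂) (Nat.dvd_of_mem_divisors hn₁) (Nat.dvd_of_mem_divisors hn₂) X
          hXn m₁ m₂ hs1 hs2 (hcop _ hp1) (hcop _ hp2) (hle _ hm₁.2) (hle _ hm₂.2)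
        rw [Real.rpow_neg_one] at hav
        simp only at hav
        have e : 2 * (cm P M N m₁ * cm P M N m₂ *
          ∑' Δ : ℕ, G (Δ / X) * Au N Δ n₁ n₂ m₁ m₂) - cm P M N m₁ * cm P M N m₂ *
          ∫ D in Ioi (0 : ℝ), G (D / X) *
            Mn (8 * N ^ 2) (n₁ * n₂) m₁ m₂ (wN N n₁ n₂) D =
          2 * (cm P M N m₁ * cm P M N m₂) * ((∑' Δ : ℕ, G (Δ / X) * Au N Δ n₁ n₂ m₁ m₂) -
            (1 / 2) * ∫ D in Ioi (0 : ℝ), G (D / X) *
            Mn (8 * N ^ 2) (n₁ * n₂) m₁ m₂ (wN N n₁ n₂) D) := by ring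
        rw [e, abs_mul, abs_mul, abs_mul, abs_two]
        have hb1 := hk M N m₁ hM1 hm₁.1
        have hb2 := hk M N m₂ hM1 hm₂.1
        calc 2 * (|cm P M N m₁| * |cm P M N m₂|) * |(∑' Δ : ℕ, G (Δ / X) *
              Au N Δ n₁ n₂ m₁ m₂) - (1 / 2) * ∫ D in Ioi (0 : ℝ), G (D / X) *
              Mn (8 * N ^ 2) (n₁ * n₂) m₁ m₂ (wN N n₁ n₂) D|
            ≤ 2 * (K * K) * X⁻¹ := by
              refine mul_le_mul ?_ hav (abs_nonneg _) (by positivity)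
              refine mul_le_mul_of_nonneg_left ?_ (by norm_num)
              exact mul_le_mul hb1 hb2 (abs_nonneg _) hK.le
          _ = 2 * K ^ 2 * X⁻¹ := by ring
    simp only [Finset.mul_sum, ← Finset.sum_sub_distrib]
    have hcard : ((Finset.Icc 1 ⌊M⌋₊).card : ℝ) ≤ M := by
      rw [Nat.card_Icc]
      simp only [Nat.add_sub_cancel]
      exact Nat.floor_le (by linarith)
    have hMM : M * M ≤ X := by
      rw [hM, ← Real.rpow_add hX0]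
      calc X ^ (θ + θ) ≤ X ^ (1 : ℝ) := Real.rpow_le_rpow_of_exponent_le hXa (by linarith)
        _ = X := Real.rpow_one X
    calc |∑ n₁ ∈ N.divisors, ∑ n₂ ∈ N.divisors, ∑ m₁ ∈ Finset.Icc 1 ⌊M⌋₊,
          ∑ m₂ ∈ Finset.Icc 1 ⌊M⌋₊, (2 * (cm P M N m₁ * cm P M N m₂ *
          ∑' Δ : ℕ, G (Δ / X) * Au N Δ n₁ n₂ m₁ m₂) - cm P M N m₁ * cm P M N m₂ *
          ∫ D in Ioi (0 : ℝ), G (D / X) *
            Mn (8 * N ^ 2) (n₁ * n₂) m₁ m₂ (wN N n₁ n₂) D)|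
        ≤ ∑ n₁ ∈ N.divisors, ∑ n₂ ∈ N.divisors, ∑ m₁ ∈ Finset.Icc 1 ⌊M⌋₊,
          ∑ m₂ ∈ Finset.Icc 1 ⌊M⌋₊, 2 * K ^ 2 * X⁻¹ := by
          refine (Finset.abs_sum_le_sum_abs _ _).trans (Finset.sum_le_sum fun n₁ hn₁ => ?_)
          refine (Finset.abs_sum_le_sum_abs _ _).trans (Finset.sum_le_sum fun n₂ hn₂ => ?_)
          refine (Finset.abs_sum_le_sum_abs _ _).trans (Finset.sum_le_sum fun m₁ hm₁ => ?_)
          refine (Finset.abs_sum_le_sum_abs _ _).trans (Finset.sum_le_sum fun m₂ hm₂ => ?_)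
          exact hterm n₁ hn₁ n₂ hn₂ m₁ hm₁ m₂ hm₂
      _ = c * (c * ((Finset.Icc 1 ⌊M⌋₊).card * ((Finset.Icc 1 ⌊M⌋₊).card *
            (2 * K ^ 2 * X⁻¹)))) := by
          simp only [Finset.sum_const, nsmul_eq_mul]
          rw [← hc]
      _ ≤ c * (c * (M * (M * (2 * K ^ 2 * X⁻¹)))) := by
          have hX' : 0 ≤ 2 * K ^ 2 * X⁻¹ := by positivity
          have hc0 : 0 ≤ c := by positivity
          refine mul_le_mul_of_nonneg_left (mul_le_mul_of_nonneg_left ?_ hc0) hc0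
          refine mul_le_mul hcard (mul_le_mul_of_nonneg_right hcard hX') (by positivity)
            (by linarith)
      _ = c * (c * (2 * K ^ 2)) * (M * M * X⁻¹) := by ring
      _ ≤ c * (c * (2 * K ^ 2)) * 1 := by
          refine mul_le_mul_of_nonneg_left ?_ (by positivity)
          rw [← div_eq_mul_inv, div_le_one hX0]
          exact hMM
      _ = ε / 2 * X₃ := by
          have e3 : ε * X₃ = 4 * (c * (c * K ^ 2)) := by
            rw [hX₃, mul_div_assoc', mul_comm ε, mul_div_assoc, div_self hε.ne', mul_one]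
          linarith
      _ ≤ ε / 2 * X := mul_le_mul_of_nonneg_left hXc (by positivity)
  -- the main term
  rw [sum_main hη hG h hX0 hVK hMNR P M N hN1 T f hT hf, ← hN₀] at herr
  have hmo : mo 0 0 N₀ = (∏ p ∈ N.primeFactors, (1 - 1 / (p : ℝ)) ^ 3) * (2 * dR N) := by
    rw [← hmass, hN₀, map_sum]
    refine Finset.sum_congr rfl fun n₁ _ => ?_
    rw [map_sum]
    refine Finset.sum_congr rfl fun n₂ _ => ?_
    unfold Nn
    rw [map_sum]
    refine Finset.sum_congr rfl fun x _ => ?_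
    rw [map_smul, mo_E, pow_zero, pow_zero, mul_one, smul_eq_mul, mul_one]
  set r : GR := N₀ * ∑ m₁ ∈ Finset.Icc 1 ⌊M⌋₊, ∑ m₂ ∈ Finset.Icc 1 ⌊M⌋₊,
            (cm P M N m₁ * cm P M N m₂) • ka m₁ m₂ with hr
  set W : ℝ := dR N * ((∏ p ∈ N.primeFactors, (1 - 1 / (p : ℝ)) ^ 3) * Sg N) *
    Mt P (1 / (2 * θ)) with hW
  have hW' : mo 0 0 N₀ * Sg N * (1 / 2) * Mt P (1 / (2 * θ)) = W := by
    rw [hmo, hW]
    ring
  have hmain : |(∫ D in Ioi (0 : ℝ), G (D / X) * Ph (Real.log (Real.sqrt D)) r) -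
      X * (∫ u in Ioi (0 : ℝ), G u) * W| ≤ ε / 2 * X := by
    have hGX : IntegrableOn (fun D : ℝ => G (D / X)) (Ioi 0) := by
      refine Integrable.integrableOn ?_
      exact (G_int hG h).comp_div hX0.ne'
    have e : (∫ D in Ioi (0 : ℝ), G (D / X) * Ph (Real.log (Real.sqrt D)) r) -
        X * (∫ u in Ioi (0 : ℝ), G u) * W =
        ∫ D in Ioi (0 : ℝ), G (D / X) * (Ph (Real.log (Real.sqrt D)) r - W) := by
      rw [← G_scale G hX0, ← integral_mul_const,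
        ← integral_sub (GPh_int hη hG h hX0 hVK r) (hGX.mul_const W)]
      refine setIntegral_congr_fun measurableSet_Ioi fun D _ => ?_
      show G (D / X) * Ph (Real.log (Real.sqrt D)) r - G (D / X) * W = _
      ring
    rw [e, ← Real.norm_eq_abs]
    refine (norm_integral_le_of_norm_le (g := fun D => ε / (2 * (Gi + 1)) * |G (D / X)|)
      (hGX.abs.const_mul _) ?_).trans ?_
    · refine (ae_restrict_iff' measurableSet_Ioi).2 (Filter.Eventually.of_forall fun D hD => ?_)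
      rw [norm_mul, Real.norm_eq_abs, Real.norm_eq_abs, mul_comm]
      by_cases h0 : G (D / X) = 0
      · rw [h0, abs_zero, mul_zero, mul_zero]
      · obtain ⟨hD1, hD2⟩ := G_supp h hX0 h0
        refine mul_le_mul_of_nonneg_right ?_ (abs_nonneg _)
        have := hX₂ X (Real.log (Real.sqrt D)) hXb (log_near hη hX0 hD1 hD2)
        rw [hW'] at this
        exact this
    · rw [integral_const_mul]
      have h9 : ∫ D in Ioi (0 : ℝ), |G (D / X)| = X * Gi := G_scale (fun u => |G u|) hX0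
      rw [h9]
      have : ε / (2 * (Gi + 1)) * (X * Gi) = ε / 2 * X * (Gi / (Gi + 1)) := by
        field_simp
      rw [this]
      refine mul_le_of_le_one_right (by positivity) ?_
      rw [div_le_one (by linarith)]
      linarith
  calc _ ≤ _ + _ := abs_sub_le _ (∫ D in Ioi (0 : ℝ), G (D / X) *
      Ph (Real.log (Real.sqrt D)) r) _
    _ ≤ ε / 2 * X + ε / 2 * X := add_le_add herr hmain
    _ = ε * X := by ring

end Pool.Agent.H31.CN
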