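import Pool.Agent.H31.CN.T5

/-!
# (SMO) the proportion with smooth weights
-/

set_option autoImplicit false

open MeasureTheory Set Filter NumberField
open scoped Real nonZeroDivisors

namespace Pool.Agent.H31.CN

theorem num_aux {c I ρ σ ε lam : ℝ} (hc : 0 < c) (hI : 0 < I) (hρ : 0 < ρ) (hε : 0 < ε)
    (hlam : 0 < lam) (hσ : (lam + ε / 2) * ρ ≤ σ ^ 2) :
    ∃ δ ε₂ ε₃ : ℝ, 0 < δ ∧ 0 < ε₂ ∧ 0 < ε₃ ∧ ∀ s₁ s₂ A u v : ℝ, |s₁ - I * (c * σ)| ≤ ε₂ →
      |u - 1| ≤ δ → |v - c| ≤ δ → |s₂ - I * (v * u * ρ)| ≤ ε₃ → 0 ≤ s₂ → 0 ≤ A →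
      s₁ ^ 2 ≤ A * s₂ → lam * (c * I) ≤ A := by
  set g : ℝ := I ^ 2 * c ^ 2 * ρ * ε / 2 with hg
  have hg0 : 0 < g := by positivity
  set a : ℝ := I * (c * σ) with ha
  set B₁ : ℝ := lam * c * I ^ 2 * ρ * (c + 2) with hB₁
  set B₃ : ℝ := lam * c * I with hB₃
  have hB₁0 : 0 < B₁ := by positivity
  have hB₃0 : 0 < B₃ := by positivity
  refine ⟨min 1 (g / (4 * B₁)), g / (4 * (2 * |a| + 1)), g / (4 * B₃), by positivity,
    by positivity, by positivity, fun s₁ s₂ A u v h1 h2 h3 h4 h5 h6 h7 => ?_⟩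
  set δ := min 1 (g / (4 * B₁)) with hδ
  have hδ0 : 0 < δ := by positivity
  have hδ1 : δ ≤ 1 := min_le_left _ _
  have hδ2 : B₁ * δ ≤ g / 4 := by
    have : δ ≤ g / (4 * B₁) := min_le_right _ _
    calc B₁ * δ ≤ B₁ * (g / (4 * B₁)) := mul_le_mul_of_nonneg_left this hB₁0.le
      _ = g / 4 := by field_simp
  have h10 : 2 * |a| * (g / (4 * (2 * |a| + 1))) ≤ g / 4 := by
    have e : 2 * |a| * (g / (4 * (2 * |a| + 1))) = g / 4 * (2 * |a| / (2 * |a| + 1)) := by
      field_simp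
    rw [e]
    refine mul_le_of_le_one_right (by positivity) ?_
    rw [div_le_one (by positivity)]
    linarith
  have h11 : B₃ * (g / (4 * B₃)) = g / 4 := by field_simp
  by_contra hcon
  rw [not_le] at hcon
  have hu0 : 0 ≤ u := by
    have := (abs_le.1 h2).1
    linarith
  have hu1 : u ≤ 1 + δ := by
    have := (abs_le.1 h2).2
    linarith
  have hv1 : v ≤ c + δ := by
    have := (abs_le.1 h3).2
    linarith
  have hvu : v * u ≤ c + δ * (c + 2) := by
    calc v * u ≤ (c + δ) * u := mul_le_mul_of_nonneg_right hv1 hu0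
      _ ≤ (c + δ) * (1 + δ) := mul_le_mul_of_nonneg_left hu1 (by positivity)
      _ = c + δ * (c + 1 + δ) := by ring
      _ ≤ c + δ * (c + 2) := by
        have := mul_le_mul_of_nonneg_left (show c + 1 + δ ≤ c + 2 by linarith) hδ0.le
        linarith
  have hs2 : s₂ ≤ I * ((c + δ * (c + 2)) * ρ) + g / (4 * B₃) := by
    have h12 := (abs_le.1 h4).2
    have h13 : I * (v * u * ρ) ≤ I * ((c + δ * (c + 2)) * ρ) :=
      mul_le_mul_of_nonneg_left (mul_le_mul_of_nonneg_right hvu hρ.le) hI.le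
    linarith
  have hup : s₁ ^ 2 ≤ lam * c * I * (I * ((c + δ * (c + 2)) * ρ) + g / (4 * B₃)) := by
    calc s₁ ^ 2 ≤ A * s₂ := h7
      _ ≤ lam * (c * I) * s₂ := mul_le_mul_of_nonneg_right hcon.le h5
      _ = lam * c * I * s₂ := by ring
      _ ≤ _ := mul_le_mul_of_nonneg_left hs2 (by positivity)
  have hlow : a ^ 2 - 2 * |a| * (g / (4 * (2 * |a| + 1))) ≤ s₁ ^ 2 := by
    have e1 : a ^ 2 + 2 * a * (s₁ - a) ≤ s₁ ^ 2 := by nlinarith [sq_nonneg (s₁ - a)]
    have e2 : |2 * a * (s₁ - a)| ≤ 2 * |a| * (g / (4 * (2 * |a| + 1))) := by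
      rw [abs_mul, abs_mul, abs_two]
      exact mul_le_mul_of_nonneg_left h1 (by positivity)
    have e3 := (abs_le.1 e2).1
    linarith
  have ha2 : I ^ 2 * c ^ 2 * lam * ρ + g ≤ a ^ 2 := by
    have e : a ^ 2 = I ^ 2 * c ^ 2 * σ ^ 2 := by rw [ha]; ring
    rw [e, hg]
    have := mul_le_mul_of_nonneg_left hσ (show 0 ≤ I ^ 2 * c ^ 2 by positivity)
    linarith
  have hfin : lam * c * I * (I * ((c + δ * (c + 2)) * ρ) + g / (4 * B₃)) =
      I ^ 2 * c ^ 2 * lam * ρ + B₁ * δ + B₃ * (g / (4 * B₃)) := by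
    rw [hB₁]
    ring
  rw [hfin, h11] at hup
  linarith

theorem prim_two {R : ℕ} (hR : 2 ≤ R) : 2 ∣ primorial R := by
  unfold primorial
  refine Finset.dvd_prod_of_mem (fun p => p) ?_
  rw [Finset.mem_filter, Finset.mem_range]
  exact ⟨by omega, Nat.prime_two⟩

theorem prim_sq (R : ℕ) : Squarefree (primorial R) := by
  unfold primorial
  refine Finset.squarefree_prod_of_pairwise_isCoprime ?_ ?_
  · intro p hp q hq hpq
    rw [Finset.coe_filter] at hp hq
    exact Nat.coprime_iff_isRelPrime.1 ((Nat.coprime_primes hp.2 hq.2).2 hpq)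
  · intro p hp
    rw [Finset.mem_filter] at hp
    exact hp.2.prime.squarefree

theorem fam_good {X : ℝ} {D : ℕ} (hD : D ∈ fam X) (N : ℕ) : good N D := by
  unfold fam at hD
  rw [Finset.mem_filter] at hD
  obtain ⟨-, -, h2, h3⟩ := hD
  refine ⟨by omega, fun p hp _ h => ?_⟩
  have hpp := Nat.prime_of_mem_primeFactors hp
  have h4 : p ^ 2 ∣ D := by exact_mod_cast h
  rw [pow_two] at h4
  exact hpp.one_lt.ne' (Nat.isUnit_iff.1 (h3 p h4))

open Classical in
theorem pf_SMO (hPRO : T_PRO) (hCSF : T_CSF) (hSM1 : T_SM1) (hSM2 : T_SM2) (hCRR : T_CRR)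
    (hOPT : T_OPT) (hUNF : T_UNF) : T_SMO := by
  intro G η hη hG h hGn hI ε hε
  set I : ℝ := ∫ u in Ioi (0 : ℝ), G u with hIdef
  by_cases hlam : 19 / 27 - ε ≤ 0
  · refine ⟨1, fun X hX K _ _ hK => ?_⟩
    have h1 : (19 / 27 - ε) * (X * (2 / π ^ 2) * I) ≤ 0 :=
      mul_nonpos_of_nonpos_of_nonneg hlam (by positivity)
    refine h1.trans (Finset.sum_nonneg fun D hD => mul_nonneg (hGn _) ?_)
    unfold prp
    positivity
  · rw [not_le] at hlam
    obtain ⟨P, θ, hP, hθ, hθ', hMt, hopt⟩ := hOPT (ε / 2) (by positivity)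
    have hσ : (19 / 27 - ε + ε / 2) * Mt P (1 / (2 * θ)) ≤
        (P.eval 1 + 1 / (2 * θ) * P.derivative.eval 1) ^ 2 := by
      have : (19 / 27 - ε + ε / 2 : ℝ) = 19 / 27 - ε / 2 := by ring
      rw [this]
      exact hopt
    obtain ⟨δ, ε₂, ε₃, hδ, hε₂, hε₃, hnum⟩ := num_aux (c := 2 / π ^ 2) (by positivity) hI hMt hε
      hlam hσ
    obtain ⟨R₀, hR₀⟩ := hCRR δ hδ
    obtain ⟨hR1, hR2⟩ := hR₀ (max R₀ 2) (le_max_left _ _)
    set N : ℕ := primorial (max R₀ 2) with hN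
    have hN1 : 1 ≤ N := primorial_pos _
    have hN2 : 2 ∣ N := prim_two (le_max_right _ _)
    have hNs : Squarefree N := prim_sq _
    obtain ⟨X₁, hX₁⟩ := hSM1 G η hη hG h P N θ ε₂ hP hN1 hN2 hNs hθ hθ' hε₂
    obtain ⟨X₂, hX₂⟩ := hSM2 G η hη hG h P N θ ε₃ hP hN1 hN2 hNs hθ hθ' hε₃
    refine ⟨max 1 (max X₁ X₂), fun X hX K _ _ hK => ?_⟩
    have hXa : 1 ≤ X := (le_max_left _ _).trans hX
    have hXb : X₁ ≤ X := ((le_max_left _ _).trans (le_max_right _ _)).trans hX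
    have hXc : X₂ ≤ X := ((le_max_right _ _).trans (le_max_right _ _)).trans hX
    have hX0 : 0 < X := by linarith
    have h1 := hX₁ X hXb
    have h2 := hX₂ X hXc
    set M := X ^ θ with hM
    set T : ℕ → ℝ := fun D => 2 * ∑ m₁ ∈ SD M N, ∑ m₂ ∈ SD M N,
      CD P M N D m₁ * CD P M N D m₂ * Uf m₁ m₂ D with hT
    set Z : ℕ → ℝ := fun D => Zc (SD M N) (CD P M N D) (1, 1, ((D : ℤ) + 1) / 4) with hZ
    have hsq : ∀ m ∈ SD M N, Squarefree m := fun m hm => by
      unfold SD at hm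
      rw [Finset.mem_filter] at hm
      exact hm.2.1
    have hTn : ∀ D : ℕ, 0 < D → 0 ≤ T D := by
      intro D hD
      have := hUNF D hD (SD M N) (CD P M N D) hsq Empty (fun i => i.elim) (fun i => i.elim)
        (fun i => i.elim)
      rw [Finset.univ_eq_empty, Finset.sum_empty] at this
      exact this
    have hpro : ∀ D ∈ fam X, 0 ≤ prp (K D) ∧ Z D ^ 2 ≤ prp (K D) * T D := by
      intro D hD
      have hD' := hD
      unfold fam at hD'
      rw [Finset.mem_filter] at hD'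
      obtain ⟨-, hD1, hD2, hD3⟩ := hD'
      obtain ⟨hp1, -, hp2⟩ := hPRO D (K D) (by omega) hD2 hD3 (hK D hD).1 (hK D hD).2
      exact ⟨hp1, hp2 (SD M N) (CD P M N D) hsq⟩
    have hcs := hCSF (fam X) (fun D => G (D / X)) (fun D => prp (K D)) Z T (fun D _ => hGn _)
      (fun D hD => (hpro D hD).1) (fun D hD => hTn D (by
        unfold fam at hD
        rw [Finset.mem_filter] at hD
        omega)) (fun D hD => (hpro D hD).2)
    set S₁ := ∑ D ∈ fam X, G (D / X) * Z D with hS₁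
    set A := ∑ D ∈ fam X, G (D / X) * prp (K D) with hA
    set S₂ := ∑' D : ℕ, if good N D then G (D / X) * T D else 0 with hS₂
    have hterm : ∀ D : ℕ, 0 ≤ if good N D then G (D / X) * T D else 0 := by
      intro D
      split_ifs with hg
      · refine mul_nonneg (hGn _) (hTn D ?_)
        have := hg.1
        omega
      · exact le_rfl
    have hle : ∑ D ∈ fam X, G (D / X) * T D ≤ S₂ := by
      have hsum : Summable (fun D : ℕ => if good N D then G (D / X) * T D else 0) := by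
        refine summable_of_ne_finset_zero (s := Finset.range (⌊X⌋₊ + 1)) fun D hD => ?_
        have : G ((D : ℕ) / X) = 0 := by
          apply h
          rw [mem_Icc, not_and, not_le]
          intro _
          rw [lt_div_iff₀ hX0, one_mul]
          rw [Finset.mem_range, not_lt] at hD
          exact (Nat.lt_floor_add_one X).trans_le (by exact_mod_cast hD)
        rw [this, zero_mul, ite_self]
      refine (le_of_eq ?_).trans (hsum.sum_le_tsum (fam X) (fun D _ => hterm D))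
      refine Finset.sum_congr rfl fun D hD => ?_
      rw [if_pos (fam_good hD N)]
    have hS₂0 : 0 ≤ S₂ := tsum_nonneg hterm
    have hA0 : 0 ≤ A := Finset.sum_nonneg fun D hD => mul_nonneg (hGn _) (hpro D hD).1
    have h1' : |S₁ / X - I * (2 / π ^ 2 * (P.eval 1 + 1 / (2 * θ) * P.derivative.eval 1))| ≤
        ε₂ := by
      have e : S₁ / X - I * (2 / π ^ 2 * (P.eval 1 + 1 / (2 * θ) * P.derivative.eval 1)) =
          (S₁ - X * I * (2 / π ^ 2 * (P.eval 1 + 1 / (2 * θ) * P.derivative.eval 1))) / X := by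
        rw [sub_div, mul_assoc X, mul_div_assoc X, mul_comm X, div_mul_cancel₀ _ hX0.ne']
      rw [e, abs_div, abs_of_pos hX0, div_le_iff₀ hX0]
      exact h1
    have h2' : |S₂ / X - I * (dR N * ((∏ p ∈ N.primeFactors, (1 - 1 / (p : ℝ)) ^ 3) * Sg N) *
        Mt P (1 / (2 * θ)))| ≤ ε₃ := by
      have e : S₂ / X - I * (dR N * ((∏ p ∈ N.primeFactors, (1 - 1 / (p : ℝ)) ^ 3) * Sg N) *
          Mt P (1 / (2 * θ))) =
          (S₂ - X * I * (dR N * ((∏ p ∈ N.primeFactors, (1 - 1 / (p : ℝ)) ^ 3) * Sg N) *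
          Mt P (1 / (2 * θ)))) / X := by
        rw [sub_div, mul_assoc X, mul_div_assoc X, mul_comm X, div_mul_cancel₀ _ hX0.ne']
      rw [e, abs_div, abs_of_pos hX0, div_le_iff₀ hX0]
      exact h2
    have hfin := hnum (S₁ / X) (S₂ / X) (A / X) _ _ h1' hR1 hR2 h2' (by positivity)
      (by positivity) (by
        rw [div_pow, div_mul_div_comm, ← pow_two]
        refine div_le_div_of_nonneg_right ?_ (by positivity)
        exact hcs.trans (mul_le_mul_of_nonneg_left hle hA0))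
    rw [le_div_iff₀ hX0] at hfin
    refine (le_of_eq ?_).trans hfin
    ring

end Pool.Agent.H31.CN
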