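import Pool.Agent.H1.CN.MNR
import Pool.Agent.H16.CN.CG
import Pool.Agent.H16.CN.EMC
import Pool.Agent.H19.CN.HK2
import Pool.Agent.H19.CN.HK3
import Pool.Agent.H19.CN.OPT
import Pool.Agent.H19.CN.WC1
import Pool.Agent.H19.CN.WC2
import Pool.Agent.H19.CN.WDN
import Pool.Agent.H20.CN.DSE
import Pool.Agent.H22.CN.CRR
import Pool.Agent.H25.CN.BAV
import Pool.Agent.H25.CN.BSU
import Pool.Agent.H25.CN.CTI
import Pool.Agent.H25.CN.TH1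
import Pool.Agent.H25.CN.THA
import Pool.Agent.H26.CN.EPS
import Pool.Agent.H26.CN.SSA
import Pool.Agent.H26.CN.THE
import Pool.Agent.H26.CN.VK
import Pool.Agent.H3.CN.MOM
import Pool.Agent.H3.CN.QDV
import Pool.Agent.H31.CN.MAI
import Pool.Agent.H31.CN.SM2
import Pool.Agent.H31.CN.SMO
import Pool.Agent.H31.CN.UNF
import Pool.Agent.H33.CN.TPB
import Pool.Agent.H34.CN.HK
import Pool.Agent.H34.CN.HK1
import Pool.Agent.H34.CN.NUI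
import Pool.Agent.H34.CN.OB0
import Pool.Agent.H38.CN.INN
import Pool.Agent.H39.CN.AVG
import Pool.Agent.H39.CN.QUA
import Pool.Agent.H39.CN.TAI
import Pool.Agent.H42.CN.VGR
import Pool.Agent.H45.CN.AUT
import Pool.Agent.H45.CN.DSU
import Pool.Agent.H46.CN.OB2
import Pool.Agent.H46.CN.OB3
import Pool.Agent.H46.CN.OB4
import Pool.Agent.H49.CN.BDM
import Pool.Agent.H49.CN.CHS
import Pool.Agent.H49.CN.CNV
import Pool.Agent.H49.CN.INT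
import Pool.Agent.H50.CN.ACT
import Pool.Agent.H50.CN.PER
import Pool.Agent.H51.CN.FIN
import Pool.Agent.H51.CN.PZ2
import Pool.Agent.H51.CN.WC
import Pool.Agent.H56.CN.ADJ2
import Pool.Agent.H56.CN.ORB
import Pool.Agent.H56.CN.PAR
import Pool.Agent.H6.CN.BAS
import Pool.Agent.H60.CN.HQ
import Pool.Agent.H60.CN.MER
import Pool.Agent.H60.CN.VS
import Pool.Agent.H63.CN.BK
import Pool.Agent.H63.CN.MU1
import Pool.Agent.H63.CN.MU2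
import Pool.Agent.H63.CN.MU3
import Pool.Agent.H66.CN.DER
import Pool.Agent.H66.CN.HV
import Pool.Agent.H66.CN.HZ
import Pool.Agent.H69.CN.PRO
import Pool.Agent.H77.CN.PZ1
import Pool.Agent.H77.CN.UFC
import Pool.Agent.H86.CN.SM1
import Pool.Agent.H95.CN.CSF
import Pool.Agent.H95.CN.CSG
import Pool.Agent.H95.CN.OB1
import Pool.Agent.H95.CN.OB5
import Pool.Agent.H96.CN.LOC
import Pool.Agent.H96.CN.LOP
import Pool.Agent.H96.CN.NEL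
import Pool.Agent.H99.CN.LB
import Pool.Agent.H99.CN.LC
import Pool.Agent.H99.CN.ZTH

/-!
# The assembly, part A: the proportion for class group characters
-/

set_option autoImplicit false

namespace Pool.Agent.H31.CN.Fin

open Pool.Agent.H31.CN

theorem c_ACT : T_ACT := Pool.Agent.H50.CN.pf_ACT

theorem c_ADJ : T_ADJ := Pool.Agent.H56.CN.pf_ADJ

theorem c_AUT : T_AUT := Pool.Agent.H45.CN.pf_AUT

theorem c_CHS : T_CHS := Pool.Agent.H49.CN.pf_CHS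

theorem c_CNV : T_CNV := Pool.Agent.H49.CN.pf_CNV

theorem c_CRR : T_CRR := Pool.Agent.H22.CN.pf_CRR

theorem c_CSF : T_CSF := Pool.Agent.H95.CN.pf_CSF

theorem c_CSG : T_CSG := Pool.Agent.H95.CN.pf_CSG

theorem c_DSE : T_DSE := Pool.Agent.H20.CN.pf_DSE

theorem c_EMC : T_EMC := Pool.Agent.H16.CN.pf_EMC

theorem c_ETM : T_ETM := Pool.Agent.H20.CN.pf_ETM

theorem c_HK2 : T_HK2 := Pool.Agent.H19.CN.pf_HK2

theorem c_HK3 : T_HK3 := Pool.Agent.H19.CN.pf_HK3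

theorem c_HQ : T_HQ := Pool.Agent.H60.CN.pf_HQ

theorem c_DSU : T_DSU := Pool.Agent.H45.CN.pf_DSU c_HQ

theorem c_HV : T_HV := Pool.Agent.H66.CN.pf_HV

theorem c_HZ : T_HZ := Pool.Agent.H66.CN.pf_HZ

theorem c_DER : T_DER := Pool.Agent.H66.CN.pf_DER c_HZ c_HV

theorem c_INT : T_INT := Pool.Agent.H49.CN.pf_INT

theorem c_LB : T_LB := Pool.Agent.H99.CN.pf_LB

theorem c_LC : T_LC := Pool.Agent.H99.CN.pf_LC

theorem c_LOC : T_LOC := Pool.Agent.H96.CN.pf_LOC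

theorem c_LOP : T_LOP := Pool.Agent.H96.CN.pf_LOP

theorem c_MER : T_MER := Pool.Agent.H60.CN.pf_MER

theorem c_MOM : T_MOM := Pool.Agent.H3.CN.pf_MOM

theorem c_BDM : T_BDM := Pool.Agent.H49.CN.pf_BDM c_MOM

theorem c_MU1 : T_MU1 := Pool.Agent.H63.CN.pf_MU1

theorem c_MU2 : T_MU2 := Pool.Agent.H63.CN.pf_MU2

theorem c_BK : T_BK := Pool.Agent.H63.CN.pf_BK c_MU2 c_HQ

theorem c_MU3 : T_MU3 := Pool.Agent.H63.CN.pf_MU3 c_MU1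

theorem c_NEL : T_NEL := Pool.Agent.H96.CN.pf_NEL c_LOC c_LOP

theorem c_NUI : T_NUI := Pool.Agent.H34.CN.pf_NUI c_ACT

theorem c_OB1 : T_OB1 := Pool.Agent.H95.CN.pf_OB1

theorem c_OB0 : T_OB0 := Pool.Agent.H34.CN.pf_OB0 c_OB1

theorem c_OB2 : T_OB2 := Pool.Agent.H46.CN.pf_OB2

theorem c_OB3 : T_OB3 := Pool.Agent.H46.CN.pf_OB3 c_OB0

theorem c_OB4 : T_OB4 := Pool.Agent.H46.CN.pf_OB4 c_HK3

theorem c_OB5 : T_OB5 := Pool.Agent.H95.CN.pf_OB5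

theorem c_OPT : T_OPT := Pool.Agent.H19.CN.pf_OPT

theorem c_PAR : T_PAR := Pool.Agent.H56.CN.pf_PAR c_ACT

theorem c_PER : T_PER := Pool.Agent.H50.CN.pf_PER c_CNV

theorem c_QDV : T_QDV := Pool.Agent.H3.CN.pf_QDV c_ACT

theorem c_QUA : T_QUA := Pool.Agent.H39.CN.pf_QUA c_MOM

theorem c_TH1 : T_TH1 := Pool.Agent.H25.CN.pf_TH1

theorem c_CTI : T_CTI := Pool.Agent.H25.CN.pf_CTI c_TH1

theorem c_THE : T_THE := Pool.Agent.H26.CN.pf_THE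

theorem c_THA : T_THA := Pool.Agent.H25.CN.pf_THA c_THE

theorem c_TPB : T_TPB := Pool.Agent.H33.CN.pf_TPB

theorem c_UFC : T_UFC := Pool.Agent.H77.CN.pf_UFC

theorem c_VGR : T_VGR := Pool.Agent.H42.CN.pf_VGR

theorem c_HK1 : T_HK1 := Pool.Agent.H34.CN.pf_HK1 c_VGR

theorem c_HK : T_HK := Pool.Agent.H34.CN.pf_HK c_HK1 c_HK2 c_HK3 c_ACT

theorem c_ORB : T_ORB := Pool.Agent.H56.CN.pf_ORB c_ACT c_VGR

theorem c_VK : T_VK := Pool.Agent.H26.CN.pf_VK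

theorem c_SSA : T_SSA := Pool.Agent.H26.CN.SSA.pf_SSA c_VK

theorem c_MNR : T_MNR := Pool.Agent.H1.CN.pf_MNR c_SSA

theorem c_TAI : T_TAI := Pool.Agent.H39.CN.pf_TAI c_VK c_HZ

theorem c_VS : T_VS := Pool.Agent.H60.CN.pf_VS c_BK c_MER c_HQ

theorem c_BAS : T_BAS := Pool.Agent.H6.CN.pf_BAS c_BK c_VS c_BDM c_HQ

theorem c_MAI : T_MAI :=
  Pool.Agent.H31.CN.pf_MAI c_SSA c_CNV c_QUA c_BAS c_ETM c_DSU c_DSE c_INT c_PER c_HQ

theorem c_WC1 : T_WC1 := Pool.Agent.H19.CN.pf_WC1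

theorem c_WC2 : T_WC2 := Pool.Agent.H19.CN.pf_WC2

theorem c_WC : T_WC := Pool.Agent.H51.CN.pf_WC c_WC1 c_WC2

theorem c_UNF : T_UNF :=
  Pool.Agent.H31.CN.pf_UNF c_ORB c_ADJ c_TPB c_NUI c_HK c_WC c_VK c_VGR c_ACT c_QDV

theorem c_WDN : T_WDN := Pool.Agent.H19.CN.pf_WDN

theorem c_ZTH : T_ZTH := Pool.Agent.H99.CN.pf_ZTH c_THE c_QDV

theorem c_BAV : T_BAV := Pool.Agent.H25.CN.pf_BAV c_ZTH c_THA c_CTI

theorem c_BSU : T_BSU := Pool.Agent.H25.CN.pf_BSU c_BAV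

theorem c_EPS : T_EPS := Pool.Agent.H26.CN.EPS.pf_EPS c_THE c_ZTH

theorem c_CG : T_CG :=
  Pool.Agent.H16.CN.pf_CG c_OB1 c_OB0 c_OB2 c_AUT c_OB3 c_OB4 c_OB5 c_EPS c_QDV c_VK

theorem c_INN : T_INN := Pool.Agent.H38.CN.pf_INN c_DER c_EMC c_LC c_LB c_BSU c_VK

theorem c_AVG : T_AVG := Pool.Agent.H39.CN.pf_AVG c_INN c_TAI c_VK c_HZ

theorem c_PRO : T_PRO := Pool.Agent.H69.CN.pf_PRO c_CG c_CSG c_UNF

theorem c_PZ1 : T_PZ1 := Pool.Agent.H77.CN.pf_PZ1 c_HK3 c_ZTH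

theorem c_PZ2 : T_PZ2 := Pool.Agent.H51.CN.pf_PZ2 c_PZ1 c_BAV c_VK c_VGR

theorem c_SM1 : T_SM1 := Pool.Agent.H86.CN.pf_SM1 c_PZ2 c_CHS c_MU3

theorem c_SM2 : T_SM2 := Pool.Agent.H31.CN.pf_SM2 c_AVG c_MNR c_MAI c_NEL c_WDN c_UFC c_VK

theorem c_SMO : T_SMO := Pool.Agent.H31.CN.pf_SMO c_PRO c_CSF c_SM1 c_SM2 c_CRR c_OPT c_UNF

theorem c_FIN : T_FIN := Pool.Agent.H51.CN.pf_FIN c_SMO c_CHS

end Pool.Agent.H31.CN.Fin
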