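import Pool.Agent.H31.CN.TAB

/-!
# (AB) Abel summation for the first moment
-/

set_option autoImplicit false

open MeasureTheory Set Filter
open scoped Real

namespace Pool.Agent.H31.CN

open Classical in
theorem fam_sum (ψ : ℕ → ℝ) (t : ℝ) :
    ∑ k ∈ Finset.Icc 0 ⌊t⌋₊, (if 3 < k ∧ k % 4 = 3 ∧ Squarefree k then ψ k else 0) =
      ∑ D ∈ fam t, ψ D := by
  have h1 : ∑ D ∈ fam t, ψ D =
      ∑ k ∈ Finset.Icc 1 ⌊t⌋₊, (if 3 < k ∧ k % 4 = 3 ∧ Squarefree k then ψ k else 0) := by
    unfold fam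
    rw [Finset.sum_filter]
  rw [h1]
  symm
  refine Finset.sum_subset (Finset.Icc_subset_Icc_left (by norm_num)) fun k _ hk => ?_
  rw [if_neg]
  rintro ⟨h3, -⟩
  rw [Finset.mem_Icc, not_and, not_le] at hk
  rename_i hk0
  rw [Finset.mem_Icc] at hk0
  have := hk (by omega)
  omega

open Classical in
theorem abel_gen {X B E ρ : ℝ} (hX : 1 ≤ X) (ψ : ℕ → ℝ) (f : ℝ → ℝ)
    (hf : ∀ t ∈ Icc 1 X, DifferentiableAt ℝ f t) (hf' : ContinuousOn (deriv f) (Icc 1 X))
    (hfX : f X = 0) (hb : ∀ t ∈ Icc 1 X, |deriv f t| ≤ B / X)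
    (hA : ∀ t ∈ Icc 1 X, |∑ D ∈ fam t, ψ D - ρ * t| ≤ E) (hB : 0 ≤ B) (hE : 0 ≤ E)
    (hf1 : ρ * f 1 = 0) :
    |∑ D ∈ fam X, f D * ψ D - ρ * ∫ t in (1 : ℝ)..X, f t| ≤ B * E := by
  set c : ℕ → ℝ := fun k => if 3 < k ∧ k % 4 = 3 ∧ Squarefree k then ψ k else 0 with hc
  have hint : IntegrableOn (deriv f) (Icc 1 X) := hf'.integrableOn_compact isCompact_Icc
  have h1 := sum_mul_eq_sub_integral_mul₀ (c := c) (by rw [hc]; simp) X hf hint
  have h2 : ∑ k ∈ Finset.Icc 0 ⌊X⌋₊, f k * c k = ∑ D ∈ fam X, f D * ψ D := by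
    rw [← fam_sum (fun k => f k * ψ k) X]
    refine Finset.sum_congr rfl fun k _ => ?_
    rw [hc]
    simp only [mul_ite, mul_zero]
  rw [h2, hfX, zero_mul, zero_sub] at h1
  have h3 : ∀ t : ℝ, ∑ k ∈ Finset.Icc 0 ⌊t⌋₊, c k = ∑ D ∈ fam t, ψ D := fun t => fam_sum ψ t
  have hi1 : IntegrableOn (fun t => deriv f t * ∑ k ∈ Finset.Icc 0 ⌊t⌋₊, c k) (Ioc 1 X) :=
    (integrableOn_mul_sum_Icc c zero_le_one hint).mono_set Ioc_subset_Icc_self
  have hi2 : IntegrableOn (fun t => deriv f t * (ρ * t)) (Ioc 1 X) :=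
    ((hf'.mul (continuousOn_const.mul continuousOn_id)).integrableOn_compact
      isCompact_Icc).mono_set Ioc_subset_Icc_self
  have hfc : ContinuousOn f (Icc 1 X) := fun t ht => (hf t ht).continuousAt.continuousWithinAt
  -- integration by parts
  have h4 : ρ * ∫ t in (1 : ℝ)..X, f t = -∫ t in Ioc 1 X, deriv f t * (ρ * t) := by
    have h5 : ∫ t in (1 : ℝ)..X, (f t + t * deriv f t) = X * f X - 1 * f 1 := by
      refine intervalIntegral.integral_eq_sub_of_hasDerivAt (f := fun t => t * f t) ?_ ?_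
      · intro t ht
        rw [uIcc_of_le hX] at ht
        have := (hasDerivAt_id t).mul (hf t ht).hasDerivAt
        simp only [id, one_mul] at this
        exact this
      · refine ContinuousOn.intervalIntegrable ?_
        rw [uIcc_of_le hX]
        exact hfc.add (continuousOn_id.mul hf')
    have hii1 : IntervalIntegrable f volume 1 X := by
      refine ContinuousOn.intervalIntegrable ?_
      rw [uIcc_of_le hX]
      exact hfc
    have hii2 : IntervalIntegrable (fun t => t * deriv f t) volume 1 X := by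
      refine ContinuousOn.intervalIntegrable ?_
      rw [uIcc_of_le hX]
      exact continuousOn_id.mul hf'
    rw [intervalIntegral.integral_add hii1 hii2, hfX] at h5
    rw [← intervalIntegral.integral_of_le hX]
    have h6 : ∫ t in (1 : ℝ)..X, deriv f t * (ρ * t) = ρ * ∫ t in (1 : ℝ)..X, t * deriv f t := by
      rw [← intervalIntegral.integral_const_mul]
      refine intervalIntegral.integral_congr fun t _ => ?_
      show deriv f t * (ρ * t) = ρ * (t * deriv f t)
      ring
    rw [h6]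
    have h7 : ∫ t in (1 : ℝ)..X, f t = -f 1 - ∫ t in (1 : ℝ)..X, t * deriv f t := by linarith
    rw [h7]
    linarith
  rw [h1, h4, sub_neg_eq_add, neg_add_eq_sub, ← integral_sub hi2 hi1]
  have h8 : ‖∫ t in Ioc 1 X, (deriv f t * (ρ * t) - deriv f t *
      ∑ k ∈ Finset.Icc 0 ⌊t⌋₊, c k)‖ ≤ B / X * E * volume.real (Ioc 1 X) := by
    refine norm_setIntegral_le_of_norm_le_const measure_Ioc_lt_top fun t ht => ?_
    have ht' : t ∈ Icc 1 X := Ioc_subset_Icc_self ht
    rw [← mul_sub, h3, norm_mul, Real.norm_eq_abs, Real.norm_eq_abs, abs_sub_comm (ρ * t)]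
    exact mul_le_mul (hb t ht') (hA t ht') (abs_nonneg _) (by positivity)
  rw [Real.norm_eq_abs, Real.volume_real_Ioc_of_le hX] at h8
  refine h8.trans ?_
  have hX0 : 0 < X := by linarith
  calc B / X * E * (X - 1) ≤ B / X * E * X :=
        mul_le_mul_of_nonneg_left (by linarith) (by positivity)
    _ = B * E := by field_simp

theorem comp_bd (f : ℝ → ℝ) (hf : Continuous f) {a b : ℝ} (h : ∀ u, u ∉ Icc a b → f u = 0) :
    ∃ K : ℝ, 0 < K ∧ ∀ u, |f u| ≤ K := by
  obtain ⟨C, hC⟩ := (isCompact_Icc (a := a) (b := b)).exists_bound_of_continuousOn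
    hf.continuousOn
  refine ⟨|C| + 1, by positivity, fun u => ?_⟩
  by_cases hu : u ∈ Icc a b
  · have := hC u hu
    rw [Real.norm_eq_abs] at this
    linarith [le_abs_self C]
  · rw [h u hu, abs_zero]
    positivity

theorem zero_at_one (f : ℝ → ℝ) (hf : Continuous f) {a b : ℝ} (h : ∀ u, u ∉ Icc a b → f u = 0) :
    f b = 0 := by
  have h1 : Tendsto f (nhdsWithin b (Ioi b)) (nhds (f b)) := hf.continuousAt.continuousWithinAt
  have h2 : Tendsto f (nhdsWithin b (Ioi b)) (nhds 0) := by
    refine (tendsto_const_nhds (x := (0 : ℝ))).congr' ?_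
    filter_upwards [self_mem_nhdsWithin] with u hu
    exact (h u (fun h' => absurd h'.2 (not_le.2 hu))).symm
  exact tendsto_nhds_unique h1 h2

theorem deriv_zero (f : ℝ → ℝ) {a b : ℝ} (h : ∀ u, u ∉ Icc a b → f u = 0) :
    ∀ u, u ∉ Icc a b → deriv f u = 0 := by
  intro u hu
  have h1 : f =ᶠ[nhds u] fun _ => 0 := by
    filter_upwards [isClosed_Icc.isOpen_compl.mem_nhds hu] with x hx
    exact h x hx
  rw [h1.deriv_eq]
  exact deriv_const u 0

theorem pf_AB (hCHS : T_CHS) : T_AB := by
  intro G η hη hG h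
  obtain ⟨⟨C₁, hC₁, h₁⟩, ⟨C₂, hC₂, h₂⟩⟩ := hCHS
  have hG' : Continuous (deriv G) := hG.continuous_deriv (by norm_num)
  have hGd : Differentiable ℝ G := hG.differentiable (by norm_num)
  obtain ⟨K, hK, hk⟩ := comp_bd G hG.continuous h
  obtain ⟨K', hK', hk'⟩ := comp_bd (deriv G) hG' (deriv_zero G h)
  have hG1 : G 1 = 0 := zero_at_one G hG.continuous h
  set A : ℝ := K' + K / η with hA
  have hA0 : 0 < A := by positivity
  refine ⟨A * (C₁ + C₂), 1 + 1 / η, by positivity, by
    have : 0 < 1 / η := by positivity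
    linarith, fun X hX => ?_⟩
  have hη1 : 0 < 1 / η := by positivity
  have hX1 : 1 ≤ X := by linarith
  have hX0 : 0 < X := by linarith
  have hηX : 1 < η * X := by
    have : 1 / η < X := by linarith
    rw [div_lt_iff₀ hη] at this
    linarith
  have hlog : 0 ≤ Real.log X := Real.log_nonneg hX1
  have hpow : 0 < X ^ (3 / 4 : ℝ) := Real.rpow_pos_of_pos hX0 _
  -- the functions
  have hder : ∀ a c t : ℝ, 1 ≤ t → HasDerivAt (fun t => G (t / X) * (a * (Real.log t / 2) + c))
      (deriv G (t / X) * (1 / X) * (a * (Real.log t / 2) + c) + G (t / X) * (a * (t⁻¹ / 2)))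
      t := by
    intro a c t ht
    have h1 : HasDerivAt (fun t => G (t / X)) (deriv G (t / X) * (1 / X)) t :=
      (hGd (t / X)).hasDerivAt.comp t ((hasDerivAt_id t).div_const X)
    have h2 : HasDerivAt (fun t => a * (Real.log t / 2) + c) (a * (t⁻¹ / 2)) t :=
      (((Real.hasDerivAt_log (by linarith)).div_const 2).const_mul a).add_const c
    exact h1.mul h2
  have hbd : ∀ a c t : ℝ, |a| ≤ 1 → t ∈ Icc 1 X →
      |deriv G (t / X) * (1 / X) * (a * (Real.log t / 2) + c) + G (t / X) * (a * (t⁻¹ / 2))| ≤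
        (A * (|a| * (1 + Real.log X) + |c|)) / X := by
    intro a c t ha ht
    have ht0 : 0 < t := by linarith [ht.1]
    have hlt : |Real.log t / 2| ≤ 1 + Real.log X := by
      rw [abs_of_nonneg (div_nonneg (Real.log_nonneg ht.1) (by norm_num))]
      have := Real.log_le_log ht0 ht.2
      have := Real.log_nonneg ht.1
      linarith
    have e1 : |deriv G (t / X) * (1 / X) * (a * (Real.log t / 2) + c)| ≤
        K' * (|a| * (1 + Real.log X) + |c|) / X := by
      rw [abs_mul, abs_mul, abs_of_pos (show (0 : ℝ) < 1 / X by positivity)]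
      have e2 : |a * (Real.log t / 2) + c| ≤ |a| * (1 + Real.log X) + |c| := by
        refine (abs_add_le _ _).trans (add_le_add ?_ le_rfl)
        rw [abs_mul]
        exact mul_le_mul_of_nonneg_left hlt (abs_nonneg _)
      calc |deriv G (t / X)| * (1 / X) * |a * (Real.log t / 2) + c|
          ≤ K' * (1 / X) * (|a| * (1 + Real.log X) + |c|) := by
            refine mul_le_mul (mul_le_mul_of_nonneg_right (hk' _) (by positivity)) e2
              (abs_nonneg _) (by positivity)
        _ = _ := by ring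
    have e3 : |G (t / X) * (a * (t⁻¹ / 2))| ≤ K / η * |a| / X := by
      by_cases h0 : G (t / X) = 0
      · rw [h0, zero_mul, abs_zero]
        positivity
      · have hm : t / X ∈ Icc η 1 := by
          by_contra hh
          exact h0 (h _ hh)
        have h5 : η * X ≤ t := by
          have := hm.1
          rwa [le_div_iff₀ hX0] at this
        rw [abs_mul, abs_mul, abs_of_pos (show (0 : ℝ) < t⁻¹ / 2 by positivity)]
        have h6 : t⁻¹ / 2 ≤ 1 / (η * X) := by
          rw [inv_eq_one_div, div_div]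
          refine one_div_le_one_div_of_le (by positivity) (by linarith)
        calc |G (t / X)| * (|a| * (t⁻¹ / 2)) ≤ K * (|a| * (1 / (η * X))) :=
              mul_le_mul (hk _) (mul_le_mul_of_nonneg_left h6 (abs_nonneg _)) (by positivity)
                hK.le
          _ = K / η * |a| / X := by field_simp
    refine (abs_add_le _ _).trans ((add_le_add e1 e3).trans ?_)
    rw [← add_div]
    refine div_le_div_of_nonneg_right ?_ hX0.le
    have h7 : 0 ≤ K / η * (|a| * Real.log X + |c|) := by positivity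
    rw [hA]
    linarith
  have hmain : ∀ (a c ρ E : ℝ) (ψ : ℕ → ℝ), |a| ≤ 1 → 0 ≤ E →
      (∀ t ∈ Icc 1 X, |∑ D ∈ fam t, ψ D - ρ * t| ≤ E) →
      |∑ D ∈ fam X, G (D / X) * (a * (Real.log D / 2) + c) * ψ D -
        ρ * ∫ t in (1 : ℝ)..X, G (t / X) * (a * (Real.log t / 2) + c)| ≤
        A * (|a| * (1 + Real.log X) + |c|) * E := by
    intro a c ρ E ψ ha hE hψ
    have hd : ∀ t ∈ Icc 1 X, deriv (fun t => G (t / X) * (a * (Real.log t / 2) + c)) t =
        deriv G (t / X) * (1 / X) * (a * (Real.log t / 2) + c) + G (t / X) * (a * (t⁻¹ / 2)) :=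
      fun t ht => (hder a c t ht.1).deriv
    refine abel_gen (B := A * (|a| * (1 + Real.log X) + |c|)) hX1 ψ
      (fun t => G (t / X) * (a * (Real.log t / 2) + c))
      (fun t ht => (hder a c t ht.1).differentiableAt) ?_ ?_ ?_ hψ (by positivity) hE ?_
    · refine ContinuousOn.congr ?_ hd
      have hne : ∀ t ∈ Icc 1 X, t ≠ 0 := fun t ht => by linarith [ht.1]
      have c1 : ContinuousOn (fun t => deriv G (t / X)) (Icc 1 X) :=
        (hG'.comp (continuous_id.div_const X)).continuousOn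
      have c2 : ContinuousOn (fun t => G (t / X)) (Icc 1 X) :=
        (hG.continuous.comp (continuous_id.div_const X)).continuousOn
      have c3 : ContinuousOn (fun t => Real.log t) (Icc 1 X) :=
        continuousOn_id.log hne
      have c4 : ContinuousOn (fun t : ℝ => t⁻¹) (Icc 1 X) := continuousOn_inv₀.mono hne
      exact ((c1.mul continuousOn_const).mul ((continuousOn_const.mul (c3.div_const 2)).add
        continuousOn_const)).add (c2.mul (continuousOn_const.mul (c4.div_const 2)))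
    · show G (X / X) * _ = 0
      rw [div_self hX0.ne', hG1, zero_mul]
    · intro t ht
      rw [hd t ht]
      exact hbd a c t ha ht
    · show ρ * (G (1 / X) * _) = 0
      have : G (1 / X) = 0 := by
        apply h
        intro h5
        have := h5.1
        rw [le_div_iff₀ hX0] at this
        linarith
      rw [this, zero_mul, mul_zero]
  refine ⟨?_, fun l hl hls => ⟨?_, fun c => ?_⟩⟩
  · have hcnt : ∀ t ∈ Icc 1 X, |∑ D ∈ fam t, (1 : ℝ) - 2 / π ^ 2 * t| ≤
        C₂ * X ^ (3 / 4 : ℝ) := by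
      intro t ht
      rw [Finset.sum_const, nsmul_eq_mul, mul_one]
      refine (h₂ t ht.1).trans (mul_le_mul_of_nonneg_left ?_ hC₂.le)
      exact Real.rpow_le_rpow (by linarith [ht.1]) ht.2 (by norm_num)
    have h5 := hmain 0 1 (2 / π ^ 2) (C₂ * X ^ (3 / 4 : ℝ)) (fun _ => 1) (by simp)
      (by positivity) hcnt
    simp only [zero_mul, zero_add, mul_one, abs_zero, abs_one] at h5
    have h6 : ∫ t in (1 : ℝ)..X, G (t / X) = X * ∫ u in Ioi (0 : ℝ), G u := by
      have e1 := integral_comp_mul_left_Ioi G 0 (inv_pos.2 hX0)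
      rw [mul_zero, inv_inv, smul_eq_mul] at e1
      rw [← e1, intervalIntegral.integral_of_le hX1]
      have e2 : ∫ t in Ioi (0 : ℝ), G (X⁻¹ * t) = ∫ t in Ioc 1 X, G (X⁻¹ * t) := by
        refine setIntegral_eq_of_subset_of_forall_sdiff_eq_zero measurableSet_Ioi
          (fun t ht => lt_trans zero_lt_one ht.1) fun t ht => ?_
        apply h
        rintro ⟨h7, h8⟩
        apply ht.2
        rw [← div_eq_inv_mul, le_div_iff₀ hX0] at h7
        rw [← div_eq_inv_mul, div_le_one hX0] at h8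
        exact ⟨by linarith, h8⟩
      rw [e2]
      refine setIntegral_congr_fun measurableSet_Ioc fun t _ => ?_
      show G (t / X) = G (X⁻¹ * t)
      rw [div_eq_inv_mul]
    rw [h6] at h5
    have h7 : 2 / π ^ 2 * (X * ∫ u in Ioi (0 : ℝ), G u) =
        2 / π ^ 2 * X * ∫ u in Ioi (0 : ℝ), G u := by ring
    rw [h7] at h5
    refine h5.trans ?_
    have : 0 ≤ A * C₁ * X ^ (3 / 4 : ℝ) := by positivity
    linarith
  · have hcnt : ∀ t ∈ Icc 1 X, |∑ D ∈ fam t, (∏ p ∈ l.primeFactors, (chi p D : ℝ)) - 0 * t| ≤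
        C₁ * l * X ^ (3 / 4 : ℝ) := by
      intro t ht
      rw [zero_mul, sub_zero]
      refine (h₁ t l ht.1 hl hls).trans (mul_le_mul_of_nonneg_left ?_ (by positivity))
      exact Real.rpow_le_rpow (by linarith [ht.1]) ht.2 (by norm_num)
    have h5 := hmain 0 1 0 (C₁ * l * X ^ (3 / 4 : ℝ))
      (fun D => ∏ p ∈ l.primeFactors, (chi p D : ℝ)) (by simp) (by positivity) hcnt
    simp only [zero_mul, zero_add, mul_one, abs_zero, abs_one, sub_zero] at h5
    refine h5.trans ?_
    have : 0 ≤ A * C₂ * l * X ^ (3 / 4 : ℝ) := by positivity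
    linarith
  · have hcnt : ∀ t ∈ Icc 1 X, |∑ D ∈ fam t, (∏ p ∈ l.primeFactors, (chi p D : ℝ)) - 0 * t| ≤
        C₁ * l * X ^ (3 / 4 : ℝ) := by
      intro t ht
      rw [zero_mul, sub_zero]
      refine (h₁ t l ht.1 hl hls).trans (mul_le_mul_of_nonneg_left ?_ (by positivity))
      exact Real.rpow_le_rpow (by linarith [ht.1]) ht.2 (by norm_num)
    have h5 := hmain 1 c 0 (C₁ * l * X ^ (3 / 4 : ℝ))
      (fun D => ∏ p ∈ l.primeFactors, (chi p D : ℝ)) (by simp) (by positivity) hcnt
    simp only [zero_mul, one_mul, abs_one, sub_zero] at h5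
    have h6 : ∀ D : ℕ, Real.log (Real.sqrt D) = Real.log D / 2 := fun D =>
      Real.log_sqrt (Nat.cast_nonneg D)
    simp only [h6]
    refine h5.trans ?_
    have : 0 ≤ A * (1 + |c| + Real.log X) * (C₂ * l * X ^ (3 / 4 : ℝ)) := by positivity
    linarith

end Pool.Agent.H31.CN
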