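import Mathlib

/-!
# Class group L-functions of imaginary quadratic fields at the central point, on average
# over the discriminant: definitions
-/

set_option autoImplicit false

open MeasureTheory Set Filter
open scoped Real Matrix MatrixGroups

namespace Pool.Agent.H31.CN

/-! ### Binary quadratic forms -/

/-- integral binary quadratic forms `A x² + B x y + C y²`, written `(A, B, C)` -/
abbrev QF : Type := ℤ × ℤ × ℤ

/-- the discriminant is `- dsc Q` -/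
def dsc (Q : QF) : ℤ := 4 * Q.1 * Q.2.2 - Q.2.1 ^ 2

/-- the value of a form -/
def val (Q : QF) (v : ℤ × ℤ) : ℤ := Q.1 * v.1 ^ 2 + Q.2.1 * v.1 * v.2 + Q.2.2 * v.2 ^ 2

/-- matrix times vector -/
def gv (g : SL(2, ℤ)) (v : ℤ × ℤ) : ℤ × ℤ :=
  (g 0 0 * v.1 + g 0 1 * v.2, g 1 0 * v.1 + g 1 1 * v.2)

/-- the form `v ↦ Q (g v)` -/
def act (Q : QF) (g : SL(2, ℤ)) : QF :=
  (val Q (g 0 0, g 1 0),
    2 * Q.1 * g 0 0 * g 0 1 + Q.2.1 * (g 0 0 * g 1 1 + g 0 1 * g 1 0) + 2 * Q.2.2 * g 1 0 * g 1 1,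
    val Q (g 0 1, g 1 1))

/-- the forms of discriminant `-Δ` with positive leading coefficient -/
def FD (Δ : ℕ) : Set QF := {Q | 0 < Q.1 ∧ dsc Q = Δ}

/-- the number of roots modulo `q` of `A j² + B j + C` -/
def nrt (q : ℕ) (A B C : ℤ) : ℕ :=
  ((Finset.range q).filter (fun j : ℕ => (q : ℤ) ∣ A * (j : ℤ) ^ 2 + B * (j : ℤ) + C)).card

/-- the number of zeros of `Q` modulo `p` on the projective line -/
def prt (p : ℕ) (Q : QF) : ℕ := (if (p : ℤ) ∣ Q.1 then 1 else 0) + nrt p Q.1 Q.2.1 Q.2.2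

/-- the number of zeros of `Q` on the projective line modulo `p` that contain `v` -/
def nul (p : ℕ) (Q : QF) (v : ℤ × ℤ) : ℕ :=
  if (p : ℤ) ∣ v.1 ∧ (p : ℤ) ∣ v.2 then prt p Q else if (p : ℤ) ∣ val Q v then 1 else 0

/-- the product of the local numbers over the prime divisors of `m` -/
def nu (m : ℕ) (Q : QF) (v : ℤ × ℤ) : ℕ := ∏ p ∈ m.primeFactors, nul p Q v

/-! ### Hecke operators on functions of forms, and on weights -/

/-- the Hecke operator at `p` on functions of forms -/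
noncomputable def Tp (p : ℕ) (F : QF → ℝ) (Q : QF) : ℝ :=
  (if (p : ℤ) ∣ Q.1 then F (Q.1 / p, Q.2.1, p * Q.2.2) else 0) +
    ∑ j ∈ (Finset.range p).filter
      (fun j : ℕ => (p : ℤ) ∣ Q.1 * (j : ℤ) ^ 2 + Q.2.1 * (j : ℤ) + Q.2.2),
      F (p * Q.1, Q.2.1 + 2 * Q.1 * j, (Q.1 * (j : ℤ) ^ 2 + Q.2.1 * (j : ℤ) + Q.2.2) / p)

/-- the Hecke operator of a list of primes -/
noncomputable def TL (l : List ℕ) (F : QF → ℝ) : QF → ℝ := l.foldr Tp F

/-- the Hecke operator at `p` on weights -/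
noncomputable def Wp (p : ℕ) (ω : QF → ℕ → ℝ) (Q : QF) (e : ℕ) : ℝ :=
  (if (p : ℤ) ∣ Q.1 then ω (Q.1 / p, Q.2.1, p * Q.2.2) e else 0) +
    (if p ∣ e then ∑ j ∈ (Finset.range p).filter
      (fun j : ℕ => (p : ℤ) ∣ Q.1 * (j : ℤ) ^ 2 + Q.2.1 * (j : ℤ) + Q.2.2),
      ω (p * Q.1, Q.2.1 + 2 * Q.1 * j, (Q.1 * (j : ℤ) ^ 2 + Q.2.1 * (j : ℤ) + Q.2.2) / p) (e / p)
      else 0)

/-- local weight, prime dividing one of the two numbers -/
def N1 (p A : ℕ) (B C : ℤ) (e : ℕ) : ℕ :=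
  (if p ∣ A then 1 else 0) + (if p ∣ e then nrt p A B C else 0)

/-- local weight, prime dividing both numbers -/
def N2 (p A : ℕ) (B C : ℤ) (e : ℕ) : ℕ :=
  (if p ^ 2 ∣ A then 1 else 0) +
    (if p ∣ A ∧ p ∣ e then nrt p ((A / p : ℕ) : ℤ) B (p * C) else 0) +
    (if p ∣ e then nrt p A B C else 0) + (if p ^ 2 ∣ e then nrt (p ^ 2) A B C else 0)

/-- the weight of a pair of squarefree numbers -/
def Nw (m₁ m₂ A : ℕ) (B C : ℤ) (e : ℕ) : ℕ :=
  ∏ p ∈ (m₁ * m₂).primeFactors, if p ∣ m₁ ∧ p ∣ m₂ then N2 p A B C e else N1 p A B C e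

/-- the unfolded sum of a weight and a function of forms, discriminant `-Δ` -/
noncomputable def US (Δ : ℕ) (ω : QF → ℕ → ℝ) (F : QF → ℝ) : ℝ :=
  ∑' p : ℕ × ℕ, ∑ B ∈ (Finset.range (2 * p.2)).filter (fun B => 4 * p.2 ∣ B ^ 2 + Δ),
    ω ((p.2 : ℤ), (B : ℤ), (((B ^ 2 + Δ) / (4 * p.2) : ℕ) : ℤ)) p.1 *
      F ((p.2 : ℤ), (B : ℤ), (((B ^ 2 + Δ) / (4 * p.2) : ℕ) : ℤ))

/-! ### The kernel and the central value of the Epstein zeta function -/

/-- the kernel -/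
noncomputable def Ek (q : ℝ) : ℝ :=
  (∫ t in Ioi (1 : ℝ), Real.exp (-(2 * π * q * t)) * t ^ (-(1 / 2) : ℝ)) +
    2 * (1 - 4 * π * q) * Real.exp (-(2 * π * q))

/-- the cut-off function -/
noncomputable def Vk (x : ℝ) : ℝ := Real.sqrt (2 * x) * Ek x

/-- the real form with leading coefficient `A`, middle coefficient `B`, discriminant `-Δ` -/
noncomputable def qd (A B Δ : ℝ) (v : ℤ × ℤ) : ℝ :=
  ((2 * A * v.1 + B * v.2) ^ 2 + Δ * (v.2 : ℝ) ^ 2) / (4 * A)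

/-- the theta function -/
noncomputable def Th (A B Δ t : ℝ) : ℝ :=
  ∑' v : ℤ × ℤ, Real.exp (-(2 * π * t * (qd A B Δ v / Real.sqrt Δ)))

/-- half the central value of the Epstein zeta function -/
noncomputable def zf (A B Δ : ℝ) : ℝ :=
  ∑' v : ℤ × ℤ, Vk (qd A B Δ v / Real.sqrt Δ) / Real.sqrt (qd A B Δ v)

/-- the same for an integral form -/
noncomputable def zq (Q : QF) : ℝ := zf Q.1 Q.2.1 (dsc Q)

/-- the mollified central value of a form -/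
noncomputable def Zc (S : Finset ℕ) (c : ℕ → ℝ) (Q : QF) : ℝ :=
  ∑' v : ℤ × ℤ, (∑ m ∈ S, c m * Vk (val Q v / (m * Real.sqrt (dsc Q))) * nu m Q v) /
    Real.sqrt (val Q v)

/-- the term of the unfolded second moment -/
noncomputable def Ut (m₁ m₂ Δ e A : ℕ) : ℝ :=
  ∑ B ∈ (Finset.range (2 * A)).filter (fun B => 4 * A ∣ B ^ 2 + Δ),
    Vk ((e : ℝ) ^ 2 * A / ((m₁ : ℝ) * m₂ * Real.sqrt Δ)) / Real.sqrt ((e : ℝ) ^ 2 * A) *
      Nw m₁ m₂ A B (((B ^ 2 + Δ) / (4 * A) : ℕ) : ℤ) e * zf A B Δ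

/-- the unfolded second moment -/
noncomputable def Uf (m₁ m₂ Δ : ℕ) : ℝ := ∑' p : ℕ × ℕ, Ut m₁ m₂ Δ p.1 p.2

/-- the theta constant -/
noncomputable def th1 (u : ℝ) : ℝ := ∑' n : ℤ, Real.exp (-(π * (n : ℝ) ^ 2 * u))

/-- the constant in the constant term -/
noncomputable def c0 : ℝ :=
  (∫ u in Ioi (2 : ℝ), (th1 u - 1) * u ^ (-(1 / 2) : ℝ)) +
    (∫ u in Ioi (1 / 2 : ℝ), (th1 u - 1) * u⁻¹) - 2 * Real.sqrt 2

/-- the constant term of `zf` in the middle coefficient -/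
noncomputable def ct (A Δ : ℝ) : ℝ := (Real.log (Real.sqrt Δ / A) + c0) / Real.sqrt A

end Pool.Agent.H31.CN
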