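import Pool.Agent.H31.CN.RAT

/-!
# The proportion for one field and the final theorem for Artin L-functions, all Frobenius
# elements at once
-/

set_option autoImplicit false

open MeasureTheory Set Filter NumberField
open scoped Real nonZeroDivisors

namespace Pool.Agent.H31.CN

open Pool.Agent.H28.RC Pool.Agent.H37.CA

/-- the irreducible characters of the Galois group of `L/ℚ` which are orthogonal of degree two
with an entire Artin `L`-function that does not vanish at `1/2` -/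
def GdI (L : Type) [Field L] [NumberField L] [IsGalois ℚ L] : Set ((L ≃ₐ[ℚ] L) → ℂ) :=
  {f | f ∈ Irr (L ≃ₐ[ℚ] L) ∧ f 1 = 2 ∧ Pool.Agent.H37.CA.nu f = 1 ∧
    ∀ F : Frb L, Pool.Agent.H37.CA.NV F f}

/-- (RT2) the proportion for one field. -/
def T_RT2 : Prop :=
  ∀ (D : ℕ) (K L : Type) [Field K] [NumberField K] [Field L] [NumberField L] [Algebra K L]
    [IsGalois ℚ L], 0 < D → Module.finrank ℚ K = 2 → discr K = -(D : ℤ) → IsRCF K L ⊤ →
    (Irr (L ≃ₐ[ℚ] L)).Finite ∧ prp K - 4 * ((rc K : ℝ) / classNumber K) ≤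
      ((GdI L).ncard : ℝ) / (Irr (L ≃ₐ[ℚ] L)).ncard

/-- (FR2) the final theorem for Artin `L`-functions. -/
def T_FR2 : Prop :=
  ∀ ε : ℝ, 0 < ε → ∃ X₀ : ℝ, ∀ X : ℝ, X₀ ≤ X →
    ∀ (K L : ℕ → Type) [∀ D, Field (K D)] [∀ D, NumberField (K D)] [∀ D, Field (L D)]
      [∀ D, NumberField (L D)] [∀ D, Algebra (K D) (L D)] [∀ D, IsGalois ℚ (L D)],
      (∀ D ∈ fam X, Module.finrank ℚ (K D) = 2 ∧ discr (K D) = -(D : ℤ) ∧
        IsRCF (K D) (L D) ⊤) →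
      (∀ D ∈ fam X, (Irr (L D ≃ₐ[ℚ] L D)).Finite) ∧
      (19 / 27 - ε) * (fam X).card ≤
        ∑ D ∈ fam X, ((GdI (L D)).ncard : ℝ) / (Irr (L D ≃ₐ[ℚ] L D)).ncard

theorem pf_RT2 (hQGA : T_QGA) (hICP : T_ICP) (hCOT : T_COT) (hINV : T_INV) (hGNC : T_GNC)
    (hNUO : T_NUO) (hART : T_ART) (hCH2 : T_CH2) (hGCT : Pool.Agent.H37.CA.T_GCT)
    (hIIR : Pool.Agent.H37.CA.T_IIR) (hFIB : Pool.Agent.H37.CA.T_FIB)
    (hGRF : Pool.Agent.H37.CA.T_GRF) (hCOM : Pool.Agent.H37.CA.T_COM) : T_RT2 := by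
  intro D K L _ _ _ _ _ _ hD hK hdis hL
  have := hQGA K hK
  have := hICP D K hD hK hdis
  obtain ⟨β, hβ⟩ := hCOT K L hL
  obtain ⟨hnorm, hidx, -, -, -⟩ := hGRF K L
  have := hnorm
  rw [hK] at hidx
  have hcom := hCOM K L ⊤ hL
  have hinv := hINV K L hK hL
  obtain ⟨hfin, hcnt⟩ := hGCT (L ≃ₐ[ℚ] L) (HF K L) hcom
  refine ⟨hfin, ?_⟩
  -- the characters of the class group
  have hcard : Nat.card (ClassGroup (𝓞 K) →* ℂˣ) = classNumber K := by
    rw [(hCH2 (ClassGroup (𝓞 K)) 1 0 (fun j h1 h2 => by omega)).2]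
    unfold classNumber
    rw [Nat.card_eq_fintype_card]
  have hh : 0 < classNumber K := classNumber_pos K
  have hf1 : Finite (ClassGroup (𝓞 K) →* ℂˣ) :=
    Nat.finite_of_card_ne_zero (by rw [hcard]; exact hh.ne')
  have hf2 : Finite (HF K L →* ℂˣ) := Finite.of_equiv _ β.toEquiv
  have hgnc := hGNC (L ≃ₐ[ℚ] L) (HF K L) hidx (fun g hg => (hinv g hg).2)
  -- the complement of `Gen`
  have hcomp : (Gen (HF K L))ᶜ.ncard = rc K := by
    have e : (Gen (HF K L))ᶜ = β '' {ψ | ψ * ψ = 1} := by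
      ext φ
      rw [mem_compl_iff, hgnc, not_not]
      constructor
      · intro h
        refine ⟨β.symm φ, ?_, β.apply_symm_apply φ⟩
        show β.symm φ * β.symm φ = 1
        rw [← map_mul, h, map_one]
      · rintro ⟨ψ, hψ, rfl⟩
        have hψ' : ψ * ψ = 1 := hψ
        rw [← map_mul, hψ', map_one]
    rw [e, Set.ncard_image_of_injective _ β.injective]
    rfl
  have hsum : (Gen (HF K L)).ncard + rc K = classNumber K := by
    rw [← hcomp, Set.ncard_add_ncard_compl, ← hcard]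
    exact Nat.card_congr β.toEquiv.symm
  -- the non-vanishing characters
  set V : Set (ClassGroup (𝓞 K) →* ℂˣ) := {ψ | NV K ψ} with hV
  set S : Set (HF K L →* ℂˣ) := β '' {ψ | ψ * ψ ≠ 1 ∧ NV K ψ} with hS
  have hVS : V.ncard ≤ S.ncard + rc K := by
    have h1 : V ⊆ {ψ | ψ * ψ ≠ 1 ∧ NV K ψ} ∪ {ψ | ψ * ψ = 1} := by
      intro ψ hψ
      by_cases h : ψ * ψ = 1
      · exact Or.inr h
      · exact Or.inl ⟨h, hψ⟩
    have h2 := (Set.ncard_le_ncard h1 (Set.toFinite _)).trans (Set.ncard_union_le _ _)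
    rw [hS, Set.ncard_image_of_injective _ β.injective]
    exact h2
  set T : Set ((L ≃ₐ[ℚ] L) → ℂ) := GdI L with hT
  have hTI : T ⊆ Irr (L ≃ₐ[ℚ] L) := fun f hf => hf.1
  have hTn : T.ncard ≤ (Irr (L ≃ₐ[ℚ] L)).ncard := Set.ncard_le_ncard hTI hfin
  have himg : (fun φ => indc (HF K L) φ) '' S ⊆ T := by
    rintro f ⟨φ, ⟨ψ, ⟨hψ1, hψ2⟩, rfl⟩, rfl⟩
    have hφ : β ψ * β ψ ≠ 1 := by
      rw [← map_mul]
      intro h
      exact hψ1 (β.injective (by rw [h, map_one]))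
    have hgen : β ψ ∈ Gen (HF K L) := (hgnc _).2 hφ
    obtain ⟨hi1, hi2⟩ := hIIR (L ≃ₐ[ℚ] L) (HF K L) hcom (β ψ) hgen
    refine ⟨hi1, ?_, ?_, ?_⟩
    · show indc (HF K L) (β ψ) 1 = 2
      rw [hi2, hidx]
      norm_num
    · exact hNUO (L ≃ₐ[ℚ] L) (HF K L) hidx hcom hinv (β ψ) hφ
    · intro F
      exact hART K L hK β hβ ψ (fun h => hψ1 (by
        rw [h]
        exact one_mul (1 : ClassGroup (𝓞 K) →* ℂˣ))) hψ2 F
  have hfib : S.ncard ≤ 2 * T.ncard := by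
    have h1 := hFIB (L ≃ₐ[ℚ] L) (HF K L) hcom S
    rw [hidx] at h1
    exact h1.trans (Nat.mul_le_mul_left 2 (Set.ncard_le_ncard himg (hfin.subset hTI)))
  rw [hidx, hcomp] at hcnt
  have hVh : V.ncard ≤ classNumber K := by
    rw [← hcard]
    exact Set.ncard_le_card V
  have hprp : prp K = (V.ncard : ℝ) / classNumber K := rfl
  rw [hprp]
  exact rat_num hh (g := (Gen (HF K L)).ncard) (by omega) hsum (by omega) hVh hTn

theorem pf_FR2 (hFIN : T_FIN) (hTAU : T_TAU) (hRAT : T_RT2) : T_FR2 := by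
  intro ε hε
  obtain ⟨X₁, hX₁⟩ := hFIN (ε / 2) (by positivity)
  obtain ⟨X₂, hX₂⟩ := hTAU (ε / 8) (by positivity)
  refine ⟨max X₁ X₂, fun X hX K L _ _ _ _ _ _ hKL => ?_⟩
  have h1 := hX₁ X ((le_max_left _ _).trans hX) K (fun D hD => ⟨(hKL D hD).1, (hKL D hD).2.1⟩)
  have h2 := hX₂ X ((le_max_right _ _).trans hX) K (fun D hD => ⟨(hKL D hD).1, (hKL D hD).2.1⟩)
  have h3 : ∀ D ∈ fam X, (Irr (L D ≃ₐ[ℚ] L D)).Finite ∧
      prp (K D) - 4 * ((rc (K D) : ℝ) / classNumber (K D)) ≤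
        ((GdI (L D)).ncard : ℝ) / (Irr (L D ≃ₐ[ℚ] L D)).ncard := by
    intro D hD
    have hD' := hD
    unfold fam at hD'
    rw [Finset.mem_filter] at hD'
    exact hRAT D (K D) (L D) (by omega) (hKL D hD).1 (hKL D hD).2.1 (hKL D hD).2.2
  refine ⟨fun D hD => (h3 D hD).1, ?_⟩
  have h4 : ∑ D ∈ fam X, (prp (K D) - 4 * ((rc (K D) : ℝ) / classNumber (K D))) ≤
      ∑ D ∈ fam X, ((GdI (L D)).ncard : ℝ) / (Irr (L D ≃ₐ[ℚ] L D)).ncard := Finset.sum_le_sum fun D hD => (h3 D hD).2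
  rw [Finset.sum_sub_distrib, ← Finset.mul_sum] at h4
  linarith

end Pool.Agent.H31.CN
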