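import Pool.Agent.H1.CA.GRF
import Pool.Agent.H19.CA.ALH
import Pool.Agent.H20.CN.COT
import Pool.Agent.H20.CN.INV
import Pool.Agent.H22.CA.BES
import Pool.Agent.H22.CA.Mono
import Pool.Agent.H22.CN.NUO
import Pool.Agent.H22.CN.SPI
import Pool.Agent.H25.CA.ALF
import Pool.Agent.H25.CA.EUP
import Pool.Agent.H28.RC.Final
import Pool.Agent.H3.CA.MUL
import Pool.Agent.H31.CN.FinA
import Pool.Agent.H31.CN.RAT2
import Pool.Agent.H31.CN.Sml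
import Pool.Agent.H42.CA.COM
import Pool.Agent.H49.CN.ART
import Pool.Agent.H51.CA.TRN
import Pool.Agent.H51.CN.ENT
import Pool.Agent.H63.CN.NSP
import Pool.Agent.H63.CN.QGA
import Pool.Agent.H63.CN.TAU
import Pool.Agent.H69.CN.CH2
import Pool.Agent.H95.CG.Final
import Pool.Agent.H99.CN.ORD
import Pool.Agent.H99.CN.PRNA

/-!
# The assembly, part B: the irreducible characters
-/

set_option autoImplicit false

namespace Pool.Agent.H31.CN.Fin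

open Pool.Agent.H31.CN

theorem x_EUP : Pool.Agent.H37.CA.T_EUP :=
  Pool.Agent.H25.CA.pf_EUP Pool.Agent.H28.RC.T_EPc_proved Pool.Agent.H28.RC.T_CM3_proved
    Pool.Agent.H11.HK.lp Pool.Agent.H11.HK.pw Pool.Agent.H48.DL.al

theorem x_ALH : Pool.Agent.H37.CA.T_ALH :=
  Pool.Agent.H19.CA.pf_ALH x_EUP Pool.Agent.H28.RC.c_RC2 Pool.Agent.H28.RC.T_FNR_proved
    Pool.Agent.H11.HK.tr

theorem x_ALF : Pool.Agent.H37.CA.T_ALF :=
  Pool.Agent.H25.CA.pf_ALF Pool.Agent.H51.CA.pf_TRN x_ALH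

theorem x_GCT : Pool.Agent.H37.CA.T_GCT :=
  Pool.Agent.H22.CA.pf_GCT Pool.Agent.H3.CA.pf_MUL Pool.Agent.H22.CA.pf_BES

theorem x_IIR : Pool.Agent.H37.CA.T_IIR := Pool.Agent.H22.CA.pf_IIR

theorem x_FIB : Pool.Agent.H37.CA.T_FIB := Pool.Agent.H22.CA.pf_FIB

theorem x_GRF : Pool.Agent.H37.CA.T_GRF := Pool.Agent.H1.CA.pf_GRF

theorem x_COM : Pool.Agent.H37.CA.T_COM := Pool.Agent.H42.CA.pf_COM x_GRF

theorem c_CH2 : T_CH2 := Pool.Agent.H69.CN.pf_CH2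

theorem c_COT : T_COT := Pool.Agent.H20.CN.pf_COT x_GRF

theorem c_ENT : T_ENT := Pool.Agent.H51.CN.pf_ENT Pool.Agent.H95.CG.FI_proved

theorem c_GNC : T_GNC := Pool.Agent.H31.CN.pf_GNC

theorem c_ICP : T_ICP := Pool.Agent.H31.CN.pf_ICP

theorem c_INV : T_INV := Pool.Agent.H20.CN.INV.pf_INV Pool.Agent.H28.RC.c_FRE x_GRF

theorem c_NSP : T_NSP := Pool.Agent.H63.CN.pf_NSP c_CHS

theorem c_NUO : T_NUO := Pool.Agent.H22.CN.pf_NUO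

theorem c_PRN : T_PRN := Pool.Agent.H99.CN.pf_PRN c_OB0

theorem c_QGA : T_QGA := Pool.Agent.H63.CN.pf_QGA

theorem c_RCH : T_RCH := Pool.Agent.H31.CN.pf_RCH

theorem c_ART : T_ART := Pool.Agent.H49.CN.pf_ART c_RCH c_ENT x_ALF Pool.Agent.H28.RC.c_FRE

theorem c_RT2 : T_RT2 :=
  Pool.Agent.H31.CN.pf_RT2 c_QGA c_ICP c_COT c_INV c_GNC c_NUO c_ART c_CH2 x_GCT x_IIR x_FIB x_GRF x_COM

theorem c_SPI : T_SPI := Pool.Agent.H22.CN.pf_SPI c_OB0 c_OB4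

theorem c_ORD : T_ORD := Pool.Agent.H99.CN.pf_ORD c_SPI c_PRN

theorem c_TAU : T_TAU := Pool.Agent.H63.CN.pf_TAU c_NSP c_ORD c_CH2 c_CHS

theorem c_FR2 : T_FR2 := Pool.Agent.H31.CN.pf_FR2 c_FIN c_TAU c_RT2

end Pool.Agent.H31.CN.Fin
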