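import Pool.Agent.H31.CN.Defs

/-!
# The group ring that carries the arithmetic of the main term

An element of `GR` is a finite real combination of symbols `E x y`; the symbol `E x y` stands
for the operator that shifts the two logarithmic variables by `x` and `y`.
-/

set_option autoImplicit false

open scoped Real

namespace Pool.Agent.H31.CN

/-- the group ring of `ℝ × ℝ` -/
abbrev GR : Type := AddMonoidAlgebra ℝ (ℝ × ℝ)

/-- the symbol of the shift by `(x, y)` -/
noncomputable def E (x y : ℝ) : GR := AddMonoidAlgebra.single (x, y) 1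

theorem E_zero : E 0 0 = 1 := rfl

theorem E_mul (x y x' y' : ℝ) : E x y * E x' y' = E (x + x') (y + y') := by
  unfold E
  rw [AddMonoidAlgebra.single_mul_single]
  simp

/-- the linear functional with given values at the symbols -/
noncomputable def lin (f : ℝ × ℝ → ℝ) : GR →ₗ[ℝ] ℝ where
  toFun r := Finsupp.linearCombination ℝ f r.coeff
  map_add' r s := by
    rw [AddMonoidAlgebra.coeff_add, map_add]
  map_smul' a r := by
    rw [AddMonoidAlgebra.coeff_smul, map_smul]
    rfl

theorem lin_E (f : ℝ × ℝ → ℝ) (x y : ℝ) : lin f (E x y) = f (x, y) := by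
  show Finsupp.linearCombination ℝ f (E x y).coeff = _
  unfold E
  rw [AddMonoidAlgebra.coeff_single]
  simp

theorem lin_one (f : ℝ × ℝ → ℝ) : lin f 1 = f (0, 0) := lin_E f 0 0

theorem GR_induction {P : GR → Prop} (r : GR) (h0 : P 0)
    (hadd : ∀ r s, P r → P s → P (r + s)) (hE : ∀ (a x y : ℝ), P (a • E x y)) : P r := by
  induction r using AddMonoidAlgebra.induction_linear with
  | zero => exact h0
  | add r s hr hs => exact hadd r s hr hs
  | single m a =>
    have : AddMonoidAlgebra.single m a = a • E m.1 m.2 := by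
      unfold E
      rw [AddMonoidAlgebra.smul_single]
      simp
    rw [this]
    exact hE a m.1 m.2

/-- two linear functionals that agree at the symbols agree -/
theorem lin_ext (L : GR →ₗ[ℝ] ℝ) (f : ℝ × ℝ → ℝ) (h : ∀ x y, L (E x y) = f (x, y)) (r : GR) :
    L r = lin f r := by
  induction r using GR_induction with
  | h0 => rw [map_zero, map_zero]
  | hadd r s hr hs => rw [map_add, map_add, hr, hs]
  | hE a x y => rw [map_smul, map_smul, h, lin_E]

/-- the moments -/
noncomputable def mo (i j : ℕ) : GR →ₗ[ℝ] ℝ := lin (fun v => v.1 ^ i * v.2 ^ j)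

theorem mo_E (i j : ℕ) (x y : ℝ) : mo i j (E x y) = x ^ i * y ^ j := lin_E _ x y

theorem mo_one (i j : ℕ) : mo i j 1 = 0 ^ i * 0 ^ j := mo_E i j 0 0

/-- the total variation -/
noncomputable def tv (r : GR) : ℝ := r.coeff.sum (fun _ a => |a|)

/-- `al p = p⁻¹ (shift in the first variable + shift in the second variable)` -/
noncomputable def al (p : ℕ) : GR :=
  (1 / (p : ℝ)) • (E (Real.log p) 0 + E 0 (Real.log p))

/-- `et p = p⁻¹ - p⁻³ (shift of both variables)` -/
noncomputable def et (p : ℕ) : GR :=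
  (1 / (p : ℝ)) • (1 : GR) - (1 / (p : ℝ) ^ 3) • E (Real.log p) (Real.log p)

/-- the element of a pair of squarefree numbers -/
noncomputable def ka (m₁ m₂ : ℕ) : GR :=
  ∏ p ∈ (m₁ * m₂).primeFactors, if p ∣ m₁ ∧ p ∣ m₂ then et p + al p ^ 2 else al p

/-- the first basic sum -/
noncomputable def S0 (Y : ℝ) : ℝ :=
  ∑' x : ℕ × ℕ, Vk ((x.1 : ℝ) ^ 2 * x.2 * Real.exp (-Y)) / ((x.1 : ℝ) * x.2)

/-- the second basic sum -/
noncomputable def S1 (Y : ℝ) : ℝ :=
  ∑' x : ℕ × ℕ, Vk ((x.1 : ℝ) ^ 2 * x.2 * Real.exp (-Y)) * Real.log x.2 / ((x.1 : ℝ) * x.2)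

/-- the basic function of the two logarithmic variables -/
noncomputable def SS (u v : ℝ) : ℝ := (u + c0) * S0 v - S1 v

/-- the main term functional -/
noncomputable def Ph (l : ℝ) : GR →ₗ[ℝ] ℝ := lin (fun v => SS (l - v.1) (l - v.2))

end Pool.Agent.H31.CN
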