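import Pool.Agent.H31.CN.T6

/-!
# (GNC), (ICP), (RCH)
-/

set_option autoImplicit false

open MeasureTheory Set Filter NumberField
open scoped Real nonZeroDivisors

namespace Pool.Agent.H31.CN

open Pool.Agent.H28.RC Pool.Agent.H37.CA

theorem pf_GNC : T_GNC := by
  intro G _ _ A _ hidx hinv φ
  have hex : ∃ g : G, g ∉ A := by
    by_contra h
    push Not at h
    have : A = ⊤ := (Subgroup.eq_top_iff' A).2 h
    rw [this, Subgroup.index_top] at hidx
    omega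
  constructor
  · intro hφ hone
    obtain ⟨g, hg⟩ := hex
    obtain ⟨a, h, hne⟩ := hφ g hg
    apply hne
    have e : (⟨g⁻¹ * a * g, h⟩ : A) = a⁻¹ := Subtype.ext (hinv g hg a a.2)
    rw [e, map_inv, inv_eq_iff_mul_eq_one]
    have := DFunLike.congr_fun hone a
    exact this
  · intro hne g hg
    have : ∃ a : A, φ a * φ a ≠ 1 := by
      by_contra h
      push Not at h
      exact hne (MonoidHom.ext h)
    obtain ⟨a, ha⟩ := this
    refine ⟨a, ?_, ?_⟩
    · rw [hinv g hg a a.2]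
      exact A.inv_mem a.2
    · intro h
      apply ha
      have e : (⟨g⁻¹ * a * g, by rw [hinv g hg a a.2]; exact A.inv_mem a.2⟩ : A) = a⁻¹ :=
        Subtype.ext (hinv g hg a a.2)
      rw [e, map_inv, inv_eq_iff_mul_eq_one] at h
      exact h

open Classical in
/-- the function of a class group character on the ideals -/
noncomputable def cgf {K : Type} [Field K] [NumberField K] (ψ : ClassGroup (𝓞 K) →* ℂˣ)
    (I : Ideal (𝓞 K)) : ℂ :=
  if h : I = ⊥ then 0 else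
    ((ψ (ClassGroup.mk0 ⟨I, mem_nonZeroDivisors_of_ne_zero h⟩) : ℂˣ) : ℂ)

theorem cgf_ne {K : Type} [Field K] [NumberField K] (ψ : ClassGroup (𝓞 K) →* ℂˣ)
    {I : Ideal (𝓞 K)} (h : I ≠ ⊥) : cgf ψ I =
      ((ψ (ClassGroup.mk0 ⟨I, mem_nonZeroDivisors_of_ne_zero h⟩) : ℂˣ) : ℂ) := dif_neg h

theorem cgf_bot {K : Type} [Field K] [NumberField K] (ψ : ClassGroup (𝓞 K) →* ℂˣ) :
    cgf ψ ⊥ = 0 := dif_pos rfl

theorem cgf_princ {K : Type} [Field K] [NumberField K] (ψ : ClassGroup (𝓞 K) →* ℂˣ)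
    {a : 𝓞 K} (ha : a ≠ 0) : cgf ψ (Ideal.span {a}) = 1 := by
  have h : Ideal.span {a} ≠ ⊥ := by
    rw [Ne, Ideal.span_singleton_eq_bot]
    exact ha
  rw [cgf_ne ψ h]
  have h2 : ClassGroup.mk0 (⟨Ideal.span {a}, mem_nonZeroDivisors_of_ne_zero h⟩ :
      (Ideal (𝓞 K))⁰) = 1 := by
    rw [ClassGroup.mk0_eq_one_iff]
    exact ⟨⟨a, rfl⟩⟩
  rw [h2, map_one, Units.val_one]

theorem cgf_mul {K : Type} [Field K] [NumberField K] (ψ : ClassGroup (𝓞 K) →* ℂˣ)
    (I J : Ideal (𝓞 K)) : cgf ψ (I * J) = cgf ψ I * cgf ψ J := by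
  by_cases hI : I = ⊥
  · rw [hI, Ideal.bot_mul, cgf_bot, zero_mul]
  by_cases hJ : J = ⊥
  · rw [hJ, Ideal.mul_bot, cgf_bot, mul_zero]
  rw [cgf_ne ψ hI, cgf_ne ψ hJ, cgf_ne ψ (mul_ne_zero hI hJ), ← Units.val_mul, ← map_mul,
    ← map_mul]
  rfl

theorem cgf_norm {K : Type} [Field K] [NumberField K] (ψ : ClassGroup (𝓞 K) →* ℂˣ)
    {I : Ideal (𝓞 K)} (hI : I ≠ ⊥) : ‖cgf ψ I‖ = 1 := by
  rw [cgf_ne ψ hI]
  refine Complex.norm_eq_one_of_pow_eq_one (n := Nat.card (ClassGroup (𝓞 K))) ?_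
    Nat.card_pos.ne'
  rw [← Units.val_pow_eq_pow_val, ← map_pow, pow_card_eq_one', map_one, Units.val_one]

/-- the ray class character of a class group character -/
noncomputable def cgr {K : Type} [Field K] [NumberField K] (ψ : ClassGroup (𝓞 K) →* ℂˣ) :
    RCC K where
  f := ⊤
  S := ∅
  ψ := cgf ψ
  f_ne := top_ne_bot
  map_one := by
    have h := cgf_princ ψ (one_ne_zero : (1 : 𝓞 K) ≠ 0)
    rwa [Ideal.span_singleton_one] at h
  map_mul := cgf_mul ψ
  map_bot := cgf_bot ψ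
  norm_one I hI _ := cgf_norm ψ hI
  eq_zero I hI := absurd (sup_top_eq I) hI
  princ a ha _ := by
    rw [cgf_princ ψ ha]
    unfold sg
    rw [Finset.prod_empty]
  prim P hP hle := absurd (top_le_iff.1 hle) hP.ne_top

theorem pf_RCH : T_RCH := by
  intro K _ _ ψ
  refine ⟨cgr ψ, fun I => ?_⟩
  show cgf ψ I = _
  rw [cgf_ne ψ (nonZeroDivisors.coe_ne_zero I)]

theorem pf_ICP : T_ICP := by
  intro D K _ _ hD hK hdis
  have h1 := NumberField.sign_discr K
  rw [hdis] at h1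
  have h2 : Int.sign (-(D : ℤ)) = -1 := Int.sign_eq_neg_one_of_neg (by omega)
  rw [h2] at h1
  have h3 := InfinitePlace.card_add_two_mul_card_eq_rank K
  rw [hK] at h3
  have h4 : InfinitePlace.nrComplexPlaces K ≤ 1 := by omega
  have h5 : InfinitePlace.nrComplexPlaces K ≠ 0 := by
    intro h
    rw [h, pow_zero] at h1
    omega
  have h6 : InfinitePlace.nrRealPlaces K = 0 := by omega
  exact nrRealPlaces_eq_zero_iff.1 h6

end Pool.Agent.H31.CN
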