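import Pool.Agent.H31.CN.T4

/-!
# Targets, part 5: class groups of imaginary quadratic fields, the final theorem
-/

set_option autoImplicit false

open MeasureTheory Set Filter NumberField
open scoped Real nonZeroDivisors

namespace Pool.Agent.H31.CN

/-- `F` is the `L`-function of the class group character `ψ`: holomorphic away from `1` and given
by the Dirichlet series for `Re s > 1` -/
def IsLf (K : Type) [Field K] [NumberField K] (ψ : ClassGroup (𝓞 K) →* ℂˣ) (F : ℂ → ℂ) : Prop :=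
  DifferentiableOn ℂ F {1}ᶜ ∧ ∀ s : ℂ, 1 < s.re →
    HasSum (fun I : (Ideal (𝓞 K))⁰ => ((ψ (ClassGroup.mk0 I) : ℂˣ) : ℂ) *
      (Ideal.absNorm (I : Ideal (𝓞 K)) : ℂ) ^ (-s)) (F s)

/-- the `L`-function of `ψ` does not vanish at `1/2` -/
def NV (K : Type) [Field K] [NumberField K] (ψ : ClassGroup (𝓞 K) →* ℂˣ) : Prop :=
  ∃ F : ℂ → ℂ, IsLf K ψ F ∧ F (1 / 2) ≠ 0

/-- oriented basis of an ideal of a quadratic field, with its quadratic form -/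
structure OB (K : Type) [Field K] [NumberField K] (σ : K →+* ℂ) (I : Ideal (𝓞 K))
    (α β : 𝓞 K) (Q : QF) : Prop where
  mem : ∀ γ : 𝓞 K, γ ∈ I ↔ ∃ v : ℤ × ℤ, γ = (v.1 : 𝓞 K) * α + (v.2 : 𝓞 K) * β
  inj : ∀ v : ℤ × ℤ, (v.1 : 𝓞 K) * α + (v.2 : 𝓞 K) * β = 0 → v = 0
  nrm : ∀ v : ℤ × ℤ, Complex.normSq (σ (((v.1 : 𝓞 K) * α + (v.2 : 𝓞 K) * β : 𝓞 K) : K)) =
    (Ideal.absNorm I : ℝ) * val Q v
  ori : 0 < ((starRingEnd ℂ) (σ (α : K)) * σ (β : K)).im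

/-- (OB1) every ideal has an oriented basis. -/
def T_OB1 : Prop :=
  ∀ (D : ℕ) (K : Type) [Field K] [NumberField K] (σ : K →+* ℂ), 3 < D → D % 4 = 3 →
    Module.finrank ℚ K = 2 → discr K = -(D : ℤ) → ∀ I : Ideal (𝓞 K), I ≠ ⊥ →
    ∃ (α β : 𝓞 K) (Q : QF), Q ∈ FD D ∧ OB K σ I α β Q

/-- (OB0) the unit ideal has the principal form. -/
def T_OB0 : Prop :=
  ∀ (D : ℕ) (K : Type) [Field K] [NumberField K] (σ : K →+* ℂ), 3 < D → D % 4 = 3 →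
    Module.finrank ℚ K = 2 → discr K = -(D : ℤ) →
    ∃ (α β : 𝓞 K), OB K σ ⊤ α β (1, 1, ((D : ℤ) + 1) / 4)

/-- (OB2) ideals with equivalent forms are in the same class. -/
def T_OB2 : Prop :=
  ∀ (K : Type) [Field K] [NumberField K] (σ : K →+* ℂ) (I J : (Ideal (𝓞 K))⁰)
    (α β α' β' : 𝓞 K) (Q Q' : QF) (g : Matrix.SpecialLinearGroup (Fin 2) ℤ),
    OB K σ I α β Q → OB K σ J α' β' Q' → act Q g = Q' → ClassGroup.mk0 I = ClassGroup.mk0 J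

/-- (AUT) forms of squarefree discriminant have only trivial automorphisms. -/
def T_AUT : Prop :=
  ∀ (D : ℕ) (Q : QF) (g : Matrix.SpecialLinearGroup (Fin 2) ℤ), 4 < D → Squarefree D →
    Q ∈ FD D → act Q g = Q → g = 1 ∨ g = -1

/-- (OB3) the vectors of an ideal and the integral ideals of the inverse class. -/
def T_OB3 : Prop :=
  ∀ (D : ℕ) (K : Type) [Field K] [NumberField K] (σ : K →+* ℂ), 3 < D → D % 4 = 3 →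
    Module.finrank ℚ K = 2 → discr K = -(D : ℤ) → ∀ (I : (Ideal (𝓞 K))⁰) (α β : 𝓞 K) (Q : QF),
    OB K σ I α β Q → ∃ b : ℤ × ℤ → (Ideal (𝓞 K))⁰,
      (∀ v, v ≠ 0 → Ideal.span {(v.1 : 𝓞 K) * α + (v.2 : 𝓞 K) * β} =
        (b v : Ideal (𝓞 K)) * I) ∧
      (∀ v, v ≠ 0 → ClassGroup.mk0 (b v) = (ClassGroup.mk0 I)⁻¹ ∧
        (Ideal.absNorm (b v : Ideal (𝓞 K)) : ℤ) = val Q v) ∧
      (∀ J : (Ideal (𝓞 K))⁰, ClassGroup.mk0 J = (ClassGroup.mk0 I)⁻¹ → ∃ v, v ≠ 0 ∧ b v = J) ∧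
      (∀ v v', v ≠ 0 → v' ≠ 0 → (b v = b v' ↔ v' = v ∨ v' = -v))

/-- (OB4) the local numbers count the prime divisors of norm `p`. -/
def T_OB4 : Prop :=
  ∀ (D : ℕ) (K : Type) [Field K] [NumberField K] (σ : K →+* ℂ), 3 < D → D % 4 = 3 →
    Module.finrank ℚ K = 2 → discr K = -(D : ℤ) → ∀ (I b : (Ideal (𝓞 K))⁰) (α β : 𝓞 K) (Q : QF)
    (v : ℤ × ℤ) (p : ℕ),
    OB K σ I α β Q → v ≠ 0 → p.Prime → Ideal.span {(v.1 : 𝓞 K) * α + (v.2 : 𝓞 K) * β} =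
        (b : Ideal (𝓞 K)) * I →
      nul p Q v = Nat.card {P : Ideal (𝓞 K) // Ideal.absNorm P = p ∧ P ∣ (b : Ideal (𝓞 K))}

/-- (OB5) divisors of squarefree norm. -/
def T_OB5 : Prop :=
  ∀ (K : Type) [Field K] [NumberField K] (b : (Ideal (𝓞 K))⁰) (m : ℕ), Squarefree m →
    Nat.card {P : Ideal (𝓞 K) // Ideal.absNorm P = m ∧ P ∣ (b : Ideal (𝓞 K))} =
      ∏ p ∈ m.primeFactors,
        Nat.card {P : Ideal (𝓞 K) // Ideal.absNorm P = p ∧ P ∣ (b : Ideal (𝓞 K))}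

/-- (CG) forms for the ideal classes, and the `L`-functions. -/
def T_CG : Prop :=
  ∀ (D : ℕ) (K : Type) [Field K] [NumberField K], 4 < D → D % 4 = 3 → Squarefree D →
    Module.finrank ℚ K = 2 → discr K = -(D : ℤ) →
    ∃ (Q : ClassGroup (𝓞 K) → QF) (L : (ClassGroup (𝓞 K) →* ℂˣ) → ℂ → ℂ),
      (∀ c, Q c ∈ FD D) ∧ (∀ c c' g, act (Q c) g = Q c' → c = c' ∧ (g = 1 ∨ g = -1)) ∧
      Q 1 = (1, 1, ((D : ℤ) + 1) / 4) ∧ (∀ ψ, IsLf K ψ (L ψ)) ∧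
      ∀ (S : Finset ℕ) (c : ℕ → ℝ), (∀ m ∈ S, Squarefree m) → ∀ ψ, L ψ (1 / 2) = 0 →
        ∑ᶠ x : ClassGroup (𝓞 K), ((ψ x : ℂˣ) : ℂ) * ((Zc S c (Q x) : ℝ) : ℂ) = 0

/-- (CSG) Cauchy's inequality over the characters of a finite abelian group. -/
def T_CSG : Prop :=
  ∀ (G : Type) [CommGroup G] [Fintype G] (Z : G → ℝ),
    ((Fintype.card G : ℝ) * Z 1) ^ 2 ≤
      (Nat.card {ψ : G →* ℂˣ // ∑ g, ((ψ g : ℂˣ) : ℂ) * ((Z g : ℝ) : ℂ) ≠ 0} : ℝ) *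
        (Fintype.card G * ∑ g, Z g ^ 2)

/-- the proportion of the class group characters that do not vanish at `1/2` -/
noncomputable def prp (K : Type) [Field K] [NumberField K] : ℝ :=
  (Nat.card {ψ : ClassGroup (𝓞 K) →* ℂˣ // NV K ψ} : ℝ) / classNumber K

/-- (PRO) the proportion for one field. -/
def T_PRO : Prop :=
  ∀ (D : ℕ) (K : Type) [Field K] [NumberField K], 4 < D → D % 4 = 3 → Squarefree D →
    Module.finrank ℚ K = 2 → discr K = -(D : ℤ) →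
    0 ≤ prp K ∧ prp K ≤ 1 ∧ ∀ (S : Finset ℕ) (c : ℕ → ℝ), (∀ m ∈ S, Squarefree m) →
      (Zc S c (1, 1, ((D : ℤ) + 1) / 4)) ^ 2 ≤ prp K *
        (2 * ∑ m₁ ∈ S, ∑ m₂ ∈ S, c m₁ * c m₂ * Uf m₁ m₂ D)

/-- (OPT) the optimal polynomial, approximately. -/
def T_OPT : Prop :=
  ∀ ε : ℝ, 0 < ε → ∃ (P : Polynomial ℝ) (θ : ℝ), Polynomial.X ^ 5 ∣ P ∧ 0 < θ ∧ θ < 1 / 4 ∧
    0 < Mt P (1 / (2 * θ)) ∧
    (19 / 27 - ε) * Mt P (1 / (2 * θ)) ≤ (P.eval 1 + 1 / (2 * θ) * P.derivative.eval 1) ^ 2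

/-- (CSF) Cauchy's inequality over the family. -/
def T_CSF : Prop :=
  ∀ (s : Finset ℕ) (G pr Z T : ℕ → ℝ), (∀ D ∈ s, 0 ≤ G D) → (∀ D ∈ s, 0 ≤ pr D) →
    (∀ D ∈ s, 0 ≤ T D) → (∀ D ∈ s, Z D ^ 2 ≤ pr D * T D) →
    (∑ D ∈ s, G D * Z D) ^ 2 ≤ (∑ D ∈ s, G D * pr D) * ∑ D ∈ s, G D * T D

/-- (SMO) the proportion with smooth weights. -/
def T_SMO : Prop :=
  ∀ (G : ℝ → ℝ) (η : ℝ), 0 < η → ContDiff ℝ (⊤ : ℕ∞) G → (∀ u, u ∉ Icc η 1 → G u = 0) →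
    (∀ u, 0 ≤ G u) → 0 < ∫ u in Ioi (0 : ℝ), G u → ∀ ε : ℝ, 0 < ε → ∃ X₀ : ℝ, ∀ X : ℝ, X₀ ≤ X →
    ∀ (K : ℕ → Type) [∀ D, Field (K D)] [∀ D, NumberField (K D)],
      (∀ D ∈ fam X, Module.finrank ℚ (K D) = 2 ∧ discr (K D) = -(D : ℤ)) →
      (19 / 27 - ε) * (X * (2 / π ^ 2) * ∫ u in Ioi (0 : ℝ), G u) ≤
        ∑ D ∈ fam X, G (D / X) * prp (K D)

/-- the final theorem -/
def T_FIN : Prop :=
  ∀ ε : ℝ, 0 < ε → ∃ X₀ : ℝ, ∀ X : ℝ, X₀ ≤ X →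
    ∀ (K : ℕ → Type) [∀ D, Field (K D)] [∀ D, NumberField (K D)],
      (∀ D ∈ fam X, Module.finrank ℚ (K D) = 2 ∧ discr (K D) = -(D : ℤ)) →
      (19 / 27 - ε) * (fam X).card ≤ ∑ D ∈ fam X, prp (K D)

end Pool.Agent.H31.CN
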