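import Pool.Agent.H31.CN.T4

/-!
# Target (AB): Abel summation for the first moment
-/

set_option autoImplicit false

open MeasureTheory Set Filter
open scoped Real

namespace Pool.Agent.H31.CN

/-- (AB) smooth sums of characters over the fundamental discriminants. -/
def T_AB : Prop :=
  ∀ (G : ℝ → ℝ) (η : ℝ), 0 < η → ContDiff ℝ (⊤ : ℕ∞) G → (∀ u, u ∉ Icc η 1 → G u = 0) →
    ∃ C X₀ : ℝ, 0 < C ∧ 1 ≤ X₀ ∧ ∀ X : ℝ, X₀ ≤ X →
      |(∑ D ∈ fam X, G (D / X)) - 2 / π ^ 2 * X * ∫ u in Ioi (0 : ℝ), G u| ≤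
        C * X ^ (3 / 4 : ℝ) ∧
      ∀ l : ℕ, 1 < l → Squarefree l →
        |∑ D ∈ fam X, G (D / X) * ∏ p ∈ l.primeFactors, (chi p D : ℝ)| ≤
          C * l * X ^ (3 / 4 : ℝ) ∧
        ∀ c : ℝ, |∑ D ∈ fam X, G (D / X) * (Real.log (Real.sqrt D) + c) *
            ∏ p ∈ l.primeFactors, (chi p D : ℝ)| ≤
          C * (1 + |c| + Real.log X) * l * X ^ (3 / 4 : ℝ)

end Pool.Agent.H31.CN
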