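import Pool.Agent.H31.CN.T1
import Pool.Agent.H31.CN.T2

/-!
# (UNF) preparations: the index set of the unfolded sum
-/

set_option autoImplicit false

open MeasureTheory Set Filter
open scoped Real Matrix MatrixGroups

namespace Pool.Agent.H31.CN

/-- the form with given first two coefficients -/
def qf3 (Δ A B : ℕ) : QF := ((A : ℤ), (B : ℤ), (((B ^ 2 + Δ) / (4 * A) : ℕ) : ℤ))

theorem qf3_mem {Δ A B : ℕ} (hA : 1 ≤ A) (hd : 4 * A ∣ B ^ 2 + Δ) : qf3 Δ A B ∈ FD Δ := by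
  refine ⟨by simp only [qf3]; exact_mod_cast hA, ?_⟩
  obtain ⟨C, hC⟩ := hd
  have h4 : (B ^ 2 + Δ) / (4 * A) = C := by
    rw [hC]; exact Nat.mul_div_cancel_left C (by omega)
  simp only [qf3, dsc, h4]
  have hC' : ((B : ℤ) ^ 2 + Δ) = 4 * A * C := by exact_mod_cast hC
  linear_combination -hC'

theorem US_eq (Δ : ℕ) (ω : QF → ℕ → ℝ) (F : QF → ℝ) :
    US Δ ω F = ∑' p : ℕ × ℕ, ∑ B ∈ (Finset.range (2 * p.2)).filter
      (fun B => 4 * p.2 ∣ B ^ 2 + Δ), ω (qf3 Δ p.2 B) p.1 * F (qf3 Δ p.2 B) := rfl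

theorem mem_rng {A B Δ : ℕ}
    (h : B ∈ (Finset.range (2 * A)).filter (fun B => 4 * A ∣ B ^ 2 + Δ)) :
    1 ≤ A ∧ 4 * A ∣ B ^ 2 + Δ := by
  rw [Finset.mem_filter, Finset.mem_range] at h
  exact ⟨by omega, h.2⟩

theorem US_congr {Δ : ℕ} {ω ω' : QF → ℕ → ℝ} {F F' : QF → ℝ}
    (h1 : ∀ Q ∈ FD Δ, ∀ e, ω Q e = ω' Q e) (h2 : ∀ Q ∈ FD Δ, F Q = F' Q) :
    US Δ ω F = US Δ ω' F' := by
  rw [US_eq, US_eq]
  refine tsum_congr fun p => Finset.sum_congr rfl fun B hB => ?_
  obtain ⟨hA, hd⟩ := mem_rng hB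
  rw [h1 _ (qf3_mem hA hd), h2 _ (qf3_mem hA hd)]

/-- the summability of the unfolded sum -/
theorem US_summable {Δ k : ℕ} {K K' c : ℝ} {ω : QF → ℕ → ℝ} {F : QF → ℝ} (hc : 0 < c)
    (h0 : ∀ Q ∈ FD Δ, ω Q 0 = 0)
    (hω : ∀ Q ∈ FD Δ, ∀ e, |ω Q e| ≤ K * Real.exp (-(c * ((e : ℝ) ^ 2 * Q.1))))
    (hF : ∀ Q ∈ FD Δ, |F Q| ≤ K' * (1 + (Q.1 : ℝ)) ^ k) :
    Summable (fun p : ℕ × ℕ => ∑ B ∈ (Finset.range (2 * p.2)).filter
      (fun B => 4 * p.2 ∣ B ^ 2 + Δ), ω (qf3 Δ p.2 B) p.1 * F (qf3 Δ p.2 B)) := by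
  -- compare with a product
  have hgeo : Summable (fun e : ℕ => Real.exp (-(c / 2 * e))) := by
    have := Real.summable_exp_neg_nat.comp_injective (i := id) Function.injective_id
    have h2 : ∀ e : ℕ, Real.exp (-(c / 2 * e)) = Real.exp (-(c / 2)) ^ e := by
      intro e; rw [← Real.exp_nat_mul]; congr 1; ring
    simp_rw [h2]
    exact summable_geometric_of_lt_one (Real.exp_pos _).le (by
      rw [Real.exp_lt_one_iff]; linarith)
  have hpol : Summable (fun A : ℕ => 2 * (A : ℝ) * (|K| * |K'|) * (1 + (A : ℝ)) ^ k *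
      Real.exp (-(c / 2 * A))) := by
    have h2 : ∀ e : ℕ, Real.exp (-(c / 2 * e)) = Real.exp (-(c / 2)) ^ e := by
      intro e; rw [← Real.exp_nat_mul]; congr 1; ring
    have hr : ‖Real.exp (-(c / 2))‖ < 1 := by
      rw [Real.norm_of_nonneg (Real.exp_pos _).le, Real.exp_lt_one_iff]; linarith
    have hs := summable_pow_mul_geometric_of_norm_lt_one (k + 1) hr
    have hs1 : Summable (fun A : ℕ => (2 * (|K| * |K'|) * Real.exp (c / 2)) *
        (((A + 1 : ℕ) : ℝ) ^ (k + 1) * Real.exp (-(c / 2)) ^ (A + 1))) :=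
      ((summable_nat_add_iff 1).2 hs).mul_left _
    refine Summable.of_nonneg_of_le (fun A => by positivity) (fun A => ?_) hs1
    rw [h2]
    have e1 : Real.exp (-(c / 2)) ^ (A + 1) * Real.exp (c / 2) = Real.exp (-(c / 2)) ^ A := by
      rw [pow_succ, mul_assoc, ← Real.exp_add]; simp
    have e2 : (2 * (|K| * |K'|) * Real.exp (c / 2)) *
        (((A + 1 : ℕ) : ℝ) ^ (k + 1) * Real.exp (-(c / 2)) ^ (A + 1)) =
        2 * (|K| * |K'|) * ((A : ℝ) + 1) ^ (k + 1) * (Real.exp (-(c / 2)) ^ (A + 1) *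
          Real.exp (c / 2)) := by push_cast; ring
    rw [e2, e1, pow_succ ((A : ℝ) + 1) k]
    have e3 : 2 * (A : ℝ) * (|K| * |K'|) * (1 + (A : ℝ)) ^ k =
        2 * (|K| * |K'|) * (((A : ℝ) + 1) ^ k * A) := by rw [add_comm 1 (A : ℝ)]; ring
    rw [e3]
    refine mul_le_mul_of_nonneg_right ?_ (pow_nonneg (Real.exp_pos _).le _)
    refine mul_le_mul_of_nonneg_left ?_ (by positivity)
    exact mul_le_mul_of_nonneg_left (by linarith) (by positivity)
  have hprod := hgeo.mul_of_nonneg hpol (fun e => (Real.exp_pos _).le)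
    (fun A => by positivity)
  refine Summable.of_norm_bounded hprod (fun p => ?_)
  obtain ⟨e, A⟩ := p
  rw [Real.norm_eq_abs]
  rcases Nat.eq_zero_or_pos e with rfl | he
  · rw [Finset.sum_eq_zero]
    · rw [abs_zero]; positivity
    · intro B hB
      obtain ⟨hA, hd⟩ := mem_rng hB
      rw [h0 _ (qf3_mem hA hd), zero_mul]
  · rcases Nat.eq_zero_or_pos A with rfl | hA
    · simp
    · refine (Finset.abs_sum_le_sum_abs _ _).trans ?_
      have hb : ∀ B ∈ (Finset.range (2 * A)).filter (fun B => 4 * A ∣ B ^ 2 + Δ),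
          |ω (qf3 Δ A B) e * F (qf3 Δ A B)| ≤
            |K| * |K'| * (1 + (A : ℝ)) ^ k * (Real.exp (-(c / 2 * e)) *
              Real.exp (-(c / 2 * A))) := by
        intro B hB
        obtain ⟨hA', hd⟩ := mem_rng hB
        have hQ := qf3_mem hA' hd
        rw [abs_mul]
        have h1 : |ω (qf3 Δ A B) e| ≤ |K| * (Real.exp (-(c / 2 * e)) *
            Real.exp (-(c / 2 * A))) := by
          refine (hω _ hQ e).trans ?_
          refine mul_le_mul (le_abs_self K) ?_ (Real.exp_pos _).le (abs_nonneg K)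
          rw [← Real.exp_add]
          apply Real.exp_le_exp.2
          have h3 : ((qf3 Δ A B).1 : ℝ) = (A : ℝ) := by simp [qf3]
          rw [h3]
          have he1 : (1 : ℝ) ≤ e := by exact_mod_cast he
          have hA1 : (1 : ℝ) ≤ A := by exact_mod_cast hA
          have g1 : (e : ℝ) ≤ (e : ℝ) ^ 2 * A := by
            have q1 : (e : ℝ) ≤ (e : ℝ) ^ 2 := by nlinarith
            calc (e : ℝ) ≤ (e : ℝ) ^ 2 := q1
              _ = (e : ℝ) ^ 2 * 1 := (mul_one _).symm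
              _ ≤ (e : ℝ) ^ 2 * A := mul_le_mul_of_nonneg_left hA1 (by positivity)
          have g2 : (A : ℝ) ≤ (e : ℝ) ^ 2 * A := by
            have q1 : (1 : ℝ) ≤ (e : ℝ) ^ 2 := by nlinarith
            calc (A : ℝ) = 1 * A := (one_mul _).symm
              _ ≤ (e : ℝ) ^ 2 * A := mul_le_mul_of_nonneg_right q1 (by positivity)
          nlinarith
        have h2 : |F (qf3 Δ A B)| ≤ |K'| * (1 + (A : ℝ)) ^ k := by
          refine (hF _ hQ).trans ?_
          have h3 : ((qf3 Δ A B).1 : ℝ) = (A : ℝ) := by simp [qf3]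
          rw [h3]
          exact mul_le_mul_of_nonneg_right (le_abs_self K') (by positivity)
        calc |ω (qf3 Δ A B) e| * |F (qf3 Δ A B)|
            ≤ (|K| * (Real.exp (-(c / 2 * e)) * Real.exp (-(c / 2 * A)))) *
              (|K'| * (1 + (A : ℝ)) ^ k) := mul_le_mul h1 h2 (abs_nonneg _) (by positivity)
          _ = _ := by ring
      refine (Finset.sum_le_sum hb).trans ?_
      rw [Finset.sum_const, nsmul_eq_mul]
      have hcard : (((Finset.range (2 * A)).filter (fun B => 4 * A ∣ B ^ 2 + Δ)).card : ℝ) ≤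
          2 * A := by
        have := Finset.card_filter_le (Finset.range (2 * A)) (fun B => 4 * A ∣ B ^ 2 + Δ)
        rw [Finset.card_range] at this
        exact_mod_cast this
      calc _ ≤ (2 * (A : ℝ)) * (|K| * |K'| * (1 + (A : ℝ)) ^ k * (Real.exp (-(c / 2 * e)) *
              Real.exp (-(c / 2 * A)))) := mul_le_mul_of_nonneg_right hcard (by positivity)
        _ = _ := by ring

end Pool.Agent.H31.CN
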