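import Pool.Agent.H31.CN.UnfB

/-!
# (UNF) congruence lemmas and the weights
-/

set_option autoImplicit false

open MeasureTheory Set Filter
open scoped Real Matrix MatrixGroups

namespace Pool.Agent.H31.CN

theorem fd_div {Δ p : ℕ} (hp : p.Prime) {Q : QF} (hQ : Q ∈ FD Δ) (h : (p : ℤ) ∣ Q.1) :
    (Q.1 / p, Q.2.1, p * Q.2.2) ∈ FD Δ := by
  have hp0 : (0 : ℤ) < p := by exact_mod_cast hp.pos
  have hA : 0 < Q.1 := hQ.1
  have hd : dsc Q = Δ := hQ.2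
  unfold dsc at hd
  obtain ⟨a, ha⟩ := h
  have ha' : Q.1 / (p : ℤ) = a := by rw [ha]; exact Int.mul_ediv_cancel_left a hp0.ne'
  refine ⟨?_, ?_⟩
  · simp only [ha']
    by_contra h
    rw [not_lt] at h
    nlinarith
  · simp only [dsc, ha']
    rw [ha] at hd
    linear_combination hd

theorem fd_root {Δ p : ℕ} (hp : p.Prime) {Q : QF} (hQ : Q ∈ FD Δ) (j : ℕ)
    (h : (p : ℤ) ∣ Q.1 * (j : ℤ) ^ 2 + Q.2.1 * (j : ℤ) + Q.2.2) :
    ((p : ℤ) * Q.1, Q.2.1 + 2 * Q.1 * j, (Q.1 * (j : ℤ) ^ 2 + Q.2.1 * (j : ℤ) + Q.2.2) / p)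
        ∈ FD Δ := by
  have hp0 : (0 : ℤ) < p := by exact_mod_cast hp.pos
  have hA : 0 < Q.1 := hQ.1
  have hd : dsc Q = Δ := hQ.2
  unfold dsc at hd
  obtain ⟨a, ha⟩ := h
  have ha' : (Q.1 * (j : ℤ) ^ 2 + Q.2.1 * (j : ℤ) + Q.2.2) / (p : ℤ) = a := by
    rw [ha]; exact Int.mul_ediv_cancel_left a hp0.ne'
  refine ⟨mul_pos hp0 hA, ?_⟩
  simp only [dsc, ha']
  linear_combination hd - 4 * Q.1 * ha

theorem Tp_congr {Δ p : ℕ} (hp : p.Prime) {F F' : QF → ℝ} (h : ∀ Q ∈ FD Δ, F Q = F' Q) :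
    ∀ Q ∈ FD Δ, Tp p F Q = Tp p F' Q := by
  intro Q hQ
  unfold Tp
  congr 1
  · split_ifs with h1
    · exact h _ (fd_div hp hQ h1)
    · rfl
  · refine Finset.sum_congr rfl fun j hj => ?_
    rw [Finset.mem_filter] at hj
    exact h _ (fd_root hp hQ j hj.2)

theorem TL_congr {Δ : ℕ} {F F' : QF → ℝ} (h : ∀ Q ∈ FD Δ, F Q = F' Q) (l : List ℕ)
    (hl : ∀ p ∈ l, p.Prime) : ∀ Q ∈ FD Δ, TL l F Q = TL l F' Q := by
  induction l with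
  | nil => exact h
  | cons p l ih =>
    exact Tp_congr (hl p List.mem_cons_self)
      (ih fun q hq => hl q (List.mem_cons_of_mem _ hq))

theorem Wp_congr {Δ p : ℕ} (hp : p.Prime) {ω ω' : QF → ℕ → ℝ}
    (h : ∀ Q ∈ FD Δ, ∀ e, ω Q e = ω' Q e) : ∀ Q ∈ FD Δ, ∀ e, Wp p ω Q e = Wp p ω' Q e := by
  intro Q hQ e
  unfold Wp
  congr 1
  · split_ifs with h1
    · exact h _ (fd_div hp hQ h1) e
    · rfl
  · split_ifs with h1
    · refine Finset.sum_congr rfl fun j hj => ?_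
      rw [Finset.mem_filter] at hj
      exact h _ (fd_root hp hQ j hj.2) _
    · rfl

theorem WL_congr {Δ : ℕ} (l : List ℕ) (hl : ∀ p ∈ l, p.Prime) : ∀ {ω ω' : QF → ℕ → ℝ},
    (∀ Q ∈ FD Δ, ∀ e, ω Q e = ω' Q e) → ∀ Q ∈ FD Δ, ∀ e,
      l.foldl (fun ω p => Wp p ω) ω Q e = l.foldl (fun ω p => Wp p ω) ω' Q e := by
  induction l with
  | nil => intro ω ω' h; exact h
  | cons p l ih =>
    intro ω ω' h
    exact ih (fun q hq => hl q (List.mem_cons_of_mem _ hq))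
      (Wp_congr (hl p List.mem_cons_self) h)

theorem val_e0 (Q : QF) (e : ℕ) : val Q ((e : ℤ), 0) = Q.1 * (e : ℤ) ^ 2 := by
  simp [val]

theorem nul_e0 {Δ p : ℕ} (hp : p.Prime) {Q : QF} (hQ : Q ∈ FD Δ) (e : ℕ) :
    nul p Q ((e : ℤ), 0) = N1 p Q.1.toNat Q.2.1 Q.2.2 e := by
  have hA : ((Q.1.toNat : ℕ) : ℤ) = Q.1 := Int.toNat_of_nonneg hQ.1.le
  have h1 : ((p : ℤ) ∣ Q.1) ↔ p ∣ Q.1.toNat := by
    rw [← Int.natCast_dvd_natCast, hA]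
  have h2 : ((p : ℤ) ∣ (e : ℤ)) ↔ p ∣ e := Int.natCast_dvd_natCast
  unfold nul N1 prt
  rw [hA]
  by_cases he : p ∣ e
  · have : (p : ℤ) ∣ (e : ℤ) ∧ (p : ℤ) ∣ 0 := ⟨h2.2 he, dvd_zero _⟩
    rw [if_pos this, if_pos he]
    simp only [h1]
  · have : ¬ ((p : ℤ) ∣ (e : ℤ) ∧ (p : ℤ) ∣ 0) := fun h => he (h2.1 h.1)
    rw [if_neg this, if_neg he, val_e0, add_zero]
    have h3 : ((p : ℤ) ∣ Q.1 * (e : ℤ) ^ 2) ↔ p ∣ Q.1.toNat := by
      rw [← h1]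
      refine ⟨fun h => ?_, fun h => Dvd.dvd.mul_right h _⟩
      have hpp : Prime (p : ℤ) := Nat.prime_iff_prime_int.1 hp
      rcases hpp.dvd_or_dvd h with h | h
      · exact h
      · exact absurd (h2.1 (hpp.dvd_of_dvd_pow h)) he
    simp only [h3]

/-- the weight of `m` at a vector -/
noncomputable def wv (m : ℕ) (Q : QF) (v : ℤ × ℤ) : ℝ :=
  Vk (val Q v / (m * Real.sqrt (dsc Q))) * nu m Q v / Real.sqrt (val Q v)

/-- the translation matrix -/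
def tr1 : SL(2, ℤ) := ⟨!![1, 1; 0, 1], by simp [Matrix.det_fin_two]⟩

theorem act_tr1 (Q : QF) : act Q tr1 = (Q.1, Q.2.1 + 2 * Q.1, Q.1 + Q.2.1 + Q.2.2) := by
  simp only [act, val, tr1]
  simp only [Matrix.of_apply, Matrix.cons_val', Matrix.cons_val_zero,
    Matrix.cons_val_one, Matrix.cons_val_fin_one]
  refine Prod.ext ?_ (Prod.ext ?_ ?_)
  · ring
  · ring
  · ring

theorem gv_tr1 (e : ℤ) : gv tr1 (e, 0) = (e, 0) := by
  simp only [gv, tr1]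
  simp

theorem nu_act (hNUI : T_NUI) (m : ℕ) (Q : QF) (g : SL(2, ℤ)) (v : ℤ × ℤ) :
    nu m (act Q g) v = nu m Q (gv g v) :=
  Finset.prod_congr rfl fun p hp => hNUI p Q g v (Nat.prime_of_mem_primeFactors hp)

theorem wv_act (hNUI : T_NUI) (hACT : T_ACT) (m : ℕ) (Q : QF) (g : SL(2, ℤ)) (v : ℤ × ℤ) :
    wv m (act Q g) v = wv m Q (gv g v) := by
  obtain ⟨h1, h2, _⟩ := hACT Q g g v
  unfold wv
  rw [h1, h2, nu_act hNUI]

theorem wv_zero (m : ℕ) (Q : QF) : wv m Q 0 = 0 := by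
  have : val Q 0 = 0 := by simp [val]
  unfold wv
  rw [this]
  simp

theorem nul_le {p : ℕ} (Q : QF) (v : ℤ × ℤ) : nul p Q v ≤ p + 1 := by
  unfold nul prt nrt
  have : ((Finset.range p).filter (fun j : ℕ =>
      (p : ℤ) ∣ Q.1 * (j : ℤ) ^ 2 + Q.2.1 * (j : ℤ) + Q.2.2)).card ≤ p := by
    have := Finset.card_filter_le (Finset.range p) (fun j : ℕ =>
      (p : ℤ) ∣ Q.1 * (j : ℤ) ^ 2 + Q.2.1 * (j : ℤ) + Q.2.2)
    rwa [Finset.card_range] at this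
  split_ifs <;> omega

theorem nu_le (m : ℕ) (Q : QF) (v : ℤ × ℤ) :
    (nu m Q v : ℝ) ≤ ((∏ p ∈ m.primeFactors, (p + 1) : ℕ) : ℝ) := by
  exact_mod_cast Finset.prod_le_prod' fun p _ => nul_le Q v

/-- the bound for the weights -/
theorem wv_bound {Δ m : ℕ} {C : ℝ} (hC : 0 < C) (hΔ : 0 < Δ) (hm : 1 ≤ m) (hACT : T_ACT)
    (hV : ∀ x : ℝ, 0 < x → |Vk x| ≤ C * Real.exp (-(6 * x))) {Q : QF} (hQ : Q ∈ FD Δ)
    {v : ℤ × ℤ} (hv : v ≠ 0) :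
    |wv m Q v| ≤ (C * ((∏ p ∈ m.primeFactors, (p + 1) : ℕ) : ℝ)) *
      Real.exp (-(6 / (m * Real.sqrt Δ) * val Q v)) := by
  obtain ⟨_, _, _, _, _, h6⟩ := hACT Q 1 1 v
  have hval : 0 < val Q v := (h6 Δ hΔ hQ).2 hv
  have hval1 : (1 : ℝ) ≤ val Q v := by exact_mod_cast hval
  have hD : ((dsc Q : ℤ) : ℝ) = Δ := by rw [hQ.2]; simp
  have hsD : 0 < Real.sqrt Δ := Real.sqrt_pos.2 (by exact_mod_cast hΔ)
  have hm0 : (0 : ℝ) < m := by exact_mod_cast hm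
  unfold wv
  rw [hD, abs_div, abs_mul, abs_of_nonneg (Real.sqrt_nonneg ((val Q v : ℤ) : ℝ)),
    Nat.abs_cast]
  have h1 : |Vk (val Q v / (m * Real.sqrt Δ))| ≤ C * Real.exp (-(6 / (m * Real.sqrt Δ) *
      val Q v)) := by
    refine (hV _ (by positivity)).trans (le_of_eq ?_)
    congr 2
    ring
  have h2 : (1 : ℝ) ≤ Real.sqrt (val Q v) := by
    rw [Real.one_le_sqrt]; exact hval1
  refine div_le_of_le_mul₀ (Real.sqrt_nonneg _) (by positivity) ?_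
  calc |Vk (val Q v / (m * Real.sqrt Δ))| * (nu m Q v : ℝ)
      ≤ (C * Real.exp (-(6 / (m * Real.sqrt Δ) * val Q v))) *
        ((∏ p ∈ m.primeFactors, (p + 1) : ℕ) : ℝ) :=
        mul_le_mul h1 (nu_le m Q v) (Nat.cast_nonneg _) (by positivity)
    _ = (C * ((∏ p ∈ m.primeFactors, (p + 1) : ℕ) : ℝ)) *
      Real.exp (-(6 / (m * Real.sqrt Δ) * val Q v)) * 1 := by ring
    _ ≤ _ := mul_le_mul_of_nonneg_left h2 (by positivity)

end Pool.Agent.H31.CN
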